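import Pool.Agent.Lib.H14U.Defs

/-! Chunk B1a of H14U (MP_ef0847_an). -/

set_option autoImplicit false

open scoped ContDiff

namespace Pool.Agent.Lib.H14U

/-- (S/M) Products. `norm_iteratedFDeriv_mul_le` gives
`∑ i ∈ range (k+1), k.choose i * A^i * B^(k-i) = (A+B)^k` (`add_pow`). -/
theorem Bern.mul {V : Type*} [NormedAddCommGroup V] [NormedSpace ℝ V] {A B : ℝ}
    (hA : 0 ≤ A) (hB : 0 ≤ B) {f g : V → ℝ} (hf : Bern A f) (hg : Bern B g) :
    Bern (A + B) (fun x => f x * g x) := by
  refine ⟨hf.1.mul hg.1, fun k x => ?_⟩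
  refine (norm_iteratedFDeriv_mul_le hf.1 hg.1 x (n := k) (by exact_mod_cast le_top)).trans ?_
  rw [add_pow]
  refine Finset.sum_le_sum fun i _ => ?_
  have h1 := hf.2 i x
  have h2 := hg.2 (k - i) x
  have h3 : (0 : ℝ) ≤ (k.choose i : ℝ) := Nat.cast_nonneg _
  calc (k.choose i : ℝ) * ‖iteratedFDeriv ℝ i f x‖ * ‖iteratedFDeriv ℝ (k - i) g x‖
      ≤ (k.choose i : ℝ) * A ^ i * B ^ (k - i) :=
        mul_le_mul (mul_le_mul_of_nonneg_left h1 h3) h2 (norm_nonneg _)
          (mul_nonneg h3 (pow_nonneg hA i))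
    _ = A ^ i * B ^ (k - i) * (k.choose i : ℝ) := by ring

/-- (S) Powers: induction on `m` with `Bern.mul`; `m = 0`: the constant `1` has norm `1 = (0)^0`
and zero derivatives of order `≥ 1`. -/
theorem Bern.pow {V : Type*} [NormedAddCommGroup V] [NormedSpace ℝ V] {A : ℝ}
    (hA : 0 ≤ A) {f : V → ℝ} (hf : Bern A f) (m : ℕ) :
    Bern (m * A) (fun x => f x ^ m) := by
  induction m with
  | zero =>
    have h0 : (fun x => f x ^ 0) = fun _ : V => (1 : ℝ) := by
      funext x
      rw [pow_zero]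
    rw [h0]
    refine ⟨contDiff_const, fun k x => ?_⟩
    rcases Nat.eq_zero_or_pos k with hk | hk
    · subst hk
      rw [norm_iteratedFDeriv_zero]
      simp
    · rw [iteratedFDeriv_const_of_ne hk.ne']
      simp only [Pi.zero_apply, norm_zero]
      positivity
  | succ m ih =>
    have h1 := Bern.mul (by positivity) hA ih hf
    have h2 : (fun x => f x ^ (m + 1)) = fun x => f x ^ m * f x := by
      funext x
      rw [pow_succ]
    have h3 : ((m + 1 : ℕ) : ℝ) * A = m * A + A := by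
      push_cast
      ring
    rw [h2, h3]
    exact h1

end Pool.Agent.Lib.H14U
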