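import Pool.Agent.Lib.H14U.Defs

/-! Chunk B1b of H14U (MP_ef0847_an). -/

set_option autoImplicit false

open scoped ContDiff

namespace Pool.Agent.Lib.H14U

/-- (M) The function `x ↦ cos (π (x i₀ - c))` on `Fin d → ℝ` (supremum norm) has derivatives
bounded by `π ^ k`.
Proof: it is `cos ∘ ℓ` with `ℓ x = π (x i₀ - c)`, an affine map of norm `≤ π`;
the derivatives of `cos : ℝ → ℝ` are bounded by `1` (`norm_iteratedFDeriv_eq_norm_iteratedDeriv`,
and `iteratedDeriv k cos` is `± cos` or `± sin`, e.g. by induction on `k` for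
`fun y => a cos y + b sin y`-type statements, or `Real.iteratedDeriv_..` lemmas;
in Mathlib there are `Real.iteratedDeriv_even_cos`, `Real.iteratedDeriv_odd_cos` or similar).
Composition: write `ℓ x = L x - π c` with `L : (Fin d → ℝ) →L[ℝ] ℝ`, `‖L‖ ≤ π`
(`L = π • ContinuousLinearMap.proj i₀`) and use
`ContinuousLinearMap.iteratedFDeriv_comp_right` (norm `≤ ‖L‖^k`) applied to the translated
cosine `y ↦ cos (y - π c)`; or `norm_iteratedFDeriv_comp_le` is NOT enough (it has the factor `k!`). -/
theorem bern_cos {d : ℕ} (i₀ : Fin d) (c : ℝ) :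
    Bern Real.pi (fun x : Fin d → ℝ => Real.cos (Real.pi * (x i₀ - c))) := by
  obtain ⟨L, hL⟩ : ∃ L : (Fin d → ℝ) →L[ℝ] ℝ, ∀ x, L x = Real.pi * x i₀ :=
    ⟨Real.pi • ContinuousLinearMap.proj i₀, fun x => by simp⟩
  have hLn : ‖L‖ ≤ Real.pi := by
    refine ContinuousLinearMap.opNorm_le_bound _ Real.pi_pos.le fun x => ?_
    rw [hL, norm_mul, Real.norm_eq_abs Real.pi, abs_of_pos Real.pi_pos]
    exact mul_le_mul_of_nonneg_left (norm_le_pi_norm x i₀) Real.pi_pos.le
  have hg : ContDiff ℝ ∞ (fun y : ℝ => Real.cos (y - Real.pi * c)) :=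
    Real.contDiff_cos.comp (contDiff_id.sub contDiff_const)
  have hfun : (fun x : Fin d → ℝ => Real.cos (Real.pi * (x i₀ - c))) =
      (fun y : ℝ => Real.cos (y - Real.pi * c)) ∘ L := by
    funext x
    rw [Function.comp_apply, hL]
    congr 1
    ring
  rw [hfun]
  refine ⟨hg.comp L.contDiff, fun k x => ?_⟩
  rw [L.iteratedFDeriv_comp_right hg x (i := k) (by exact_mod_cast le_top)]
  refine (ContinuousMultilinearMap.norm_compContinuousLinearMap_le _ _).trans ?_
  have h1 : ∀ k : ℕ, iteratedDeriv k (fun y : ℝ => Real.cos (y - Real.pi * c)) =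
      fun y => Real.cos (y - Real.pi * c + k * (Real.pi / 2)) := by
    intro k
    induction k with
    | zero =>
      rw [iteratedDeriv_zero]
      funext y
      simp
    | succ k ih =>
      rw [iteratedDeriv_succ, ih]
      funext y
      have h2 : HasDerivAt (fun y : ℝ => Real.cos (y - Real.pi * c + k * (Real.pi / 2)))
          (-Real.sin (y - Real.pi * c + k * (Real.pi / 2)) * 1) y := by
        have h3 : HasDerivAt (fun y : ℝ => y - Real.pi * c + k * (Real.pi / 2)) 1 y :=
          ((hasDerivAt_id y).sub_const _).add_const _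
        exact h3.cos
      rw [h2.deriv, mul_one, ← Real.cos_add_pi_div_two]
      congr 1
      push_cast
      ring
  have h2 : ‖iteratedFDeriv ℝ k (fun y : ℝ => Real.cos (y - Real.pi * c)) (L x)‖ ≤ 1 := by
    rw [norm_iteratedFDeriv_eq_norm_iteratedDeriv, h1]
    exact Real.abs_cos_le_one _
  rw [Finset.prod_const, Finset.card_univ, Fintype.card_fin]
  calc ‖iteratedFDeriv ℝ k (fun y : ℝ => Real.cos (y - Real.pi * c)) (L x)‖ * ‖L‖ ^ k
      ≤ 1 * Real.pi ^ k := mul_le_mul h2 (pow_le_pow_left₀ (norm_nonneg _) hLn k)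
        (by positivity) zero_le_one
    _ = Real.pi ^ k := one_mul _

end Pool.Agent.Lib.H14U
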