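import Pool.Agent.Lib.H14U.Defs

/-! Chunk B3a of H14U (MP_ef0847_an). -/

set_option autoImplicit false

open scoped ContDiff

namespace Pool.Agent.Lib.H14U

/-- (S/M) If the distance of `y` to every integer is at least `r` with `0 ≤ r ≤ 1/2`, then
`cos² (π y) ≤ exp (-4 r²)`. Proof: let `m = round y`, `z = y - m`, `r ≤ |z| ≤ 1/2`,
`cos² (π y) = cos² (π z) = 1 - sin² (π z)`, `|sin (π z)| ≥ 2 |z| ≥ 2 r`
(`Real.mul_le_sin` : `2 / π * x ≤ sin x` on `[0, π/2]`), so `cos² ≤ 1 - 4 r² ≤ exp (-4 r²)`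
(`Real.add_one_le_exp`). -/
theorem cos_sq_le (y r : ℝ) (hr : 0 ≤ r) (hr2 : r ≤ 1 / 2)
    (h : ∀ m : ℤ, r ≤ |y - m|) : Real.cos (Real.pi * y) ^ 2 ≤ Real.exp (-4 * r ^ 2) := by
  have hz1 : |y - round y| ≤ 1 / 2 := abs_sub_round y
  have hz2 : r ≤ |y - round y| := h (round y)
  set z : ℝ := y - round y with hz
  have hpi := Real.pi_pos
  have h1 : Real.cos (Real.pi * y) ^ 2 = Real.cos (Real.pi * z) ^ 2 := by
    rw [Real.cos_sq, Real.cos_sq]
    have h2 : 2 * (Real.pi * y) = 2 * (Real.pi * z) + (round y : ℝ) * (2 * Real.pi) := by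
      rw [hz]; ring
    rw [h2, Real.cos_add_int_mul_two_pi]
  have h2 : Real.cos (Real.pi * z) ^ 2 = Real.cos (Real.pi * |z|) ^ 2 := by
    rcases abs_choice z with h3 | h3
    · rw [h3]
    · rw [h3, mul_neg, Real.cos_neg]
  have h3 : 2 * |z| ≤ Real.sin (Real.pi * |z|) := by
    have h4 := Real.mul_le_sin (x := Real.pi * |z|) (by positivity)
      (by nlinarith)
    have h5 : 2 / Real.pi * (Real.pi * |z|) = 2 * |z| := by
      field_simp
    rwa [h5] at h4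
  have h4 : Real.cos (Real.pi * |z|) ^ 2 = 1 - Real.sin (Real.pi * |z|) ^ 2 := by
    rw [Real.cos_sq']
  have h5 : (2 * r) ^ 2 ≤ Real.sin (Real.pi * |z|) ^ 2 :=
    pow_le_pow_left₀ (by linarith) (by linarith) 2
  have h6 := Real.add_one_le_exp (-4 * r ^ 2)
  rw [h1, h2, h4]
  nlinarith

/-- (S) `q exp (-(q+1)) ≤ 1/2`. From `q + 1 ≤ exp q` etc. -/
theorem q_exp_le (q : ℕ) : (q : ℝ) * Real.exp (-((q : ℝ) + 1)) ≤ 1 / 2 := by
  rw [Real.exp_neg]
  have h1 : (2 : ℝ) ≤ Real.exp 1 := by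
    have := Real.add_one_le_exp (1 : ℝ)
    linarith
  have h2 : (q : ℝ) + 1 ≤ Real.exp q := Real.add_one_le_exp (q : ℝ)
  have h3 : 2 * ((q : ℝ) + 1) ≤ Real.exp ((q : ℝ) + 1) := by
    rw [Real.exp_add, mul_comm (Real.exp (q : ℝ))]
    exact mul_le_mul h1 h2 (by positivity) (by linarith)
  rw [← div_eq_mul_inv, div_le_div_iff₀ (Real.exp_pos _) (by norm_num)]
  linarith

end Pool.Agent.Lib.H14U
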