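import Pool.Agent.Lib.H14U.Defs

/-! Chunk B3b of H14U (MP_ef0847_an). -/

set_option autoImplicit false

open scoped ContDiff

namespace Pool.Agent.Lib.H14U

/-- (M) Pigeonhole. Given `q` real numbers `y j` (`j < q`) there is `c` (one of the numbers
`i / (q+1)`, `i = 0, ..., q`) such that `|y j - c - m| ≥ 1 / (4 (q+1))` for all `j` and all
integers `m`.
Proof: otherwise choose for every `i ∈ Fin (q+1)` some `j(i) ∈ Fin q` and an integer `m(i)` with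
`|y (j i) - i/(q+1) - m i| < 1/(4(q+1))`. Two different `i, i'` have the same `j`
(`Fintype.exists_ne_map_eq_of_card_lt`). Subtract: `|(i - i')/(q+1) + (m - m')| < 1/(2(q+1))`,
multiply by `q + 1`: the integer `(i - i') + (q+1)(m - m')` has absolute value `< 1/2`, so it is
`0`, so `q + 1` divides `i - i'`, `|i - i'| ≤ q`, so `i = i'`, contradiction. -/
theorem pigeon (q : ℕ) (y : ℕ → ℝ) : ∃ c : ℝ, ∀ j, j < q → ∀ m : ℤ,
    1 / (4 * ((q : ℝ) + 1)) ≤ |y j - c - m| := by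
  by_contra hcon
  push Not at hcon
  have h : ∀ i : Fin (q + 1), ∃ j : Fin q, ∃ m : ℤ,
      |y j - ((i : ℕ) : ℝ) / ((q : ℝ) + 1) - m| < 1 / (4 * ((q : ℝ) + 1)) := by
    intro i
    obtain ⟨j, hj, m, hm⟩ := hcon (((i : ℕ) : ℝ) / ((q : ℝ) + 1))
    exact ⟨⟨j, hj⟩, m, hm⟩
  choose j m hjm using h
  obtain ⟨i, i', hne, he⟩ := Fintype.exists_ne_map_eq_of_card_lt j (by simp)
  have h1 := hjm i
  have h2 := hjm i'
  rw [← he] at h2
  have hq : (0 : ℝ) < (q : ℝ) + 1 := by positivity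
  have h3 : |(((i : ℕ) : ℝ) / ((q : ℝ) + 1) + m i) - (((i' : ℕ) : ℝ) / ((q : ℝ) + 1) + m i')| <
      1 / (2 * ((q : ℝ) + 1)) := by
    have e : (((i : ℕ) : ℝ) / ((q : ℝ) + 1) + m i) - (((i' : ℕ) : ℝ) / ((q : ℝ) + 1) + m i') =
        (y (j i) - ((i' : ℕ) : ℝ) / ((q : ℝ) + 1) - m i') -
          (y (j i) - ((i : ℕ) : ℝ) / ((q : ℝ) + 1) - m i) := by ring
    have e2 : 1 / (2 * ((q : ℝ) + 1)) = 1 / (4 * ((q : ℝ) + 1)) + 1 / (4 * ((q : ℝ) + 1)) := by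
      field_simp; norm_num
    rw [e, e2]
    exact lt_of_le_of_lt (abs_sub _ _) (add_lt_add h2 h1)
  have h4 : |((((i : ℕ) : ℤ) - ((i' : ℕ) : ℤ) + ((q : ℤ) + 1) * (m i - m i') : ℤ) : ℝ)| < 1 / 2 := by
    have e : ((((i : ℕ) : ℤ) - ((i' : ℕ) : ℤ) + ((q : ℤ) + 1) * (m i - m i') : ℤ) : ℝ) =
        ((q : ℝ) + 1) * ((((i : ℕ) : ℝ) / ((q : ℝ) + 1) + m i) -
          (((i' : ℕ) : ℝ) / ((q : ℝ) + 1) + m i')) := by
      push_cast
      field_simp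
      ring
    rw [e, abs_mul, abs_of_pos hq]
    calc ((q : ℝ) + 1) * |(((i : ℕ) : ℝ) / ((q : ℝ) + 1) + m i) -
          (((i' : ℕ) : ℝ) / ((q : ℝ) + 1) + m i')|
        < ((q : ℝ) + 1) * (1 / (2 * ((q : ℝ) + 1))) := by
          exact mul_lt_mul_of_pos_left h3 hq
      _ = 1 / 2 := by field_simp
  have h5 : ((i : ℕ) : ℤ) - ((i' : ℕ) : ℤ) + ((q : ℤ) + 1) * (m i - m i') = 0 := by
    have h6 : |((i : ℕ) : ℤ) - ((i' : ℕ) : ℤ) + ((q : ℤ) + 1) * (m i - m i')| < 1 := by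
      have : ((|((i : ℕ) : ℤ) - ((i' : ℕ) : ℤ) + ((q : ℤ) + 1) * (m i - m i')| : ℤ) : ℝ) < 1 := by
        rw [Int.cast_abs]
        linarith
      exact_mod_cast this
    exact Int.abs_lt_one_iff.mp h6
  apply hne
  have hi := i.isLt
  have hi' := i'.isLt
  have h7 : m i - m i' = 0 := by
    by_contra hm
    have h8 : 1 ≤ |m i - m i'| := Int.one_le_abs hm
    have h9 : ((i' : ℕ) : ℤ) - ((i : ℕ) : ℤ) = ((q : ℤ) + 1) * (m i - m i') := by linarith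
    have h10 : |((i' : ℕ) : ℤ) - ((i : ℕ) : ℤ)| = ((q : ℤ) + 1) * |m i - m i'| := by
      rw [h9, abs_mul, abs_of_pos (by positivity)]
    have h11 : |((i' : ℕ) : ℤ) - ((i : ℕ) : ℤ)| < (q : ℤ) + 1 := by
      rw [abs_lt]; constructor <;> omega
    nlinarith
  rw [h7] at h5
  apply Fin.ext
  omega

end Pool.Agent.Lib.H14U
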