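import Pool.Agent.Lib.H14U.B1a
import Pool.Agent.Lib.H14U.B1b
import Pool.Agent.Lib.H14U.B3a
import Pool.Agent.Lib.H14U.B3b

/-! Chunk B3c of H14U (MP_ef0847_an). -/

set_option autoImplicit false

open scoped ContDiff

namespace Pool.Agent.Lib.H14U

/-- (M) The test function. For every `q` and every sequence of points `z j` there is a smooth
periodic function `η` with `0 ≤ η ≤ 1`, `‖D^k η‖ ≤ (8 π (q+1)^3)^k`, `∑_{j<q} η (z j) ≤ 1/2` and
`η w = 1` at some point `w`.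
Proof. `d ≥ 1`, `i₀ = 0`. Take `c` from `pigeon` for `y j = z j i₀`, and
`η x = cos (π (x i₀ - c)) ^ (2 N)`, `N = 4 (q+1)^3`: derivatives by `Bern.pow` and `bern_cos`
(`2 N π = 8 π (q+1)^3`), periodic since `cos (t + π k)^2 = cos(t)^2`, at `w = fun _ => c` it is `1`.
`η (z j) = (cos²)^N ≤ exp (-4 N r²)` with `r = 1/(4(q+1))` (`cos_sq_le` for `y = z j i₀ - c`),
`4 N r² = N / (4 (q+1)^2) = q + 1`; sum `≤ q exp (-(q+1)) ≤ 1/2` (`q_exp_le`). -/
theorem testfun {d : ℕ} (hd : 1 ≤ d) (q : ℕ) (z : ℕ → Fin d → ℝ) :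
    ∃ η : (Fin d → ℝ) → ℝ, Bern (8 * Real.pi * ((q : ℝ) + 1) ^ 3) η ∧ Per η ∧
      (∀ x, 0 ≤ η x ∧ η x ≤ 1) ∧ (∑ j ∈ Finset.range q, η (z j)) ≤ 1 / 2 ∧
      ∃ w, η w = 1 := by
  let i₀ : Fin d := ⟨0, hd⟩
  obtain ⟨c, hc⟩ := pigeon q (fun j => z j i₀)
  let N : ℕ := 4 * (q + 1) ^ 3
  refine ⟨fun x => Real.cos (Real.pi * (x i₀ - c)) ^ (2 * N), ?_, ?_, ?_, ?_, ?_⟩
  · have h1 := Bern.pow Real.pi_pos.le (bern_cos i₀ c) (2 * N)
    have h2 : ((2 * N : ℕ) : ℝ) * Real.pi = 8 * Real.pi * ((q : ℝ) + 1) ^ 3 := by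
      simp only [N]
      push_cast
      ring
    rwa [h2] at h1
  · intro x k
    have h1 : Real.pi * ((x + zv k) i₀ - c) = Real.pi * (x i₀ - c) + (k i₀ : ℝ) * Real.pi := by
      simp only [zv, Pi.add_apply]
      ring
    have h2 : Real.cos (Real.pi * ((x + zv k) i₀ - c)) ^ 2 = Real.cos (Real.pi * (x i₀ - c)) ^ 2 := by
      rw [Real.cos_sq, Real.cos_sq]
      have h3 : 2 * (Real.pi * ((x + zv k) i₀ - c)) =
          2 * (Real.pi * (x i₀ - c)) + (k i₀ : ℝ) * (2 * Real.pi) := by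
        rw [h1]; ring
      rw [h3, Real.cos_add_int_mul_two_pi]
    show Real.cos (Real.pi * ((x + zv k) i₀ - c)) ^ (2 * N) =
      Real.cos (Real.pi * (x i₀ - c)) ^ (2 * N)
    rw [pow_mul (Real.cos (Real.pi * ((x + zv k) i₀ - c))) 2 N,
      pow_mul (Real.cos (Real.pi * (x i₀ - c))) 2 N, h2]
  · intro x
    have h1 : 0 ≤ Real.cos (Real.pi * (x i₀ - c)) ^ 2 := sq_nonneg _
    have h2 : Real.cos (Real.pi * (x i₀ - c)) ^ 2 ≤ 1 := Real.cos_sq_le_one _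
    show 0 ≤ Real.cos (Real.pi * (x i₀ - c)) ^ (2 * N) ∧
      Real.cos (Real.pi * (x i₀ - c)) ^ (2 * N) ≤ 1
    rw [pow_mul (Real.cos (Real.pi * (x i₀ - c))) 2 N]
    exact ⟨pow_nonneg h1 _, pow_le_one₀ h1 h2⟩
  · have hq : (0 : ℝ) < (q : ℝ) + 1 := by positivity
    have hr0 : 0 ≤ 1 / (4 * ((q : ℝ) + 1)) := by positivity
    have hr2 : 1 / (4 * ((q : ℝ) + 1)) ≤ 1 / 2 := by
      have h0 : (0 : ℝ) ≤ q := Nat.cast_nonneg q
      apply one_div_le_one_div_of_le (by norm_num)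
      linarith
    have h1 : ∀ j ∈ Finset.range q, Real.cos (Real.pi * (z j i₀ - c)) ^ (2 * N)
        ≤ Real.exp (-((q : ℝ) + 1)) := by
      intro j hj
      have h2 := cos_sq_le (z j i₀ - c) (1 / (4 * ((q : ℝ) + 1))) hr0 hr2
        (hc j (Finset.mem_range.mp hj))
      rw [pow_mul (Real.cos (Real.pi * (z j i₀ - c))) 2 N]
      refine (pow_le_pow_left₀ (sq_nonneg _) h2 N).trans ?_
      rw [← Real.exp_nat_mul]
      apply Real.exp_le_exp.mpr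
      apply le_of_eq
      simp only [N]
      push_cast
      field_simp
    refine (Finset.sum_le_sum h1).trans ?_
    rw [Finset.sum_const, Finset.card_range, nsmul_eq_mul]
    exact q_exp_le q
  · refine ⟨fun _ => c, ?_⟩
    simp

end Pool.Agent.Lib.H14U
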