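import Pool.Agent.Lib.H14U.G0b

/-! Chunk C1a of H14U (MP_ef0847_an). -/

set_option autoImplicit false

open scoped ContDiff

namespace Pool.Agent.Lib.H14U

/-- (M) Smooth sums. Let `g j` be smooth periodic functions with `‖D^i (g j)‖ ≤ 2^{-j}` for
`i ≤ j`, and `c` a bounded sequence. Then `Φ = ∑' j, c j g j` is smooth and its partial sums
converge to it with all derivatives.
Proof. `v k j = |c j| * (if k ≤ j then 2^{-j} else M k j)` with `M k j` a bound for `‖D^k (g j)‖`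
(`per_iteratedFDeriv`, `per_bounded`); `v k` is summable (finitely many changes of a geometric
series). `contDiff_tsum`. `iteratedFDeriv_tsum` (or `iteratedFDeriv_tsum_apply`) gives
`D^i Φ = ∑' D^i (c j g j)`; so `D^i (∑_{j<n} c j g j - Φ)(x) = - ∑'_{j ≥ n} D^i (c j g j)(x)`, norm
`≤ ∑'_{j ≥ n} v i j → 0` (`Summable.tendsto_sum_tsum_nat`, `tsum_of_norm_bounded`,
`tendsto_sum_nat_add`). -/
theorem smooth_tsum {d : ℕ} (g : ℕ → (Fin d → ℝ) → ℝ) (hg : ∀ j, ContDiff ℝ ∞ (g j))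
    (hp : ∀ j, Per (g j)) (hb : ∀ j i : ℕ, i ≤ j → ∀ x, ‖iteratedFDeriv ℝ i (g j) x‖ ≤ (1 / 2 : ℝ) ^ j)
    (c : ℕ → ℝ) (K : ℝ) (hc : ∀ j, |c j| ≤ K) :
    ContDiff ℝ ∞ (fun x => ∑' j, c j * g j x) ∧
    ∀ i : ℕ, ∀ ε : ℝ, 0 < ε → ∃ N : ℕ, ∀ n, N ≤ n → ∀ x,
      ‖iteratedFDeriv ℝ i (fun y => (∑ j ∈ Finset.range n, c j * g j y) - ∑' j, c j * g j y) x‖
        < ε := by
  have hK0 : 0 ≤ K := (abs_nonneg _).trans (hc 0)
  have hM : ∀ k j : ℕ, ∃ M : ℝ, 0 ≤ M ∧ ∀ x, ‖iteratedFDeriv ℝ k (g j) x‖ ≤ M := by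
    intro k j
    have h1 : Continuous (fun x => iteratedFDeriv ℝ k (g j) x) :=
      (hg j).continuous_iteratedFDeriv (by exact_mod_cast le_top)
    exact per_bounded h1 (per_iteratedFDeriv (hp j) k)
  choose M hM0 hM1 using hM
  let v : ℕ → ℕ → ℝ := fun k j => K * (if k ≤ j then (1 / 2 : ℝ) ^ j else M k j)
  have hv : ∀ k : ℕ, Summable (v k) := by
    intro k
    rw [← summable_nat_add_iff k]
    have h1 : (fun n => v k (n + k)) = fun n => (K * (1 / 2 : ℝ) ^ k) * (1 / 2 : ℝ) ^ n := by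
      funext n
      simp only [v]
      rw [if_pos (Nat.le_add_left k n), pow_add]
      ring
    rw [h1]
    exact summable_geometric_two.mul_left _
  have hf : ∀ j, ContDiff ℝ ∞ (fun x => c j * g j x) := fun j => contDiff_const.mul (hg j)
  have hfv : ∀ (k j : ℕ) (x : Fin d → ℝ),
      ‖iteratedFDeriv ℝ k (fun x => c j * g j x) x‖ ≤ v k j := by
    intro k j x
    have h1 : iteratedFDeriv ℝ k (fun x => c j * g j x) x = c j • iteratedFDeriv ℝ k (g j) x :=
      iteratedFDeriv_const_smul_apply' (a := c j) (f := g j) (x := x)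
        ((hg j).of_le (by exact_mod_cast le_top)).contDiffAt
    rw [h1, norm_smul, Real.norm_eq_abs]
    have h2 : ‖iteratedFDeriv ℝ k (g j) x‖ ≤ (if k ≤ j then (1 / 2 : ℝ) ^ j else M k j) := by
      split_ifs with h
      · exact hb j k h x
      · exact hM1 k j x
    exact mul_le_mul (hc j) h2 (norm_nonneg _) hK0
  refine ⟨contDiff_tsum hf (fun k _ => hv k) fun k j x _ => hfv k j x, ?_⟩
  intro i ε hε
  have hlim := tendsto_sum_nat_add (v i)
  obtain ⟨N, hN⟩ := Filter.eventually_atTop.1 (hlim.eventually_lt_const hε)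
  refine ⟨N, fun n hn x => ?_⟩
  have hsum : ∀ y, Summable (fun j => c j * g j y) := by
    intro y
    refine Summable.of_norm_bounded (hv 0) fun j => ?_
    have h1 := hfv 0 j y
    rwa [norm_iteratedFDeriv_zero] at h1
  have hfun : (fun y => (∑ j ∈ Finset.range n, c j * g j y) - ∑' j, c j * g j y) =
      fun y => -(∑' j, c (j + n) * g (j + n) y) := by
    funext y
    have h1 := (hsum y).sum_add_tsum_nat_add n
    rw [← h1]
    ring
  rw [hfun]
  have h2 : iteratedFDeriv ℝ i (fun y => -(∑' j, c (j + n) * g (j + n) y)) x =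
      -(iteratedFDeriv ℝ i (fun y => ∑' j, c (j + n) * g (j + n) y) x) :=
    iteratedFDeriv_neg_apply (f := fun y => ∑' j, c (j + n) * g (j + n) y)
  have hvn : ∀ k : ℕ, Summable (fun j => v k (j + n)) := fun k =>
    (summable_nat_add_iff n).2 (hv k)
  have h3 : iteratedFDeriv ℝ i (fun y => ∑' j, c (j + n) * g (j + n) y) x =
      ∑' j, iteratedFDeriv ℝ i (fun y => c (j + n) * g (j + n) y) x :=
    iteratedFDeriv_tsum_apply (N := ⊤) (fun j => hf (j + n)) (fun k _ => hvn k)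
      (fun k j x _ => hfv k (j + n) x) le_top x
  rw [h2, norm_neg, h3]
  exact (tsum_of_norm_bounded (hvn i).hasSum fun j => hfv i (j + n) x).trans_lt (hN n hn)

end Pool.Agent.Lib.H14U
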