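import Pool.Agent.Lib.H14U.G0b

/-! Chunk C1b of H14U (MP_ef0847_an). -/

set_option autoImplicit false

open scoped ContDiff

namespace Pool.Agent.Lib.H14U

/-- The `ℓ¹` norm facts. -/
theorem c1b_hasSum (c : lp (fun _ : ℕ => ℝ) 1) : HasSum (fun j => |c j|) ‖c‖ := by
  have h := lp.hasSum_norm (E := fun _ : ℕ => ℝ) (p := 1) (by norm_num) c
  simpa using h

theorem c1b_summable (c : lp (fun _ : ℕ => ℝ) 1) : Summable (fun j => |c j|) :=
  (c1b_hasSum c).summable

theorem c1b_summable_mul (c : lp (fun _ : ℕ => ℝ) 1) (b : ℕ → ℝ) (hb : ∀ j, |b j| ≤ 1) :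
    Summable (fun j => c j * b j) := by
  apply Summable.of_norm
  apply Summable.of_nonneg_of_le (fun j => norm_nonneg _) _ (c1b_summable c)
  intro j
  rw [Real.norm_eq_abs, abs_mul]
  calc |c j| * |b j| ≤ |c j| * 1 := mul_le_mul_of_nonneg_left (hb j) (abs_nonneg _)
    _ = |c j| := mul_one _

theorem c1b_tsum_bound (c : lp (fun _ : ℕ => ℝ) 1) (b : ℕ → ℝ) (hb : ∀ j, |b j| ≤ 1) :
    |∑' j, c j * b j| ≤ ‖c‖ := by
  have h1 := c1b_summable_mul c b hb
  have h2 : ∀ j, |c j * b j| ≤ |c j| := by
    intro j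
    rw [abs_mul]
    calc |c j| * |b j| ≤ |c j| * 1 := mul_le_mul_of_nonneg_left (hb j) (abs_nonneg _)
      _ = |c j| := mul_one _
  have h3 := tsum_of_norm_bounded (c1b_hasSum c) (f := fun j => c j * b j)
    (fun j => by rw [Real.norm_eq_abs]; exact h2 j)
  simpa using h3

/-- `f` solves the equation for the right-hand side `g`. -/
def C1bSol {d : ℕ} (F : (Fin d → ℝ) → (Fin d → ℝ)) (g : (Fin d → ℝ) → ℝ)
    (f : BoundedContinuousFunction (Fin d → ℝ) ℝ) : Prop :=
  Per (fun x => f x) ∧ f 0 = 0 ∧ ∀ x, g x = f (F x) - f x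

theorem c1b_unique {d : ℕ} {F : (Fin d → ℝ) → (Fin d → ℝ)} (hR : Rigid F)
    {g : (Fin d → ℝ) → ℝ} {f f' : BoundedContinuousFunction (Fin d → ℝ) ℝ}
    (h : C1bSol F g f) (h' : C1bSol F g f') : f = f' := by
  ext x
  have h1 : f x - f' x = f 0 - f' 0 :=
    hR (fun y => f y - f' y) (f.continuous.sub f'.continuous)
    (by
      intro y k
      have e1 := h.1 y k
      have e2 := h'.1 y k
      simp only at e1 e2 ⊢
      rw [e1, e2])
    (by
      intro y
      have e1 := h.2.2 y
      have e2 := h'.2.2 y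
      show f (F y) - f' (F y) = f y - f' y
      linarith) x
  rw [h.2.1, h'.2.1] at h1
  linarith

theorem c1b_exists {d : ℕ} {F : (Fin d → ℝ) → (Fin d → ℝ)}
    {g : (Fin d → ℝ) → ℝ}
    (h : ∃ Ψ : (Fin d → ℝ) → ℝ, Continuous Ψ ∧ Per Ψ ∧ ∀ x, g x = Ψ (F x) - Ψ x) :
    ∃ f, C1bSol F g f := by
  obtain ⟨Ψ, hc, hp, hs⟩ := h
  obtain ⟨C, hC0, hC⟩ := per_bounded hc hp
  refine ⟨BoundedContinuousFunction.ofNormedAddCommGroup (fun x => Ψ x - Ψ 0)
    (hc.sub continuous_const) (C + C) (fun x => ?_), ?_, ?_, ?_⟩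
  · exact (norm_sub_le _ _).trans (add_le_add (hC x) (hC 0))
  · intro x k
    have := hp x k
    simp only [BoundedContinuousFunction.coe_ofNormedAddCommGroup]
    rw [this]
  · simp
  · intro x
    simp only [BoundedContinuousFunction.coe_ofNormedAddCommGroup]
    rw [hs x]
    ring

/-- (M/L) The closed graph argument, abstract form.
Proof. Let `X = lp (fun _ : ℕ => ℝ) 1` and `Y` the closed subspace
`{f : (Fin d → ℝ) →ᵇ ℝ | Per f ∧ f 0 = 0}` of the bounded continuous functions (a complete normed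
space). For `c ∈ X` the sum `Φ_c = ∑' j, c j (ψ j ∘ F - ψ j)` is `Ψ ∘ F - Ψ` with a continuous
periodic `Ψ` (`hsolve`), which is bounded (`per_bounded`), and unique up to a constant by `Rigid`
(the difference of two solutions is invariant); normalise `Ψ 0 = 0`: this defines a linear map
`T : X → Y` (linear by uniqueness; `Φ_c` is linear in `c`, the sums converge absolutely since
`|ψ j (F x) - ψ j x| ≤ 1`). Closed graph: if `c_n → c` in `X` and `T c_n → f` in `Y` then for every
`x`: `Φ_{c_n}(x) → Φ_c(x)` (`|Φ_{c_n} x - Φ_c x| ≤ ‖c_n - c‖`) and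
`(T c_n)(F x) - (T c_n) x → f (F x) - f x`, so `f` solves the equation for `c`, `f = T c`.
`LinearMap.continuous_of_seq_closed_graph`. So `‖T c‖ ≤ K ‖c‖`. For `c = lp.single 1 j 1`
(norm 1) `T c = ψ j - ψ j 0`, so `|ψ j x - ψ j y| ≤ 2 K`. -/
theorem closed_graph {d : ℕ} {F : (Fin d → ℝ) → (Fin d → ℝ)} (hR : Rigid F)
    (ψ : ℕ → (Fin d → ℝ) → ℝ) (hψc : ∀ j, Continuous (ψ j)) (hψp : ∀ j, Per (ψ j))
    (hF : ∀ (x : Fin d → ℝ) (k : Fin d → ℤ), F (x + zv k) = F x + zv k)
    (hFc : Continuous F)
    (hg : ∀ j x, |ψ j (F x) - ψ j x| ≤ 1)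
    (hsolve : ∀ c : ℕ → ℝ, Summable (fun j => |c j|) → ∃ Ψ : (Fin d → ℝ) → ℝ,
      Continuous Ψ ∧ Per Ψ ∧ ∀ x, (∑' j, c j * (ψ j (F x) - ψ j x)) = Ψ (F x) - Ψ x) :
    ∃ K : ℝ, ∀ j x y, |ψ j x - ψ j y| ≤ K := by
  classical
  set R : lp (fun _ : ℕ => ℝ) 1 → (Fin d → ℝ) → ℝ :=
    fun c x => ∑' j, c j * (ψ j (F x) - ψ j x) with hRdef
  have hex : ∀ c : lp (fun _ : ℕ => ℝ) 1, ∃ f, C1bSol F (R c) f := fun c =>
    c1b_exists (hsolve c (c1b_summable c))
  choose T hT using hex
  have hsum : ∀ (c : lp (fun _ : ℕ => ℝ) 1) (x : Fin d → ℝ),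
      Summable (fun j => c j * (ψ j (F x) - ψ j x)) := fun c x =>
    c1b_summable_mul c _ (fun j => hg j x)
  have hadd : ∀ c c' : lp (fun _ : ℕ => ℝ) 1, T (c + c') = T c + T c' := by
    intro c c'
    apply c1b_unique hR (hT (c + c'))
    refine ⟨?_, ?_, ?_⟩
    · intro x k
      have e1 := (hT c).1 x k
      have e2 := (hT c').1 x k
      simp only at e1 e2
      simp only [BoundedContinuousFunction.coe_add, Pi.add_apply]
      rw [e1, e2]
    · simp only [BoundedContinuousFunction.coe_add, Pi.add_apply]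
      rw [(hT c).2.1, (hT c').2.1]
      ring
    · intro x
      have e1 := (hT c).2.2 x
      have e2 := (hT c').2.2 x
      simp only [BoundedContinuousFunction.coe_add, Pi.add_apply]
      have e3 : R (c + c') x = R c x + R c' x := by
        simp only [hRdef]
        rw [← (hsum c x).tsum_add (hsum c' x)]
        apply tsum_congr
        intro j
        simp only [lp.coeFn_add, Pi.add_apply]
        ring
      rw [e3, e1, e2]
      ring
  have hsmul : ∀ (a : ℝ) (c : lp (fun _ : ℕ => ℝ) 1), T (a • c) = a • T c := by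
    intro a c
    apply c1b_unique hR (hT (a • c))
    refine ⟨?_, ?_, ?_⟩
    · intro x k
      have e1 := (hT c).1 x k
      simp only at e1
      simp only [BoundedContinuousFunction.coe_smul, smul_eq_mul]
      rw [e1]
    · simp only [BoundedContinuousFunction.coe_smul, smul_eq_mul]
      rw [(hT c).2.1]
      ring
    · intro x
      have e1 := (hT c).2.2 x
      simp only [BoundedContinuousFunction.coe_smul, smul_eq_mul]
      have e3 : R (a • c) x = a * R c x := by
        simp only [hRdef]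
        rw [← tsum_mul_left]
        apply tsum_congr
        intro j
        simp only [lp.coeFn_smul, Pi.smul_apply, smul_eq_mul]
        ring
      rw [e3, e1]
      ring
  let L : lp (fun _ : ℕ => ℝ) 1 →ₗ[ℝ] BoundedContinuousFunction (Fin d → ℝ) ℝ :=
    { toFun := T, map_add' := hadd, map_smul' := hsmul }
  have hLT : ∀ c, L c = T c := fun c => rfl
  have hcont : Continuous L := by
    apply LinearMap.continuous_of_seq_closed_graph
    intro u c f hu hf
    have hf' : Filter.Tendsto (fun n => T (u n)) Filter.atTop (nhds f) := hf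
    have hpt : ∀ x, Filter.Tendsto (fun n => T (u n) x) Filter.atTop (nhds (f x)) := by
      intro x
      rw [tendsto_iff_dist_tendsto_zero] at hf' ⊢
      apply squeeze_zero (fun n => dist_nonneg) _ hf'
      intro n
      exact BoundedContinuousFunction.dist_coe_le_dist x
    rw [hLT]
    apply c1b_unique hR _ (hT c)
    refine ⟨?_, ?_, ?_⟩
    · intro x k
      have e1 := hpt (x + zv k)
      have e2 : (fun n => T (u n) (x + zv k)) = fun n => T (u n) x := by
        funext n
        exact (hT (u n)).1 x k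
      rw [e2] at e1
      exact tendsto_nhds_unique e1 (hpt x)
    · have e1 := hpt 0
      have e2 : (fun n => T (u n) 0) = fun _ => 0 := by
        funext n
        exact (hT (u n)).2.1
      rw [e2] at e1
      exact tendsto_nhds_unique e1 tendsto_const_nhds
    · intro x
      have e1 : Filter.Tendsto (fun n => R (u n) x) Filter.atTop (nhds (f (F x) - f x)) := by
        have e2 : (fun n => R (u n) x) = fun n => T (u n) (F x) - T (u n) x := by
          funext n
          exact (hT (u n)).2.2 x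
        rw [e2]
        exact (hpt (F x)).sub (hpt x)
      have e3 : Filter.Tendsto (fun n => R (u n) x) Filter.atTop (nhds (R c x)) := by
        rw [tendsto_iff_norm_sub_tendsto_zero] at hu ⊢
        apply squeeze_zero (fun n => norm_nonneg _) _ hu
        intro n
        have e4 : R (u n) x - R c x = ∑' j, (u n - c) j * (ψ j (F x) - ψ j x) := by
          simp only [hRdef]
          rw [← (hsum (u n) x).tsum_sub (hsum c x)]
          apply tsum_congr
          intro j
          simp only [lp.coeFn_sub, Pi.sub_apply]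
          ring
        rw [e4, Real.norm_eq_abs]
        exact c1b_tsum_bound (u n - c) _ (fun j => hg j x)
      exact tendsto_nhds_unique e3 e1
  let L' : lp (fun _ : ℕ => ℝ) 1 →L[ℝ] BoundedContinuousFunction (Fin d → ℝ) ℝ := ⟨L, hcont⟩
  refine ⟨‖L'‖ + ‖L'‖, ?_⟩
  have key : ∀ j x, |ψ j x - ψ j 0| ≤ ‖L'‖ := by
    intro j x
    have hs : T (lp.single 1 j (1 : ℝ)) x = ψ j x - ψ j 0 := by
      obtain ⟨C, hC0, hC⟩ := per_bounded (hψc j) (hψp j)
      have hsol : C1bSol F (R (lp.single 1 j (1 : ℝ)))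
          (BoundedContinuousFunction.ofNormedAddCommGroup (fun x => ψ j x - ψ j 0)
            ((hψc j).sub continuous_const) (C + C)
            (fun x => (norm_sub_le _ _).trans (add_le_add (hC x) (hC 0)))) := by
        refine ⟨?_, ?_, ?_⟩
        · intro y k
          have := hψp j y k
          simp only [BoundedContinuousFunction.coe_ofNormedAddCommGroup]
          rw [this]
        · simp
        · intro y
          simp only [BoundedContinuousFunction.coe_ofNormedAddCommGroup, hRdef]
          rw [tsum_eq_single j]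
          · rw [lp.single_apply_self]
            ring
          · intro i hi
            rw [lp.single_apply_ne _ _ _ hi]
            ring
      rw [c1b_unique hR (hT _) hsol]
      simp
    rw [← hs, ← Real.norm_eq_abs]
    calc ‖T (lp.single 1 j (1 : ℝ)) x‖ ≤ ‖T (lp.single 1 j (1 : ℝ))‖ :=
          BoundedContinuousFunction.norm_coe_le_norm _ x
      _ = ‖L' (lp.single 1 j (1 : ℝ))‖ := rfl
      _ ≤ ‖L'‖ * ‖(lp.single 1 j (1 : ℝ) : lp (fun _ : ℕ => ℝ) 1)‖ := L'.le_opNorm _
      _ = ‖L'‖ := by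
          rw [lp.norm_single (by norm_num)]
          simp
  intro j x y
  have e : ψ j x - ψ j y = (ψ j x - ψ j 0) - (ψ j y - ψ j 0) := by ring
  rw [e]
  exact (abs_sub _ _).trans (add_le_add (key j x) (key j y))

end Pool.Agent.Lib.H14U
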