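import Pool.Agent.Lib.H14U.C1a
import Pool.Agent.Lib.H14U.C1b

/-! Chunk C1c of H14U (MP_ef0847_an). -/

set_option autoImplicit false

open scoped ContDiff

namespace Pool.Agent.Lib.H14U

/-- (S/M) The criterion: a bad sequence and rigidity contradict closedness.
Proof. Assume `ClosedCob F`. `closed_graph` applies: `|ψ j (F x) - ψ j x| ≤ (1/2)^j ≤ 1` (order
`i = 0`), and for an absolutely summable `c` (bounded by some `K`) use `smooth_tsum` for
`g j = ψ j ∘ F - ψ j` and `ClosedCob F` with `Ψ n = ∑_{j<n} c j ψ j`,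
`Φ = ∑' c j g j` (periodic because each `g j` is). So the oscillations are bounded by `K`;
take `j > K`. -/
theorem not_closed {d : ℕ} {F G : (Fin d → ℝ) → (Fin d → ℝ)} (hS : Sys F G) (hR : Rigid F)
    (ψ : ℕ → (Fin d → ℝ) → ℝ) (hψ : ∀ j, ContDiff ℝ ∞ (ψ j)) (hψp : ∀ j, Per (ψ j))
    (hosc : ∀ j : ℕ, ∃ x y, (j : ℝ) ≤ |ψ j x - ψ j y|)
    (hsm : ∀ j i : ℕ, i ≤ j → ∀ x, ‖iteratedFDeriv ℝ i (fun y => ψ j (F y) - ψ j y) x‖
        ≤ (1 / 2 : ℝ) ^ j) : ¬ ClosedCob F := by
  intro hcl
  have hper : ∀ j, Per (fun y => ψ j (F y) - ψ j y) := by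
    intro j x k
    show ψ j (F (x + zv k)) - ψ j (x + zv k) = ψ j (F x) - ψ j x
    rw [hS.comm, hψp j (F x) k, hψp j x k]
  have hsmooth : ∀ j, ContDiff ℝ ∞ (fun y => ψ j (F y) - ψ j y) := fun j =>
    ((hψ j).comp hS.smoothF).sub (hψ j)
  have hg : ∀ j x, |ψ j (F x) - ψ j x| ≤ 1 := by
    intro j x
    have h1 := hsm j 0 (Nat.zero_le j) x
    rw [norm_iteratedFDeriv_zero, Real.norm_eq_abs] at h1
    refine h1.trans ?_
    exact pow_le_one₀ (by norm_num) (by norm_num)
  obtain ⟨K, hK⟩ := closed_graph hR ψ (fun j => (hψ j).continuous) hψp hS.comm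
    hS.smoothF.continuous hg (by
      intro c hc
      have hcK : ∀ j, |c j| ≤ ∑' i, |c i| := fun j =>
        hc.le_tsum j fun i _ => abs_nonneg _
      obtain ⟨h1, h2⟩ := smooth_tsum (fun j y => ψ j (F y) - ψ j y) hsmooth hper hsm c _ hcK
      obtain ⟨Ψ, h3, h4, h5⟩ := hcl (fun n y => ∑ j ∈ Finset.range n, c j * ψ j y)
        (fun x => ∑' j, c j * (ψ j (F x) - ψ j x))
        (fun n => ContDiff.sum fun j _ => contDiff_const.mul (hψ j))
        (by
          intro n x k
          show ∑ j ∈ Finset.range n, c j * ψ j (x + zv k) = ∑ j ∈ Finset.range n, c j * ψ j x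
          refine Finset.sum_congr rfl fun j _ => ?_
          rw [hψp j x k]) h1
        (by
          intro x k
          show (∑' j, c j * (ψ j (F (x + zv k)) - ψ j (x + zv k))) =
            ∑' j, c j * (ψ j (F x) - ψ j x)
          congr 1
          funext j
          rw [hS.comm, hψp j (F x) k, hψp j x k])
        (by
          intro i ε hε
          obtain ⟨N, hN⟩ := h2 i ε hε
          refine ⟨N, fun n hn x => ?_⟩
          have h6 : (fun y => (∑ j ∈ Finset.range n, c j * ψ j (F y)) -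
              (∑ j ∈ Finset.range n, c j * ψ j y) - ∑' j, c j * (ψ j (F y) - ψ j y)) =
              fun y => (∑ j ∈ Finset.range n, c j * (ψ j (F y) - ψ j y)) -
                ∑' j, c j * (ψ j (F y) - ψ j y) := by
            funext y
            rw [← Finset.sum_sub_distrib]
            congr 1
            refine Finset.sum_congr rfl fun j _ => ?_
            ring
          rw [h6]
          exact hN n hn x)
      exact ⟨Ψ, h3.continuous, h4, h5⟩)
  obtain ⟨n, hn⟩ := exists_nat_gt K
  obtain ⟨x, y, hxy⟩ := hosc n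
  have := hK n x y
  linarith

end Pool.Agent.Lib.H14U
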