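import Mathlib

/-!
H14U, MP_ef0847_an: instability of the coboundary space for Liouville rotation vectors.
Paper proof: Lib/H14U/PROOF.md.
Everything is done with lifts `F : (Fin d → ℝ) → (Fin d → ℝ)` of torus maps.
-/

set_option autoImplicit false

open scoped ContDiff

namespace Pool.Agent.Lib.H14U

/-- The integer vector `k` as a real vector. -/
def zv {d : ℕ} (k : Fin d → ℤ) : Fin d → ℝ := fun i => (k i : ℝ)

/-- `f` is `ℤ^d`-periodic. -/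
def Per {d : ℕ} {W : Type*} (f : (Fin d → ℝ) → W) : Prop :=
  ∀ (x : Fin d → ℝ) (k : Fin d → ℤ), f (x + zv k) = f x

/-- `F` is the lift of a torus diffeomorphism commuting with integer translations,
`G` is its inverse. -/
structure Sys {d : ℕ} (F G : (Fin d → ℝ) → (Fin d → ℝ)) : Prop where
  smoothF : ContDiff ℝ ∞ F
  smoothG : ContDiff ℝ ∞ G
  left : ∀ x, G (F x) = x
  right : ∀ x, F (G x) = x
  comm : ∀ (x : Fin d → ℝ) (k : Fin d → ℤ), F (x + zv k) = F x + zv k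

/-- The space of smooth coboundaries `ψ ∘ f - ψ` is closed in `C^∞(𝕋^d)`
(sequential closedness; the topology is metrizable). -/
def ClosedCob {d : ℕ} (F : (Fin d → ℝ) → (Fin d → ℝ)) : Prop :=
  ∀ (Ψ : ℕ → (Fin d → ℝ) → ℝ) (Φ : (Fin d → ℝ) → ℝ),
    (∀ n, ContDiff ℝ ∞ (Ψ n)) → (∀ n, Per (Ψ n)) → ContDiff ℝ ∞ Φ → Per Φ →
    (∀ j : ℕ, ∀ ε : ℝ, 0 < ε → ∃ N : ℕ, ∀ n, N ≤ n → ∀ x : Fin d → ℝ,
      ‖iteratedFDeriv ℝ j (fun y => Ψ n (F y) - Ψ n y - Φ y) x‖ < ε) →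
    ∃ Ψ₀ : (Fin d → ℝ) → ℝ, ContDiff ℝ ∞ Ψ₀ ∧ Per Ψ₀ ∧ ∀ x, Φ x = Ψ₀ (F x) - Ψ₀ x

/-- `Γ` bounds the first derivatives of the iterates `F^j`, `j ≤ q`. -/
def DerBound {d : ℕ} (F : (Fin d → ℝ) → (Fin d → ℝ)) (q : ℕ) (Γ : ℝ) : Prop :=
  1 ≤ Γ ∧ ∀ j, j ≤ q → ∀ x, ‖fderiv ℝ (F^[j]) x‖ ≤ Γ

/-- The criterion: for every `s` there are `q ≥ s` and `Γ` as above with
`‖F^q - id - p‖ (q Γ)^s ≤ 1` for some integer vector `p`. -/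
def Crit {d : ℕ} (F : (Fin d → ℝ) → (Fin d → ℝ)) : Prop :=
  ∀ s : ℕ, ∃ q : ℕ, s ≤ q ∧ 1 ≤ q ∧ ∃ Γ : ℝ, DerBound F q Γ ∧ ∃ p : Fin d → ℤ,
    ∀ x, ‖F^[q] x - x - zv p‖ * ((q : ℝ) * Γ) ^ s ≤ 1

/-- Continuous periodic functions invariant under `F` are constant. -/
def Rigid {d : ℕ} (F : (Fin d → ℝ) → (Fin d → ℝ)) : Prop :=
  ∀ ψ : (Fin d → ℝ) → ℝ, Continuous ψ → Per ψ → (∀ x, ψ (F x) = ψ x) → ∀ x, ψ x = ψ 0

/-- All derivatives of order `k` are bounded by `A ^ k`. -/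
def Bern {V : Type*} [NormedAddCommGroup V] [NormedSpace ℝ V] (A : ℝ) (f : V → ℝ) : Prop :=
  ContDiff ℝ ∞ f ∧ ∀ k x, ‖iteratedFDeriv ℝ k f x‖ ≤ A ^ k

end Pool.Agent.Lib.H14U
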