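import Pool.Agent.Lib.H14U.Defs

/-! Chunk G0a of H14U (MP_ef0847_an). -/

set_option autoImplicit false

open scoped ContDiff

namespace Pool.Agent.Lib.H14U

/-- (S) The iterates of a smooth map are smooth. Induction on `j`, `Function.iterate_succ'`. -/
theorem iter_smooth {d : ℕ} {F : (Fin d → ℝ) → (Fin d → ℝ)} (hF : ContDiff ℝ ∞ F) (j : ℕ) :
    ContDiff ℝ ∞ (F^[j]) := by
  induction j with
  | zero => exact contDiff_id
  | succ j ih =>
    rw [Function.iterate_succ']
    exact hF.comp ih

/-- (S) The iterates commute with integer translations. Induction on `j`. -/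
theorem iter_comm {d : ℕ} {F : (Fin d → ℝ) → (Fin d → ℝ)}
    (hc : ∀ (x : Fin d → ℝ) (k : Fin d → ℤ), F (x + zv k) = F x + zv k) (j : ℕ)
    (x : Fin d → ℝ) (k : Fin d → ℤ) : F^[j] (x + zv k) = F^[j] x + zv k := by
  induction j with
  | zero => rfl
  | succ j ih => rw [Function.iterate_succ_apply', Function.iterate_succ_apply', ih, hc]

/-- (S/M) A continuous periodic function with values in a normed space is bounded.
Proof: every `x` is `y + zv k` with `y` in the compact cube `Set.Icc 0 1`
(`k i = ⌊x i⌋`); the norm is bounded on the compact cube. -/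
theorem per_bounded {d : ℕ} {W : Type*} [NormedAddCommGroup W] {f : (Fin d → ℝ) → W}
    (hf : Continuous f) (hp : Per f) : ∃ C : ℝ, 0 ≤ C ∧ ∀ x, ‖f x‖ ≤ C := by
  obtain ⟨C, hC⟩ := (isCompact_Icc : IsCompact (Set.Icc (0 : Fin d → ℝ) 1)).exists_bound_of_continuousOn
    hf.continuousOn
  refine ⟨max C 0, le_max_right _ _, fun x => ?_⟩
  have h1 : x = (fun i => Int.fract (x i)) + zv (fun i => ⌊x i⌋) := by
    funext i
    simp [zv]
  rw [h1, hp]
  refine (hC _ ⟨fun i => ?_, fun i => ?_⟩).trans (le_max_left _ _)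
  · exact Int.fract_nonneg _
  · exact (Int.fract_lt_one _).le

end Pool.Agent.Lib.H14U
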