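import Pool.Agent.Lib.H14U.G0a

/-! Chunk G0b of H14U (MP_ef0847_an). -/

set_option autoImplicit false

open scoped ContDiff

namespace Pool.Agent.Lib.H14U

/-- (S/M) The derivatives of a periodic function are periodic. Proof: `f = f ∘ (· + zv k)` and
`iteratedFDeriv_comp_add_right`. -/
theorem per_iteratedFDeriv {d : ℕ} {W : Type*} [NormedAddCommGroup W] [NormedSpace ℝ W]
    {f : (Fin d → ℝ) → W} (hp : Per f) (i : ℕ) :
    Per (fun x => iteratedFDeriv ℝ i f x) := by
  intro x k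
  have h1 : (fun z => f (z + zv k)) = f := funext fun z => hp z k
  have h2 := iteratedFDeriv_comp_add_right (𝕜 := ℝ) (f := f) i (zv k) x
  rw [h1] at h2
  exact h2.symm

/-- (S/M) The derivatives of order `i ≥ 1` of a map commuting with integer translations are
periodic and bounded. Proof: `F (x + zv k) = F x + zv k`; the derivatives of order `i ≥ 1` of
`fun x => F x + zv k` and of `F` agree (`fderiv_add_const`, and `iteratedFDeriv` of order `i+1` is
determined by `fderiv`, see `iteratedFDeriv_succ_eq_comp_right`), so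
`x ↦ iteratedFDeriv ℝ i F x` is periodic; it is continuous; `per_bounded`.
(Or: `F - id` is periodic and `id` has bounded derivatives.) -/
theorem deriv_bounded {d : ℕ} {F : (Fin d → ℝ) → (Fin d → ℝ)} (hF : ContDiff ℝ ∞ F)
    (hc : ∀ (x : Fin d → ℝ) (k : Fin d → ℤ), F (x + zv k) = F x + zv k) (i : ℕ) (hi : 1 ≤ i) :
    ∃ C : ℝ, 0 ≤ C ∧ ∀ x, ‖iteratedFDeriv ℝ i F x‖ ≤ C := by
  obtain ⟨j, rfl⟩ : ∃ j, i = j + 1 := ⟨i - 1, by omega⟩
  have hper : Per (fderiv ℝ F) := by
    intro x k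
    have h1 : (fun z => F (z + zv k)) = fun z => F z + zv k := funext fun z => hc z k
    have h2 := fderiv_comp_add_right (𝕜 := ℝ) (f := F) (x := x) (zv k)
    rw [h1, fderiv_add_const] at h2
    exact h2.symm
  have hs : ContDiff ℝ ∞ (fderiv ℝ F) := hF.fderiv_right (by simp)
  obtain ⟨C, hC0, hC⟩ := per_bounded (hs.continuous_iteratedFDeriv (m := j) (by exact_mod_cast le_top))
    (per_iteratedFDeriv hper j)
  refine ⟨C, hC0, fun x => ?_⟩
  rw [← norm_iteratedFDeriv_fderiv]
  exact hC x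

/-- (S) One bound for the orders `1, ..., n`. From `deriv_bounded` (sum of the bounds). -/
theorem deriv_bounded' {d : ℕ} {F : (Fin d → ℝ) → (Fin d → ℝ)} (hF : ContDiff ℝ ∞ F)
    (hc : ∀ (x : Fin d → ℝ) (k : Fin d → ℤ), F (x + zv k) = F x + zv k) (n : ℕ) :
    ∃ C : ℝ, 0 ≤ C ∧ ∀ i, 1 ≤ i → i ≤ n → ∀ x, ‖iteratedFDeriv ℝ i F x‖ ≤ C := by
  induction n with
  | zero => exact ⟨0, le_rfl, fun i h1 h2 => by omega⟩
  | succ n ih =>
    obtain ⟨C, hC0, hC⟩ := ih
    obtain ⟨C', hC0', hC'⟩ := deriv_bounded hF hc (n + 1) (by omega)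
    refine ⟨max C C', hC0.trans (le_max_left _ _), fun i h1 h2 x => ?_⟩
    rcases Nat.lt_or_ge i (n + 1) with h | h
    · exact (hC i h1 (by omega) x).trans (le_max_left _ _)
    · obtain rfl : i = n + 1 := by omega
      exact (hC' x).trans (le_max_right _ _)

end Pool.Agent.Lib.H14U
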