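import Pool.Agent.Lib.H14U.Defs

/-! Chunk G1 of H14U (MP_ef0847_an). -/

set_option autoImplicit false

open scoped ContDiff

namespace Pool.Agent.Lib.H14U

/-- (M) Let `A = DF(g x₀)`. The derivative of order `n + 1` at `x₀` of `F ∘ g - A ∘ g` only
contains derivatives of `g` of order `≤ n`.

Proof. Put `H x = F (g x) - A (g x)`. Then `fderiv ℝ H x = (a x).comp (fderiv ℝ g x)` with
`a x = fderiv ℝ F (g x) - A`, `a x₀ = 0`.
`‖iteratedFDeriv ℝ (n+1) H x₀‖ = ‖iteratedFDeriv ℝ n (fderiv ℝ H) x₀‖` (`norm_iteratedFDeriv_fderiv`)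
`≤ ∑ i ∈ range (n+1), n.choose i * ‖iteratedFDeriv ℝ i a x₀‖ * ‖iteratedFDeriv ℝ (n-i) (fderiv ℝ g) x₀‖`
(`ContinuousLinearMap.norm_iteratedFDeriv_le_of_bilinear_of_le_one` for
`ContinuousLinearMap.compL`, norm `≤ 1`, or `ContinuousLinearMap.norm_iteratedFDeriv_clm_comp`-like
lemma if there is one). The term `i = 0` is zero because `a x₀ = 0`. For `1 ≤ i ≤ n`:
`iteratedFDeriv ℝ i a x₀ = iteratedFDeriv ℝ i (fderiv ℝ F ∘ g) x₀` (constants have no derivatives),
norm `≤ i! * C * B ^ i` by `norm_iteratedFDeriv_comp_le` (`‖iteratedFDeriv ℝ j g x₀‖ ≤ B ≤ B ^ j`,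
`‖iteratedFDeriv ℝ j (fderiv ℝ F) y‖ = ‖iteratedFDeriv ℝ (j+1) F y‖ ≤ C`), and
`‖iteratedFDeriv ℝ (n-i) (fderiv ℝ g) x₀‖ = ‖iteratedFDeriv ℝ (n-i+1) g x₀‖ ≤ B`.
So every term is `≤ n.choose i * n! * C * B ^ (n+1)`, and `∑ n.choose i = 2 ^ n`. -/
theorem comp_main {V : Type*} [NormedAddCommGroup V] [NormedSpace ℝ V]
    {F g : V → V} (hF : ContDiff ℝ ∞ F) (hg : ContDiff ℝ ∞ g) (x₀ : V) (n : ℕ)
    (B C : ℝ) (hB : 1 ≤ B) (hC : 0 ≤ C)
    (hgB : ∀ i, 1 ≤ i → i ≤ n → ‖iteratedFDeriv ℝ i g x₀‖ ≤ B)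
    (hFC : ∀ i, 1 ≤ i → i ≤ n + 1 → ∀ y, ‖iteratedFDeriv ℝ i F y‖ ≤ C) :
    ‖iteratedFDeriv ℝ (n + 1) (fun x => F (g x) - (fderiv ℝ F (g x₀)) (g x)) x₀‖
      ≤ 2 ^ n * n.factorial * C * B ^ (n + 1) := by
  have hle : ∀ m : ℕ, ((m : ℕ∞ω) : ℕ∞ω) ≤ ∞ := fun m => by
    exact_mod_cast le_top
  have hFd : Differentiable ℝ F := hF.differentiable (by simp)
  have hgd : Differentiable ℝ g := hg.differentiable (by simp)
  have hF1 : ContDiff ℝ ∞ (fderiv ℝ F) := hF.fderiv_right (by simp)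
  have hg1 : ContDiff ℝ ∞ (fderiv ℝ g) := hg.fderiv_right (by simp)
  set A : V →L[ℝ] V := fderiv ℝ F (g x₀) with hA
  set a : V → (V →L[ℝ] V) := fun x => fderiv ℝ F (g x) - A with ha
  have ha1 : ContDiff ℝ ∞ a := (hF1.comp hg).sub contDiff_const
  have ha0 : a x₀ = 0 := by simp only [ha, hA, sub_self]
  have hH : fderiv ℝ (fun x => F (g x) - A (g x)) = fun x =>
      ContinuousLinearMap.compL ℝ V V V (a x) (fderiv ℝ g x) := by
    funext x
    have e1 : HasFDerivAt (fun x => F (g x)) ((fderiv ℝ F (g x)).comp (fderiv ℝ g x)) x :=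
      (hFd (g x)).hasFDerivAt.comp x (hgd x).hasFDerivAt
    have e2 : HasFDerivAt (fun x => A (g x)) (A.comp (fderiv ℝ g x)) x :=
      A.hasFDerivAt.comp x (hgd x).hasFDerivAt
    have e3 : fderiv ℝ (fun x => F (g x) - A (g x)) x
        = (fderiv ℝ F (g x)).comp (fderiv ℝ g x) - A.comp (fderiv ℝ g x) := (e1.sub e2).fderiv
    rw [e3]
    simp only [ha, ContinuousLinearMap.compL_apply, ContinuousLinearMap.sub_comp]
  rw [← norm_iteratedFDeriv_fderiv, hH]
  refine (ContinuousLinearMap.norm_iteratedFDeriv_le_of_bilinear_of_le_one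
    (ContinuousLinearMap.compL ℝ V V V) ha1 hg1 x₀ (hle n)
    (ContinuousLinearMap.norm_compL_le ℝ V V V)).trans ?_
  have hterm : ∀ i ∈ Finset.range (n + 1),
      (n.choose i : ℝ) * ‖iteratedFDeriv ℝ i a x₀‖ * ‖iteratedFDeriv ℝ (n - i) (fderiv ℝ g) x₀‖
        ≤ (n.choose i : ℝ) * (n.factorial * C * B ^ (n + 1)) := by
    intro i hi
    have hin : i ≤ n := by
      have := Finset.mem_range.1 hi
      omega
    have hR : 0 ≤ (n.choose i : ℝ) * (n.factorial * C * B ^ (n + 1)) := by positivity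
    rcases Nat.eq_zero_or_pos i with h0 | h0
    · subst h0
      have : ‖iteratedFDeriv ℝ 0 a x₀‖ = 0 := by
        rw [norm_iteratedFDeriv_zero, ha0, norm_zero]
      rw [this, mul_zero, zero_mul]
      exact hR
    · have e1 : iteratedFDeriv ℝ i a x₀ = iteratedFDeriv ℝ i ((fderiv ℝ F) ∘ g) x₀ := by
        obtain ⟨k, rfl⟩ : ∃ k, i = k + 1 := ⟨i - 1, by omega⟩
        have hfd : fderiv ℝ a = fderiv ℝ ((fderiv ℝ F) ∘ g) := by
          funext x
          simp only [ha]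
          exact fderiv_sub_const _
        ext m
        rw [iteratedFDeriv_succ_apply_right, iteratedFDeriv_succ_apply_right, hfd]
      have e2 : ‖iteratedFDeriv ℝ i a x₀‖ ≤ i.factorial * C * B ^ i := by
        rw [e1]
        refine norm_iteratedFDeriv_comp_le hF1 hg (hle i) x₀ (fun j hj => ?_) (fun j hj1 hj2 => ?_)
        · rw [norm_iteratedFDeriv_fderiv]
          exact hFC (j + 1) (by omega) (by omega) _
        · refine (hgB j hj1 (hj2.trans hin)).trans ?_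
          calc B = B ^ 1 := (pow_one B).symm
            _ ≤ B ^ j := pow_le_pow_right₀ hB hj1
      have e3 : ‖iteratedFDeriv ℝ (n - i) (fderiv ℝ g) x₀‖ ≤ B := by
        rw [norm_iteratedFDeriv_fderiv]
        exact hgB _ (by omega) (by omega)
      have e4 : (i.factorial : ℝ) ≤ n.factorial := by
        exact_mod_cast Nat.factorial_le hin
      have hB0 : 0 ≤ B := by linarith
      calc (n.choose i : ℝ) * ‖iteratedFDeriv ℝ i a x₀‖
            * ‖iteratedFDeriv ℝ (n - i) (fderiv ℝ g) x₀‖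
          ≤ (n.choose i : ℝ) * (i.factorial * C * B ^ i) * B := by gcongr
        _ = (n.choose i : ℝ) * (i.factorial * C * B ^ (i + 1)) := by ring
        _ ≤ (n.choose i : ℝ) * (n.factorial * C * B ^ (n + 1)) := by
          have e5 : B ^ (i + 1) ≤ B ^ (n + 1) := pow_le_pow_right₀ hB (by omega)
          gcongr
  refine (Finset.sum_le_sum hterm).trans (le_of_eq ?_)
  rw [← Finset.sum_mul]
  have hch : (∑ i ∈ Finset.range (n + 1), (n.choose i : ℝ)) = 2 ^ n := by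
    exact_mod_cast Nat.sum_range_choose n
  rw [hch]
  ring

end Pool.Agent.Lib.H14U
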