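import Pool.Agent.Lib.H14U.G0b
import Pool.Agent.Lib.H14U.G1

/-! Chunk G3a of H14U (MP_ef0847_an). -/

set_option autoImplicit false

open scoped ContDiff

namespace Pool.Agent.Lib.H14U

/-- (M) Growth in one order. If the derivatives of order `1..n` (`n ≥ 1`) of all iterates `F^j`,
`j ≤ q`, are bounded by `B`, then those of order `n + 1` are bounded by
`q Γ 2^n n! C B^(n+1)`.

Proof. Fix `x`, write `V j = iteratedFDeriv ℝ (n+1) (F^[j]) x`. Let
`R j = iteratedFDeriv ℝ (n+1) (fun y => F (F^[j] y) - A_j (F^[j] y)) x`, `A_j = fderiv ℝ F (F^[j] x)`,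
for `j < q`: `‖R j‖ ≤ r := 2^n n! C B^(n+1)` by `comp_main` (G1) and
`V (j+1) = A_j.compContinuousMultilinearMap (V j) + R j`
(`Function.iterate_succ'`, `ContinuousLinearMap.iteratedFDeriv_comp_left`, `iteratedFDeriv_add`).
CLAIM by induction on `m ≤ q`:
`V m = ∑ j ∈ range m, (fderiv ℝ (F^[m-1-j]) (F^[j+1] x)).compContinuousMultilinearMap (R j)`
(`V 0 = iteratedFDeriv ℝ (n+1) id x = 0` because `n + 1 ≥ 2`; in the step use the chain rule
`A_m.comp (fderiv ℝ (F^[m-1-j]) (F^[j+1] x)) = fderiv ℝ (F^[m-j]) (F^[j+1] x)`).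
Each summand has norm `≤ Γ r` (`ContinuousLinearMap.norm_compContinuousMultilinearMap_le`,
`m - 1 - j ≤ q`). Instead of the sum one may also prove the claim in the form: for all `m ≤ q`,
and all `T` of the form `fderiv ℝ (F^[l]) (F^[m] x)` with `m + l ≤ q`,
`‖T.compContinuousMultilinearMap (V m)‖ ≤ m Γ r` (induction on `m`, for all `l` at once), and put
`l = 0`, `T = id`. -/
theorem growth_step {d : ℕ} {F : (Fin d → ℝ) → (Fin d → ℝ)} (hF : ContDiff ℝ ∞ F)
    (n : ℕ) (hn : 1 ≤ n) (q : ℕ) (Γ B C : ℝ) (hΓ : DerBound F q Γ) (hB : 1 ≤ B) (hC : 0 ≤ C)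
    (hFC : ∀ i, 1 ≤ i → i ≤ n + 1 → ∀ y, ‖iteratedFDeriv ℝ i F y‖ ≤ C)
    (hlow : ∀ j, j ≤ q → ∀ i, 1 ≤ i → i ≤ n → ∀ x, ‖iteratedFDeriv ℝ i (F^[j]) x‖ ≤ B) :
    ∀ j, j ≤ q → ∀ x, ‖iteratedFDeriv ℝ (n + 1) (F^[j]) x‖
      ≤ q * Γ * (2 ^ n * n.factorial * C * B ^ (n + 1)) := by
  obtain ⟨r, hr⟩ : ∃ r : ℝ, r = 2 ^ n * n.factorial * C * B ^ (n + 1) := ⟨_, rfl⟩
  have hr0 : 0 ≤ r := by
    rw [hr]
    have : (0 : ℝ) ≤ B := zero_le_one.trans hB
    positivity
  have hΓ0 : 0 ≤ Γ := zero_le_one.trans hΓ.1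
  have hsm : ∀ j : ℕ, ContDiff ℝ ∞ (F^[j]) := iter_smooth hF
  have key : ∀ x, ∀ m : ℕ, ∀ l : ℕ, m + l ≤ q →
      ‖(fderiv ℝ (F^[l]) (F^[m] x)).compContinuousMultilinearMap
        (iteratedFDeriv ℝ (n + 1) (F^[m]) x)‖ ≤ m * Γ * r := by
    intro x m
    induction m with
    | zero =>
      intro l _
      have h1 : iteratedFDeriv ℝ (n + 1) (F^[0]) x = 0 := by
        rw [Function.iterate_zero]
        have h2 : ‖iteratedFDeriv ℝ (n + 1) (id : (Fin d → ℝ) → (Fin d → ℝ)) x‖ = 0 := by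
          rw [← norm_iteratedFDeriv_fderiv]
          have h3 : fderiv ℝ (id : (Fin d → ℝ) → (Fin d → ℝ)) =
              fun _ => ContinuousLinearMap.id ℝ (Fin d → ℝ) := by
            funext y
            exact fderiv_id
          rw [h3, iteratedFDeriv_const_of_ne (by omega)]
          simp
        exact norm_eq_zero.1 h2
      rw [h1]
      have h4 : (fderiv ℝ (F^[l]) (F^[0] x)).compContinuousMultilinearMap
          (0 : ContinuousMultilinearMap ℝ (fun _ : Fin (n + 1) => Fin d → ℝ) (Fin d → ℝ)) = 0 := by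
        ext v
        simp
      rw [h4]
      simp
    | succ m ih =>
      intro l hl
      have h1 : F^[m + 1] = (fun y => (F (F^[m] y) - (fderiv ℝ F (F^[m] x)) (F^[m] y)) +
          (fderiv ℝ F (F^[m] x) ∘ F^[m]) y) := by
        funext y
        rw [Function.iterate_succ_apply']
        simp
      have hA : ContDiff ℝ ∞ (fderiv ℝ F (F^[m] x) ∘ F^[m]) :=
        (fderiv ℝ F (F^[m] x)).contDiff.comp (hsm m)
      have hR : ContDiff ℝ ∞ (fun y => F (F^[m] y) - (fderiv ℝ F (F^[m] x)) (F^[m] y)) :=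
        (hF.comp (hsm m)).sub hA
      have h2 : iteratedFDeriv ℝ (n + 1) (F^[m + 1]) x =
          iteratedFDeriv ℝ (n + 1)
            (fun y => F (F^[m] y) - (fderiv ℝ F (F^[m] x)) (F^[m] y)) x +
          (fderiv ℝ F (F^[m] x)).compContinuousMultilinearMap
            (iteratedFDeriv ℝ (n + 1) (F^[m]) x) := by
        have h3 : iteratedFDeriv ℝ (n + 1) (F^[m + 1]) x =
            iteratedFDeriv ℝ (n + 1)
              ((fun y => F (F^[m] y) - (fderiv ℝ F (F^[m] x)) (F^[m] y)) +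
                (fderiv ℝ F (F^[m] x) ∘ F^[m])) x := by
          rw [h1]
          rfl
        rw [h3, iteratedFDeriv_add_apply (hR.of_le (by exact_mod_cast le_top)).contDiffAt
          (hA.of_le (by exact_mod_cast le_top)).contDiffAt]
        rw [ContinuousLinearMap.iteratedFDeriv_comp_left (fderiv ℝ F (F^[m] x))
          (n := ((n + 1 : ℕ) : WithTop ℕ∞))
          ((hsm m).of_le (by exact_mod_cast le_top)).contDiffAt le_rfl]
      have h4 : (fderiv ℝ (F^[l]) (F^[m + 1] x)).comp (fderiv ℝ F (F^[m] x)) =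
          fderiv ℝ (F^[l + 1]) (F^[m] x) := by
        rw [Function.iterate_succ_apply' F m x, Function.iterate_succ F l]
        exact (fderiv_comp (F^[m] x)
          (((hsm l).differentiable (by simp)).differentiableAt)
          ((hF.differentiable (by simp)).differentiableAt)).symm
      have h5 : (fderiv ℝ (F^[l]) (F^[m + 1] x)).compContinuousMultilinearMap
          (iteratedFDeriv ℝ (n + 1) (F^[m + 1]) x) =
          (fderiv ℝ (F^[l]) (F^[m + 1] x)).compContinuousMultilinearMap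
            (iteratedFDeriv ℝ (n + 1)
              (fun y => F (F^[m] y) - (fderiv ℝ F (F^[m] x)) (F^[m] y)) x) +
          (fderiv ℝ (F^[l + 1]) (F^[m] x)).compContinuousMultilinearMap
            (iteratedFDeriv ℝ (n + 1) (F^[m]) x) := by
        rw [h2, ← h4]
        ext v
        simp
      rw [h5]
      have h6 := comp_main hF (hsm m) x n B C hB hC
        (fun i h1 h2 => hlow m (by omega) i h1 h2 x) hFC
      have h7 := ContinuousLinearMap.norm_compContinuousMultilinearMap_le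
        (fderiv ℝ (F^[l]) (F^[m + 1] x))
        (iteratedFDeriv ℝ (n + 1)
              (fun y => F (F^[m] y) - (fderiv ℝ F (F^[m] x)) (F^[m] y)) x)
      have h8 : ‖fderiv ℝ (F^[l]) (F^[m + 1] x)‖ ≤ Γ := hΓ.2 l (by omega) _
      have h9 := ih (l + 1) (by omega)
      rw [← hr] at h6
      have h10 : ‖fderiv ℝ (F^[l]) (F^[m + 1] x)‖ * ‖iteratedFDeriv ℝ (n + 1)
              (fun y => F (F^[m] y) - (fderiv ℝ F (F^[m] x)) (F^[m] y)) x‖ ≤ Γ * r :=
        mul_le_mul h8 h6 (norm_nonneg _) hΓ0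
      refine (norm_add_le _ _).trans ?_
      push_cast
      linarith
  intro j hj x
  have h1 := key x j 0 (by omega)
  have h2 : (fderiv ℝ (F^[0]) (F^[j] x)).compContinuousMultilinearMap
      (iteratedFDeriv ℝ (n + 1) (F^[j]) x) = iteratedFDeriv ℝ (n + 1) (F^[j]) x := by
    rw [Function.iterate_zero, fderiv_id]
    ext v
    simp
  rw [h2] at h1
  rw [← hr]
  refine h1.trans ?_
  refine mul_le_mul_of_nonneg_right (mul_le_mul_of_nonneg_right ?_ hΓ0) hr0
  exact_mod_cast hj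

end Pool.Agent.Lib.H14U
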