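import Pool.Agent.Lib.H14U.G3a

/-! Chunk G3b of H14U (MP_ef0847_an). -/

set_option autoImplicit false

open scoped ContDiff

namespace Pool.Agent.Lib.H14U

/-- (S/M) Polynomial growth of all derivatives: for each `n` there are `C ≥ 1` and `K`,
depending only on `F`, with `‖D^i F^j‖ ≤ C (q Γ)^K` for `1 ≤ i ≤ n`, `j ≤ q`.
Proof. Induction on `n`. `n = 0`: nothing to prove (vacuous), `n = 1`: `‖D F^j‖ ≤ Γ ≤ q Γ`
(`q ≥ 1`; `norm_iteratedFDeriv_one`). Step `n → n + 1`, `n ≥ 1`: `growth_step` with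
`B = C (q Γ)^K` (`≥ 1` since `C ≥ 1`, `q Γ ≥ 1`) and the constant of `deriv_bounded'`. -/
theorem growth {d : ℕ} {F : (Fin d → ℝ) → (Fin d → ℝ)} (hF : ContDiff ℝ ∞ F)
    (hc : ∀ (x : Fin d → ℝ) (k : Fin d → ℤ), F (x + zv k) = F x + zv k) (n : ℕ) :
    ∃ C : ℝ, 1 ≤ C ∧ ∃ K : ℕ, ∀ q : ℕ, 1 ≤ q → ∀ Γ : ℝ, DerBound F q Γ →
      ∀ j, j ≤ q → ∀ i, 1 ≤ i → i ≤ n → ∀ x,
        ‖iteratedFDeriv ℝ i (F^[j]) x‖ ≤ C * ((q : ℝ) * Γ) ^ K := by
  induction n with
  | zero =>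
    exact ⟨1, le_rfl, 0, fun q _ Γ _ j _ i h1 h2 => by omega⟩
  | succ n ih =>
    rcases Nat.eq_zero_or_pos n with hn | hn
    · subst hn
      refine ⟨1, le_rfl, 1, fun q hq Γ hΓ j hj i h1 h2 x => ?_⟩
      obtain rfl : i = 1 := by omega
      rw [norm_iteratedFDeriv_one, one_mul, pow_one]
      have h3 := hΓ.2 j hj x
      have h4 : (1 : ℝ) ≤ q := by exact_mod_cast hq
      have h5 := hΓ.1
      nlinarith
    · obtain ⟨C, hC1, K, hK⟩ := ih
      obtain ⟨C', hC0', hC'⟩ := deriv_bounded' hF hc (n + 1)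
      refine ⟨max C (2 ^ n * n.factorial * C' * C ^ (n + 1)), hC1.trans (le_max_left _ _),
        K * (n + 1) + 1, fun q hq Γ hΓ j hj i h1 h2 x => ?_⟩
      have h4 : (1 : ℝ) ≤ q := by exact_mod_cast hq
      have h5 := hΓ.1
      have hqΓ : 1 ≤ (q : ℝ) * Γ := by nlinarith
      rcases Nat.lt_or_ge i (n + 1) with h | h
      · refine (hK q hq Γ hΓ j hj i h1 (by omega) x).trans ?_
        refine mul_le_mul (le_max_left _ _) (pow_le_pow_right₀ hqΓ ?_) (by positivity)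
          (by positivity)
        nlinarith
      · obtain rfl : i = n + 1 := by omega
        have hB : 1 ≤ C * ((q : ℝ) * Γ) ^ K := by
          have h6 := one_le_pow₀ hqΓ (n := K)
          nlinarith
        have h7 := growth_step hF n hn q Γ (C * ((q : ℝ) * Γ) ^ K) C' hΓ hB hC0' hC'
          (fun j hj i h1 h2 x => hK q hq Γ hΓ j hj i h1 h2 x) j hj x
        refine h7.trans ?_
        have h8 : (q : ℝ) * Γ * (2 ^ n * n.factorial * C' * (C * ((q : ℝ) * Γ) ^ K) ^ (n + 1))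
            = (2 ^ n * n.factorial * C' * C ^ (n + 1)) * ((q : ℝ) * Γ) ^ (K * (n + 1) + 1) := by
          rw [mul_pow, ← pow_mul, pow_succ ((q : ℝ) * Γ) (K * (n + 1))]
          ring
        rw [h8]
        exact mul_le_mul_of_nonneg_right (le_max_right _ _) (by positivity)

end Pool.Agent.Lib.H14U
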