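import Pool.Agent.Lib.H14U.Defs

/-! Chunk L1a of H14U (MP_ef0847_an). -/

set_option autoImplicit false

open scoped ContDiff

namespace Pool.Agent.Lib.H14U

/-- (M) Landau inequality. If `g` is smooth, `‖g‖ ≤ a` and `‖D²g‖ ≤ b` everywhere, then
`‖Dg‖ ≤ 2 √(a b)`, here in the form: for every `t > 0`, `‖Dg(x)‖ ≤ 2 a / t + b t`.
Proof. For a vector `v` with `‖v‖ ≤ 1` (or `= 1`): `g(x + t v) - g(x) - t Dg(x) v` has norm
`≤ b t² ‖v‖²` (mean value inequality applied to `y ↦ g y - Dg(x) y` on the segment, whose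
derivative `Dg(y) - Dg(x)` has norm `≤ b ‖y - x‖ ≤ b t`: `Convex.norm_image_sub_le_of_norm_hasFDerivWithin_le`
or `Convex.norm_image_sub_le_of_norm_fderiv_le`), so
`t ‖Dg(x) v‖ ≤ 2 a + b t²`. Then `ContinuousLinearMap.opNorm_le_of_...` (scaling of `v`;
`ContinuousLinearMap.opNorm_le_of_unit_norm` or apply the estimate to `(1/‖v‖) v`). -/
theorem landau {V W : Type*} [NormedAddCommGroup V] [NormedSpace ℝ V]
    [NormedAddCommGroup W] [NormedSpace ℝ W] {g : V → W} (hg : ContDiff ℝ ∞ g)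
    (a b : ℝ) (ha : ∀ x, ‖g x‖ ≤ a) (hb : ∀ x, ‖fderiv ℝ (fderiv ℝ g) x‖ ≤ b)
    (t : ℝ) (ht : 0 < t) (x : V) : ‖fderiv ℝ g x‖ ≤ 2 * a / t + b * t := by
  have ha0 : 0 ≤ a := (norm_nonneg _).trans (ha x)
  have hb0 : 0 ≤ b := le_trans (norm_nonneg (fderiv ℝ (fderiv ℝ g) x)) (hb x)
  have hC : 0 ≤ 2 * a / t + b * t := by positivity
  have hgd : Differentiable ℝ g := hg.differentiable (by simp)
  have hg1 : ContDiff ℝ ∞ (fderiv ℝ g) := hg.fderiv_right (by simp)
  have hgd1 : Differentiable ℝ (fderiv ℝ g) := hg1.differentiable (by simp)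
  have hlip : ∀ y, ‖fderiv ℝ g y - fderiv ℝ g x‖ ≤ b * ‖y - x‖ := fun y =>
    Convex.norm_image_sub_le_of_norm_fderiv_le (fun z _ => hgd1 z) (fun z _ => hb z)
      convex_univ (Set.mem_univ x) (Set.mem_univ y)
  refine ContinuousLinearMap.opNorm_le_of_unit_norm hC fun v hv => ?_
  have hhd : ∀ y, HasFDerivAt (fun z => g z - (fderiv ℝ g x) z) (fderiv ℝ g y - fderiv ℝ g x) y :=
    fun y => (hgd y).hasFDerivAt.sub (fderiv ℝ g x).hasFDerivAt
  have htv : ‖t • v‖ = t := by rw [norm_smul, hv, mul_one, Real.norm_of_nonneg ht.le]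
  have h1 : ‖(g (x + t • v) - (fderiv ℝ g x) (x + t • v)) - (g x - (fderiv ℝ g x) x)‖
      ≤ (b * t) * ‖(x + t • v) - x‖ :=
    Convex.norm_image_sub_le_of_norm_hasFDerivWithin_le
      (s := Metric.closedBall x t) (fun y _ => (hhd y).hasFDerivWithinAt)
      (fun y hy => (hlip y).trans (by
        have : ‖y - x‖ ≤ t := by rwa [Metric.mem_closedBall, dist_eq_norm] at hy
        gcongr))
      (convex_closedBall x t) (Metric.mem_closedBall_self ht.le)
      (by rw [Metric.mem_closedBall, dist_eq_norm, add_sub_cancel_left, htv])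
  rw [add_sub_cancel_left, htv] at h1
  have h2 : (g (x + t • v) - (fderiv ℝ g x) (x + t • v)) - (g x - (fderiv ℝ g x) x)
      = (g (x + t • v) - g x) - t • (fderiv ℝ g x) v := by
    rw [map_add, map_smul]
    abel
  rw [h2] at h1
  have h3 : ‖t • (fderiv ℝ g x) v‖ ≤ b * t * t + 2 * a := by
    have e1 : t • (fderiv ℝ g x) v
        = (g (x + t • v) - g x) - ((g (x + t • v) - g x) - t • (fderiv ℝ g x) v) := by abel
    rw [e1]
    refine (norm_sub_le _ _).trans ?_
    have e2 := norm_sub_le (g (x + t • v)) (g x)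
    have e3 := ha (x + t • v)
    have e4 := ha x
    linarith
  rw [norm_smul, Real.norm_of_nonneg ht.le] at h3
  have h4 : ‖(fderiv ℝ g x) v‖ ≤ (b * t * t + 2 * a) / t := by
    rw [le_div_iff₀ ht]
    linarith
  refine h4.trans (le_of_eq ?_)
  field_simp
  ring

end Pool.Agent.Lib.H14U
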