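import Pool.Agent.Lib.H14U.L1a

/-! Chunk L1b of H14U (MP_ef0847_an). -/

set_option autoImplicit false

open scoped ContDiff

namespace Pool.Agent.Lib.H14U

set_option maxSynthPendingDepth 4 in
theorem l1b_aux {V W : Type*} [NormedAddCommGroup V] [NormedSpace ℝ V]
    [NormedAddCommGroup W] [NormedSpace ℝ W] {f : V → W} (i : ℕ) (y : V) :
    ‖fderiv ℝ (fderiv ℝ (iteratedFDeriv ℝ i f)) y‖ = ‖iteratedFDeriv ℝ (i + 2) f y‖ := by
  rw [fderiv_iteratedFDeriv, LinearIsometryEquiv.comp_fderiv]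
  have h3 := LinearIsometry.norm_toContinuousLinearMap_comp
    (continuousMultilinearCurryLeftEquiv ℝ (fun _ : Fin (i + 1) => V) W).toLinearIsometry
    (g := fderiv ℝ (iteratedFDeriv ℝ (i + 1) f) y)
  refine Eq.trans h3 ?_
  rw [norm_fderiv_iteratedFDeriv]

/-- (M) The Landau inequality for consecutive derivatives: apply `landau` to
`g = iteratedFDeriv ℝ i f`: `‖fderiv ℝ g x‖ = ‖iteratedFDeriv ℝ (i+1) f x‖`
(`norm_fderiv_iteratedFDeriv`) and `fderiv ℝ g = e ∘ iteratedFDeriv ℝ (i+1) f` with the linear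
isometry `e` (`iteratedFDeriv_succ_eq_comp_left` and its inverse), so
`‖fderiv ℝ (fderiv ℝ g) x‖ = ‖fderiv ℝ (iteratedFDeriv ℝ (i+1) f) x‖ = ‖iteratedFDeriv ℝ (i+2) f x‖`
(`LinearIsometryEquiv.comp_fderiv`, `LinearIsometryEquiv.norm_map` or
`LinearIsometryEquiv.norm_iteratedFDeriv_comp_left`). -/
theorem landau_iter {V W : Type*} [NormedAddCommGroup V] [NormedSpace ℝ V]
    [NormedAddCommGroup W] [NormedSpace ℝ W] {f : V → W} (hf : ContDiff ℝ ∞ f) (i : ℕ)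
    (a b : ℝ) (ha : ∀ x, ‖iteratedFDeriv ℝ i f x‖ ≤ a)
    (hb : ∀ x, ‖iteratedFDeriv ℝ (i + 2) f x‖ ≤ b)
    (t : ℝ) (ht : 0 < t) (x : V) :
    ‖iteratedFDeriv ℝ (i + 1) f x‖ ≤ 2 * a / t + b * t := by
  have hg : ContDiff ℝ ∞ (iteratedFDeriv ℝ i f) := hf.iteratedFDeriv_right (le_refl _)
  have h4 := landau hg a b ha (fun y => (l1b_aux i y).trans_le (hb y)) t ht x
  rwa [norm_fderiv_iteratedFDeriv] at h4

end Pool.Agent.Lib.H14U
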