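import Pool.Agent.Lib.H14U.T1b

/-! Chunk T1c of H14U (MP_ef0847_an). -/

set_option autoImplicit false

open scoped ContDiff

namespace Pool.Agent.Lib.H14U

/-- (S) Rigidity of maps conjugate to an irrational translation. Proof: `descend` gives `g` with
`ψ = g ∘ pr`; `g ∘ h.symm` is continuous and invariant under `+ pr α`: for `y = h (pr x)`,
`h.symm (y + pr α) = pr (F x)`. `invariant_const`. -/
theorem rigid_of_conj {d : ℕ} (α : Fin d → ℝ)
    (hα : ∀ k : Fin d → ℤ, k ≠ 0 → ∀ m : ℤ, ∑ i, (k i : ℝ) * α i ≠ (m : ℝ))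
    (F : (Fin d → ℝ) → (Fin d → ℝ))
    (h : (Fin d → AddCircle (1 : ℝ)) ≃ₜ (Fin d → AddCircle (1 : ℝ)))
    (hconj : ∀ x : Fin d → ℝ, h (pr (F x)) = h (pr x) + pr α) : Rigid F := by
  intro ψ hc hp hi x
  obtain ⟨g, hg, hgψ⟩ := descend hc hp
  have hinv : ∀ y, g (h.symm (y + pr α)) = g (h.symm y) := by
    intro y
    obtain ⟨x, hx⟩ := pr_basic.2.1 (h.symm y)
    have h1 : y = h (pr x) := by rw [hx, Homeomorph.apply_symm_apply]
    have h2 : h.symm (y + pr α) = pr (F x) := by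
      rw [h1, ← hconj, Homeomorph.symm_apply_apply]
    rw [h2, ← hgψ, hi, hgψ, hx]
  have h3 := invariant_const α hα (fun y => g (h.symm y)) (hg.comp h.symm.continuous) hinv
    (h (pr x)) (h (pr 0))
  simp only [Homeomorph.symm_apply_apply] at h3
  rw [hgψ, hgψ, h3]

end Pool.Agent.Lib.H14U
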