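import Pool.Agent.Lib.H14U.Defs

/-! Chunk T2b of H14U (MP_ef0847_an). -/

set_option autoImplicit false

open scoped ContDiff

namespace Pool.Agent.Lib.H14U

/-- No half-integer is within `ρ < 1/2` of an integer. -/
theorem half_integer_far {a m : ℤ} {ρ : ℝ} (hρ : ρ < 1 / 2)
    (h : |(a : ℝ) + 1 / 2 - m| ≤ ρ) : False := by
  have h1 := abs_le.mp h
  have h2 : ((a - m : ℤ) : ℝ) < 0 := by push_cast; linarith [h1.2]
  have h3 : (-1 : ℝ) < ((a - m : ℤ) : ℝ) := by push_cast; linarith [h1.1]
  have h4 : (a - m : ℤ) < 0 := by exact_mod_cast h2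
  have h5 : (-1 : ℤ) < a - m := by exact_mod_cast h3
  omega

/-- (S/M) Connectedness. If a continuous map `u` on a preconnected set `s` is everywhere within
`ρ < 1/2` of some integer vector, then the integer vector is the same on all of `s`.
Proof: let `x₀, x ∈ s` (if `s` is empty there is nothing to prove), `k₀` the vector at `x₀`.
For every `i` the function `round (u · i)` is continuous (locally constant) on `s`, since
`|u y i - k i| ≤ ρ < 1/2` means `round (u y i) = k i`, and near `y` the value changes by less than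
`1/2 - ρ`...; alternatively: the set of `y ∈ s` with `|u y i - k₀ i| ≤ ρ` equals the set with
`|u y i - k₀ i| < 1 - ρ`, it is relatively clopen: `IsPreconnected.constant` /
`IsPreconnected.subset_of_closure_inter_subset` or use the intermediate value theorem: if
`|u y i - k₀ i| > ρ` then it is `≥ 1 - ρ` and some value `1/2` in between is attained. -/
theorem const_integer {d : ℕ} {X : Type*} [TopologicalSpace X] {s : Set X}
    (hs : IsPreconnected s) {u : X → Fin d → ℝ} (hu : ContinuousOn u s) {ρ : ℝ} (hρ : ρ < 1 / 2)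
    (h : ∀ y ∈ s, ∃ k : Fin d → ℤ, ‖u y - zv k‖ ≤ ρ) (x₀ : X) (hx₀ : x₀ ∈ s) (k₀ : Fin d → ℤ)
    (hk₀ : ‖u x₀ - zv k₀‖ ≤ ρ) : ∀ y ∈ s, ‖u y - zv k₀‖ ≤ ρ := by
  intro y hy
  have hρ0 : 0 ≤ ρ := (norm_nonneg _).trans hk₀
  rw [pi_norm_le_iff_of_nonneg hρ0]
  intro i
  rw [Real.norm_eq_abs]
  have hcoord : ∀ z ∈ s, ∃ m : ℤ, |u z i - m| ≤ ρ := by
    intro z hz
    obtain ⟨k, hk⟩ := h z hz
    refine ⟨k i, ?_⟩
    have := norm_le_pi_norm (u z - zv k) i
    simpa [zv, Real.norm_eq_abs] using this.trans hk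
  have hx0i : |u x₀ i - k₀ i| ≤ ρ := by
    have := norm_le_pi_norm (u x₀ - zv k₀) i
    simpa [zv, Real.norm_eq_abs] using this.trans hk₀
  have hf : ContinuousOn (fun z => u z i) s := by
    exact (continuous_apply i).comp_continuousOn hu
  have himg : ((fun z => u z i) '' s).OrdConnected := (hs.image _ hf).ordConnected
  have hxm : u x₀ i ∈ (fun z => u z i) '' s := ⟨x₀, hx₀, rfl⟩
  have hym : u y i ∈ (fun z => u z i) '' s := ⟨y, hy, rfl⟩
  have hhalf : ∀ a : ℤ, ((a : ℝ) + 1 / 2) ∉ (fun z => u z i) '' s := by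
    rintro a ⟨z, hz, hza⟩
    obtain ⟨m, hm⟩ := hcoord z hz
    have hza' : u z i = (a : ℝ) + 1 / 2 := hza
    rw [hza'] at hm
    exact half_integer_far hρ hm
  obtain ⟨m, hm⟩ := hcoord y hy
  have hm' := abs_le.mp hm
  have hx' := abs_le.mp hx0i
  have key : m = k₀ i := by
    rcases lt_trichotomy m (k₀ i) with hlt | heq | hgt
    · exfalso
      have h1 : (m : ℝ) + 1 ≤ k₀ i := by exact_mod_cast hlt
      apply hhalf (k₀ i - 1)
      apply himg.out hym hxm
      constructor
      · push_cast; linarith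
      · push_cast; linarith
    · exact heq
    · exfalso
      have h1 : (k₀ i : ℝ) + 1 ≤ m := by exact_mod_cast hgt
      apply hhalf (k₀ i)
      apply himg.out hxm hym
      constructor
      · linarith
      · linarith
  rw [key] at hm
  simpa [zv] using hm

end Pool.Agent.Lib.H14U
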