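import Pool.Agent.Lib.H14U.T2a
import Pool.Agent.Lib.H14U.T2b

/-! Chunk T2d of H14U (MP_ef0847_an). -/

set_option autoImplicit false

open scoped ContDiff

namespace Pool.Agent.Lib.H14U

/-- (M) Uniform Hoelder continuity of all iterates in the lift, for small distances.
Proof. `β = β₂ β₁`, `K' = K (K^β₁)` (or `K ^ (1 + β₁)`), `δ > 0` with `K' δ^β < 1/2`:
`dist (pr (F^[j] x)) (pr (F^[j] y)) = dist (h.symm (h (pr x) + j • pr α)) (h.symm (h (pr y) + j • pr α))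
≤ K * dist (h (pr x)) (h (pr y)) ^ β₁ ≤ K * (K * ‖x - y‖^β₂)^β₁`.
Let `‖x - y‖ ≤ δ`. On the segment (or the closed ball around `y` of radius `‖x - y‖`), which is
connected, the continuous map `u z = F^[j] z - F^[j] y` is within `ρ = K' ‖x - y‖^β < 1/2` of an
integer vector (`exists_of_dist_pr`) and `u y = 0`; `const_integer` with `k₀ = 0` gives
`‖u x‖ ≤ ρ`. -/
theorem holder_lift {d : ℕ} (α : Fin d → ℝ) (F : (Fin d → ℝ) → (Fin d → ℝ)) (hFc : Continuous F)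
    (h : (Fin d → AddCircle (1 : ℝ)) ≃ₜ (Fin d → AddCircle (1 : ℝ)))
    (hconj : ∀ x : Fin d → ℝ, h (pr (F x)) = h (pr x) + pr α) (K β₁ β₂ : ℝ) (hK : 0 ≤ K)
    (hβ₁ : 0 < β₁) (hβ₂ : 0 < β₂)
    (hs : ∀ a b, dist (h.symm a) (h.symm b) ≤ K * dist a b ^ β₁)
    (hh : ∀ a b, dist (h a) (h b) ≤ K * dist a b ^ β₂) :
    ∃ K' : ℝ, 0 ≤ K' ∧ ∃ δ : ℝ, 0 < δ ∧ ∀ j x y, ‖x - y‖ ≤ δ →
      ‖F^[j] x - F^[j] y‖ ≤ K' * ‖x - y‖ ^ (β₁ * β₂) := by
  have hpr0 : ∀ (j : ℕ) (x : Fin d → ℝ), h (pr (F^[j] x)) = h (pr x) + (j : ℕ) • pr α := by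
    intro j
    induction j with
    | zero =>
      intro x
      rw [Function.iterate_zero, id_eq, zero_smul, add_zero]
    | succ j ih =>
      intro x
      rw [Function.iterate_succ_apply', hconj, ih, succ_nsmul, add_assoc]
  have hβ : 0 < β₁ * β₂ := mul_pos hβ₁ hβ₂
  have hpr : ∀ (j : ℕ) (x y : Fin d → ℝ),
      dist (pr (F^[j] x)) (pr (F^[j] y)) ≤ K * K ^ β₁ * ‖x - y‖ ^ (β₁ * β₂) := by
    intro j x y
    have h1 : ∀ z, pr (F^[j] z) = h.symm (h (pr z) + (j : ℕ) • pr α) := by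
      intro z
      rw [← hpr0 j z, Homeomorph.symm_apply_apply]
    rw [h1 x, h1 y]
    have h2 : dist (pr x) (pr y) ≤ ‖x - y‖ := by
      refine dist_pr_le (norm_nonneg _) 0 fun i => ?_
      have := norm_le_pi_norm (x - y) i
      rw [Real.norm_eq_abs, Pi.sub_apply] at this
      simpa using this
    have h3 : dist (h (pr x) + (j : ℕ) • pr α) (h (pr y) + (j : ℕ) • pr α) ≤ K * ‖x - y‖ ^ β₂ := by
      rw [dist_add_right]
      refine le_trans (hh _ _) ?_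
      exact mul_le_mul_of_nonneg_left (Real.rpow_le_rpow dist_nonneg h2 hβ₂.le) hK
    refine le_trans (hs _ _) ?_
    have h4 : dist (h (pr x) + (j : ℕ) • pr α) (h (pr y) + (j : ℕ) • pr α) ^ β₁ ≤
        (K * ‖x - y‖ ^ β₂) ^ β₁ := Real.rpow_le_rpow dist_nonneg h3 hβ₁.le
    rw [Real.mul_rpow hK (Real.rpow_nonneg (norm_nonneg _) _), ← Real.rpow_mul (norm_nonneg _),
      mul_comm β₂ β₁] at h4
    calc K * dist (h (pr x) + (j : ℕ) • pr α) (h (pr y) + (j : ℕ) • pr α) ^ β₁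
        ≤ K * (K ^ β₁ * ‖x - y‖ ^ (β₁ * β₂)) := mul_le_mul_of_nonneg_left h4 hK
      _ = K * K ^ β₁ * ‖x - y‖ ^ (β₁ * β₂) := by ring
  set K' := K * K ^ β₁ with hK'
  have hK'0 : 0 ≤ K' := mul_nonneg hK (Real.rpow_nonneg hK _)
  -- choose δ
  obtain ⟨δ, hδ, hδ2⟩ : ∃ δ : ℝ, 0 < δ ∧ K' * δ ^ (β₁ * β₂) < 1 / 2 := by
    refine ⟨(1 / (4 * (K' + 1))) ^ (1 / (β₁ * β₂)), Real.rpow_pos_of_pos (by positivity) _, ?_⟩
    rw [← Real.rpow_mul (by positivity), one_div_mul_cancel hβ.ne', Real.rpow_one]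
    have h5 : 0 < 4 * (K' + 1) := by linarith
    rw [mul_one_div, div_lt_iff₀ h5]
    linarith
  refine ⟨K', hK'0, δ, hδ, fun j x y hxy => ?_⟩
  have hFj : Continuous (F^[j]) := hFc.iterate j
  have h6 : K' * ‖x - y‖ ^ (β₁ * β₂) < 1 / 2 :=
    lt_of_le_of_lt (mul_le_mul_of_nonneg_left (Real.rpow_le_rpow (norm_nonneg _) hxy hβ.le) hK'0) hδ2
  have h7 := const_integer (s := Metric.closedBall y ‖x - y‖)
    (convex_closedBall y ‖x - y‖).isPreconnected (u := fun z => F^[j] z - F^[j] y)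
    (hFj.sub continuous_const).continuousOn h6 (fun z hz => ?_) y
    (Metric.mem_closedBall_self (norm_nonneg _)) 0 ?_ x (by rw [Metric.mem_closedBall, dist_eq_norm])
  · have h8 : zv (0 : Fin d → ℤ) = 0 := by
      funext i
      simp [zv]
    rw [h8, sub_zero] at h7
    exact h7
  · rw [Metric.mem_closedBall, dist_eq_norm] at hz
    obtain ⟨k, hk⟩ := exists_of_dist_pr (hpr j z y)
    refine ⟨k, hk.trans ?_⟩
    exact mul_le_mul_of_nonneg_left (Real.rpow_le_rpow (norm_nonneg _) hz hβ.le) hK'0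
  · have h8 : zv (0 : Fin d → ℤ) = 0 := by
      funext i
      simp [zv]
    simp only [h8, sub_self, norm_zero]
    exact mul_nonneg hK'0 (Real.rpow_nonneg (norm_nonneg _) _)

end Pool.Agent.Lib.H14U
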