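import Pool.Agent.Lib.H14U.G3b

/-! Chunk T4b of H14U (MP_ef0847_an). -/

set_option autoImplicit false

open scoped ContDiff

namespace Pool.Agent.Lib.H14U

/-- Quadratic Taylor estimate on a ball. -/
theorem taylor_two {V : Type*} [NormedAddCommGroup V] [NormedSpace ℝ V] {f : V → V}
    (hf : ContDiff ℝ ∞ f) {M : ℝ} (hM : 0 ≤ M) (h2 : ∀ y, ‖iteratedFDeriv ℝ 2 f y‖ ≤ M)
    (x w : V) {t : ℝ} (ht : 0 ≤ t) (hw : ‖w‖ ≤ t) :
    ‖f (x + w) - f x - fderiv ℝ f x w‖ ≤ M * t * t := by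
  have hd1 : Differentiable ℝ f := hf.differentiable (by simp)
  have hd2 : Differentiable ℝ (fderiv ℝ f) :=
    (hf.fderiv_right (m := ∞) (by simp)).differentiable (by simp)
  have hlip : ∀ y, ‖fderiv ℝ f y - fderiv ℝ f x‖ ≤ M * ‖y - x‖ := by
    intro y
    apply Convex.norm_image_sub_le_of_norm_fderiv_le (𝕜 := ℝ) (s := Set.univ)
      (fun z _ => hd2 z) _ convex_univ (Set.mem_univ _) (Set.mem_univ _)
    intro z _
    have h3 : ‖iteratedFDeriv ℝ 1 (fderiv ℝ f) z‖ = ‖iteratedFDeriv ℝ 2 f z‖ :=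
      norm_iteratedFDeriv_fderiv
    rw [← norm_iteratedFDeriv_one, h3]
    exact h2 z
  have hg : ∀ y ∈ Metric.closedBall x t, DifferentiableAt ℝ (fun y => f y - fderiv ℝ f x y) y := by
    intro y _
    exact (hd1 y).sub (fderiv ℝ f x).differentiableAt
  have hgb : ∀ y ∈ Metric.closedBall x t, ‖fderiv ℝ (fun y => f y - fderiv ℝ f x y) y‖ ≤ M * t := by
    intro y hy
    have h5 : fderiv ℝ (fun y => f y - fderiv ℝ f x y) y = fderiv ℝ f y - fderiv ℝ f x := by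
      rw [fderiv_fun_sub (hd1 y) (fderiv ℝ f x).differentiableAt, ContinuousLinearMap.fderiv]
    rw [h5]
    refine (hlip y).trans ?_
    apply mul_le_mul_of_nonneg_left _ hM
    rw [← dist_eq_norm]
    exact hy
  have hxs : x ∈ Metric.closedBall x t := Metric.mem_closedBall_self ht
  have hys : x + w ∈ Metric.closedBall x t := by
    rw [Metric.mem_closedBall, dist_eq_norm]
    simpa using hw
  have h6 := Convex.norm_image_sub_le_of_norm_fderiv_le hg hgb (convex_closedBall x t) hxs hys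
  have h7 : (f (x + w) - fderiv ℝ f x (x + w)) - (f x - fderiv ℝ f x x)
      = f (x + w) - f x - fderiv ℝ f x w := by
    rw [map_add]; abel
  rw [h7] at h6
  refine h6.trans ?_
  apply mul_le_mul_of_nonneg_left _ (mul_nonneg hM ht)
  simpa using hw

/-- (M) One step of the argument. Let `DerBound F q Γ`, `j ≤ q`, `Γ/2 ≤ ‖D F^j (x)‖`. Suppose
`‖F^j y - F^j x‖ ≤ K ‖y - x‖^β` for `‖y - x‖ ≤ δ` and `C ≥ 0` bounds the second derivative of `F`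
(and the first). Then for every `t` with `0 < t ≤ δ` and `16 C q Γ^2 t ≤ 1`:
`Γ t ≤ 8 K t^β`.
Proof. There is a unit vector `v` with `‖D F^j(x) v‖ ≥ 3/4 * Γ / 2` (`< ` norm:
`ContinuousLinearMap.exists_lt_apply_of_lt_opNorm`, gives `‖v‖ < 1`, `‖D F^j(x) v‖ > 3 Γ / 8`;
a vector of norm `< 1` is enough). `growth_step` with `n = 1`, `B = Γ`:
`‖D² F^j‖ ≤ q Γ (2 C Γ²) = 2 C q Γ³`. Taylor (mean value inequality for `y ↦ F^j y - D F^j(x) y` on
the segment from `x` to `x + t v`): `‖F^j(x + t v) - F^j(x) - t D F^j(x) v‖ ≤ 2 C q Γ³ t²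
≤ Γ t / 8`. So `3 Γ t / 8 - Γ t / 8 ≤ ‖F^j(x + t v) - F^j(x)‖ ≤ K (t ‖v‖)^β ≤ K t^β`,
hence `Γ t ≤ 4 K t^β`. -/
theorem gamma_step {d : ℕ} {F : (Fin d → ℝ) → (Fin d → ℝ)} (hF : ContDiff ℝ ∞ F)
    (q : ℕ) (Γ C K β δ : ℝ) (hΓ : DerBound F q Γ) (hC : 0 ≤ C) (hK : 0 ≤ K) (hβ : 0 < β)
    (hFC : ∀ i, 1 ≤ i → i ≤ 2 → ∀ y, ‖iteratedFDeriv ℝ i F y‖ ≤ C)
    (hH : ∀ j x y, ‖x - y‖ ≤ δ → ‖F^[j] x - F^[j] y‖ ≤ K * ‖x - y‖ ^ β)
    (j : ℕ) (hj : j ≤ q) (x : Fin d → ℝ) (hx : Γ / 2 ≤ ‖fderiv ℝ (F^[j]) x‖)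
    (t : ℝ) (ht : 0 < t) (htδ : t ≤ δ) (ht2 : 16 * C * q * Γ ^ 2 * t ≤ 1) :
    Γ * t ≤ 8 * K * t ^ β := by
  obtain ⟨hΓ1, hΓb⟩ := hΓ
  have hΓ0 : 0 < Γ := by linarith
  have hq0 : (0 : ℝ) ≤ q := Nat.cast_nonneg q
  have hgr := growth_step hF 1 le_rfl q Γ Γ C ⟨hΓ1, hΓb⟩ hΓ1 hC
    (fun i h1 h2 y => hFC i h1 (by omega) y)
    (by
      intro j hj i h1 h2 x
      have hi : i = 1 := by omega
      subst hi
      rw [norm_iteratedFDeriv_one]
      exact hΓb j hj x) j hj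
  set M : ℝ := 2 * C * q * Γ ^ 3 with hM
  have hM0 : 0 ≤ M := by positivity
  have h2 : ∀ y, ‖iteratedFDeriv ℝ 2 (F^[j]) y‖ ≤ M := by
    intro y
    refine (hgr y).trans (le_of_eq ?_)
    rw [hM]
    simp
    ring
  obtain ⟨v, hv1, hv2⟩ := ContinuousLinearMap.exists_lt_apply_of_lt_opNorm (fderiv ℝ (F^[j]) x)
    (r := 3 * Γ / 8) (by linarith)
  have hw : ‖t • v‖ ≤ t := by
    rw [norm_smul, Real.norm_of_nonneg ht.le]
    nlinarith
  have h3 := taylor_two (iter_smooth hF j) hM0 h2 x (t • v) ht.le hw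
  have h4 : ‖fderiv ℝ (F^[j]) x (t • v)‖ ≥ 3 * Γ / 8 * t := by
    rw [map_smul, norm_smul, Real.norm_of_nonneg ht.le, mul_comm]
    exact mul_le_mul_of_nonneg_right hv2.le ht.le
  have h5 : M * t * t ≤ Γ * t / 8 := by
    have : M * t * t = (16 * C * q * Γ ^ 2 * t) * (Γ * t / 8) := by rw [hM]; ring
    rw [this]
    have hpos : 0 ≤ Γ * t / 8 := by positivity
    nlinarith
  have h6 : ‖F^[j] (x + t • v) - F^[j] x‖ ≤ K * t ^ β := by
    refine (hH j _ _ ?_).trans ?_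
    · simpa using hw.trans htδ
    · apply mul_le_mul_of_nonneg_left _ hK
      apply Real.rpow_le_rpow (norm_nonneg _) _ hβ.le
      simpa using hw
  have h7 : ‖fderiv ℝ (F^[j]) x (t • v)‖ ≤ ‖F^[j] (x + t • v) - F^[j] x‖
      + ‖F^[j] (x + t • v) - F^[j] x - fderiv ℝ (F^[j]) x (t • v)‖ := by
    have := norm_sub_le (F^[j] (x + t • v) - F^[j] x)
      (F^[j] (x + t • v) - F^[j] x - fderiv ℝ (F^[j]) x (t • v))
    simpa using this
  have hKt : 0 ≤ K * t ^ β := mul_nonneg hK (Real.rpow_nonneg ht.le _)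
  nlinarith

end Pool.Agent.Lib.H14U
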