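import Pool.Agent.Lib.H14U.T4a
import Pool.Agent.Lib.H14U.T4b

/-! Chunk T4c of H14U (MP_ef0847_an). -/

set_option autoImplicit false

open scoped ContDiff

namespace Pool.Agent.Lib.H14U

theorem t4c_mono {d : ℕ} {F : (Fin d → ℝ) → (Fin d → ℝ)} {q : ℕ} {Γ Γ' : ℝ}
    (h : DerBound F q Γ) (hle : Γ ≤ Γ') : DerBound F q Γ' :=
  ⟨h.1.trans hle, fun j hj x => (h.2 j hj x).trans hle⟩

/-- the real number computation -/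
theorem t4c_real {Γ K A q β δ C : ℝ} (hΓ : 1 ≤ Γ) (hK : 0 ≤ K) (hβ : 1 / 2 < β) (hβ1 : β ≤ 1)
    (hδ : 0 < δ) (hq : 1 ≤ q) (hA : 1 ≤ A) (hA1 : 1 / δ ≤ A) (hA2 : 16 * C ≤ A)
    (hstep : ∀ t : ℝ, 0 < t → t ≤ δ → 16 * C * q * Γ ^ 2 * t ≤ 1 → Γ * t ≤ 8 * K * t ^ β) :
    Γ ≤ (8 * (K + 1) * A * q) ^ ⌈1 / (2 * β - 1)⌉₊ := by
  have hΓ0 : 0 < Γ := lt_of_lt_of_le one_pos hΓ
  have hA0 : 0 < A := lt_of_lt_of_le one_pos hA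
  have hq0 : 0 < q := lt_of_lt_of_le one_pos hq
  have hAq1 : 1 ≤ A * q := one_le_mul_of_one_le_of_one_le hA hq
  have hAq : 0 < A * q := mul_pos hA0 hq0
  have hM : 0 < A * q * Γ ^ 2 := mul_pos hAq (pow_pos hΓ0 2)
  have hM1 : A ≤ A * q * Γ ^ 2 := by
    have h1 : 1 ≤ q * Γ ^ 2 := one_le_mul_of_one_le_of_one_le hq (one_le_pow₀ hΓ)
    calc A = A * 1 := (mul_one A).symm
      _ ≤ A * (q * Γ ^ 2) := mul_le_mul_of_nonneg_left h1 hA0.le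
      _ = A * q * Γ ^ 2 := by ring
  have ht0 : 0 < 1 / (A * q * Γ ^ 2) := one_div_pos.mpr hM
  have htδ : 1 / (A * q * Γ ^ 2) ≤ δ := by
    rw [div_le_iff₀ hM]
    have h1 : 1 ≤ δ * A := by
      rw [div_le_iff₀ hδ] at hA1
      linarith
    calc 1 ≤ δ * A := h1
      _ ≤ δ * (A * q * Γ ^ 2) := mul_le_mul_of_nonneg_left hM1 hδ.le
  have ht2 : 16 * C * q * Γ ^ 2 * (1 / (A * q * Γ ^ 2)) ≤ 1 := by
    rw [mul_one_div, div_le_one hM]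
    have h1 : 0 ≤ q * Γ ^ 2 := by positivity
    nlinarith
  have h0 := hstep _ ht0 htδ ht2
  -- `Γ ≤ 8 K t ^ (β - 1)`
  have h1 : Γ ≤ 8 * K * (1 / (A * q * Γ ^ 2)) ^ (β - 1) := by
    rw [Real.rpow_sub_one ht0.ne']
    rw [← mul_div_assoc, le_div_iff₀ ht0]
    exact h0
  have h2 : (1 / (A * q * Γ ^ 2)) ^ (β - 1) = (A * q) ^ (1 - β) * Γ ^ (2 * (1 - β)) := by
    rw [one_div, Real.inv_rpow hM.le, ← Real.rpow_neg hM.le, neg_sub,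
      Real.mul_rpow hAq.le (pow_pos hΓ0 2).le, ← Real.rpow_natCast, ← Real.rpow_mul hΓ0.le]
    norm_num
  have h3 : Γ ^ (2 * β - 1) ≤ 8 * K * (A * q) ^ (1 - β) := by
    have e : Γ ^ (2 * β - 1) = Γ / Γ ^ (2 * (1 - β)) := by
      rw [← Real.rpow_one_sub' hΓ0.le]
      · congr 1
        ring
      · intro h
        linarith
    rw [e, div_le_iff₀ (Real.rpow_pos_of_pos hΓ0 _)]
    calc Γ ≤ 8 * K * (1 / (A * q * Γ ^ 2)) ^ (β - 1) := h1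
      _ = 8 * K * (A * q) ^ (1 - β) * Γ ^ (2 * (1 - β)) := by rw [h2]; ring
  have h4 : (A * q) ^ (1 - β) ≤ A * q := by
    calc (A * q) ^ (1 - β) ≤ (A * q) ^ (1 : ℝ) :=
          Real.rpow_le_rpow_of_exponent_le hAq1 (by linarith)
      _ = A * q := Real.rpow_one _
  have h5 : Γ ^ (2 * β - 1) ≤ 8 * (K + 1) * A * q := by
    calc Γ ^ (2 * β - 1) ≤ 8 * K * (A * q) ^ (1 - β) := h3
      _ ≤ 8 * K * (A * q) := mul_le_mul_of_nonneg_left h4 (by positivity)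
      _ ≤ 8 * (K + 1) * A * q := by nlinarith
  have hB1 : 1 ≤ 8 * (K + 1) * A * q := by nlinarith
  have h6 : (Γ ^ (2 * β - 1)) ^ (1 / (2 * β - 1)) = Γ := by
    rw [← Real.rpow_mul hΓ0.le, mul_one_div_cancel (by linarith), Real.rpow_one]
  calc Γ = (Γ ^ (2 * β - 1)) ^ (1 / (2 * β - 1)) := h6.symm
    _ ≤ (8 * (K + 1) * A * q) ^ (1 / (2 * β - 1)) :=
        Real.rpow_le_rpow (Real.rpow_nonneg hΓ0.le _) h5 (by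
          apply one_div_nonneg.mpr
          linarith)
    _ ≤ (8 * (K + 1) * A * q) ^ ((⌈1 / (2 * β - 1)⌉₊ : ℕ) : ℝ) :=
        Real.rpow_le_rpow_of_exponent_le hB1 (Nat.le_ceil _)
    _ = (8 * (K + 1) * A * q) ^ ⌈1 / (2 * β - 1)⌉₊ := Real.rpow_natCast _ _

/-- (M) Polynomial growth of the first derivatives when all iterates are uniformly `β`-Hoelder at
small scales, `β > 1/2`.
Proof. `q ≥ 1`, `best_gamma`, `gamma_step` with `t = 1 / (A q Γ²)`, `A = max (16 C) (1/δ) + 1`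
(so `t ≤ δ`, `16 C q Γ² t ≤ 1`): `Γ ≤ 8 K t^(β-1) = 8 K (A q Γ²)^(1-β)`, so
`Γ^(2β-1) ≤ 8 K (A q)^(1-β) ≤ 8 (K+1) A q` (`0 ≤ 1 - β ≤ 1/2`, `A q ≥ 1`), and with
`κ = ⌈1/(2β-1)⌉₊` we get `Γ ≤ (8 (K+1) A q)^κ` (`8(K+1) A q ≥ 1`, `Γ = (Γ^(2β-1))^(1/(2β-1))`).
`DerBound` is monotone in `Γ`. -/
theorem gamma_poly {d : ℕ} (hd : 1 ≤ d) {F : (Fin d → ℝ) → (Fin d → ℝ)} (hF : ContDiff ℝ ∞ F)
    (hc : ∀ (x : Fin d → ℝ) (k : Fin d → ℤ), F (x + zv k) = F x + zv k)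
    (K β δ : ℝ) (hK : 0 ≤ K) (hβ : 1 / 2 < β) (hβ1 : β ≤ 1) (hδ : 0 < δ)
    (hH : ∀ j x y, ‖x - y‖ ≤ δ → ‖F^[j] x - F^[j] y‖ ≤ K * ‖x - y‖ ^ β) :
    ∃ C : ℝ, 1 ≤ C ∧ ∃ κ : ℕ, ∀ q : ℕ, 1 ≤ q → DerBound F q (C * (q : ℝ) ^ κ) := by
  obtain ⟨C0, hC0, hFC⟩ := deriv_bounded' hF hc 2
  set A : ℝ := max (max (16 * C0) (1 / δ)) 1 with hA
  have hA1 : 1 ≤ A := le_max_right _ _
  have hAC : 16 * C0 ≤ A := (le_max_left _ _).trans (le_max_left _ _)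
  have hAδ : 1 / δ ≤ A := (le_max_right _ _).trans (le_max_left _ _)
  have hB : 1 ≤ 8 * (K + 1) * A := by nlinarith
  refine ⟨(8 * (K + 1) * A) ^ ⌈1 / (2 * β - 1)⌉₊, one_le_pow₀ hB, ⌈1 / (2 * β - 1)⌉₊, ?_⟩
  intro q hq
  obtain ⟨Γ, hΓ, j, hj, x, hx⟩ := best_gamma hd hF hc q
  refine t4c_mono hΓ ?_
  rw [← mul_pow]
  refine t4c_real hΓ.1 hK hβ hβ1 hδ (by exact_mod_cast hq) hA1 hAδ hAC ?_
  intro t ht htδ ht2
  exact gamma_step hF q Γ C0 K β δ hΓ hC0 hK (by linarith) hFC hH j hj x hx t ht htδ ht2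

end Pool.Agent.Lib.H14U
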