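import Pool.Agent.Lib.H14U.Defs

/-! Chunk U1a of H14U (MP_ef0847_an). -/

set_option autoImplicit false

open scoped ContDiff

namespace Pool.Agent.Lib.H14U

theorem u1a_aux (a : ℝ) (ha : ∀ q : ℕ, 1 ≤ q → ∀ m : ℤ, (q : ℝ) * a ≠ m) (Q : ℕ) :
    ∃ ρ₀ : ℝ, 0 < ρ₀ ∧ ∀ q : ℕ, 1 ≤ q → q ≤ Q → ∀ m : ℤ, ρ₀ < |(q : ℝ) * a - m| := by
  induction Q with
  | zero => exact ⟨1, one_pos, fun q h1 h2 => by omega⟩
  | succ Q ih =>
    obtain ⟨ρ, hρ, h⟩ := ih
    have hpos : 0 < |((Q + 1 : ℕ) : ℝ) * a - round (((Q + 1 : ℕ) : ℝ) * a)| := by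
      rw [abs_pos, sub_ne_zero]
      exact ha _ (by omega) _
    refine ⟨min ρ (|((Q + 1 : ℕ) : ℝ) * a - round (((Q + 1 : ℕ) : ℝ) * a)| / 2),
      lt_min hρ (half_pos hpos), fun q h1 h2 m => ?_⟩
    rcases Nat.lt_or_ge q (Q + 1) with h3 | h3
    · exact (min_le_left _ _).trans_lt (h q h1 (by omega) m)
    · have e : q = Q + 1 := by omega
      subst e
      refine (min_le_right _ _).trans_lt ?_
      exact (half_lt_self hpos).trans_le (round_le _ _)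

/-- (S/M) Small `q` are excluded: if `α` is irrational (`d ≥ 1`) then for every `Q` there is
`ρ₀ > 0` such that `|q α i - p i| ≤ ρ₀` for all `i` and `1 ≤ q` imply `q > Q`.
Proof: for `1 ≤ q ≤ Q` the number `q α 0` is not an integer (irrationality with `k = q e_0`), so its
distance to the integers is `> 0` (`|q α 0 - round (q α 0)|`, `round_le`); take half of the minimum
over the finitely many `q` (induction on `Q` is easiest). -/
theorem large_q {d : ℕ} (hd : 1 ≤ d) (α : Fin d → ℝ)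
    (hα : ∀ k : Fin d → ℤ, k ≠ 0 → ∀ m : ℤ, ∑ i, (k i : ℝ) * α i ≠ (m : ℝ)) (Q : ℕ) :
    ∃ ρ₀ : ℝ, 0 < ρ₀ ∧ ∀ q : ℕ, 1 ≤ q → ∀ p : Fin d → ℤ, (∀ i, |(q : ℝ) * α i - p i| ≤ ρ₀) →
      Q < q := by
  let i₀ : Fin d := ⟨0, hd⟩
  have ha : ∀ q : ℕ, 1 ≤ q → ∀ m : ℤ, (q : ℝ) * α i₀ ≠ m := by
    intro q hq m
    have h := hα (Pi.single i₀ (q : ℤ)) (by
      intro h
      have := congrFun h i₀
      rw [Pi.single_eq_same, Pi.zero_apply] at this
      omega) m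
    have e : ∑ i, ((Pi.single i₀ (q : ℤ) : Fin d → ℤ) i : ℝ) * α i = (q : ℝ) * α i₀ := by
      rw [Finset.sum_eq_single i₀]
      · rw [Pi.single_eq_same, Int.cast_natCast]
      · intro i _ hi
        rw [Pi.single_eq_of_ne hi, Int.cast_zero, zero_mul]
      · intro h
        exact absurd (Finset.mem_univ _) h
    rwa [e] at h
  obtain ⟨ρ, hρ, h⟩ := u1a_aux (α i₀) ha Q
  refine ⟨ρ, hρ, fun q hq p hp => ?_⟩
  by_contra hQ
  exact absurd (h q hq (by omega) (p i₀)) (not_lt.2 (hp i₀))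

end Pool.Agent.Lib.H14U
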