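import Pool.Agent.Lib.H14U.Defs

/-! Chunk U1b of H14U (MP_ef0847_an). -/

set_option autoImplicit false

open scoped ContDiff

namespace Pool.Agent.Lib.H14U

/-- (M) Arithmetic for case (a). For all `K ≥ 0`, `β > 0`, `C ≥ 1`, `κ`, `s` there is `S` and `Q`
such that for all `q ≥ Q`: `K (q^(-S))^β < 1/2` and `K (q^(-S))^β (q (C q^κ))^s ≤ 1`.
Proof: `S` with `S β ≥ (κ + 1) s + s + 2`, `Q ≥ K + 1, C, 4`: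
`K q^(-S β) (C q^(κ+1))^s ≤ q · q^(-Sβ) q^s q^((κ+1) s) ≤ q^(-1) ≤ 1`, and
`K q^(-Sβ) ≤ q · q^(-2) = 1/q ≤ 1/4`. -/
theorem arith_a (K β C : ℝ) (hK : 0 ≤ K) (hβ : 0 < β) (hC : 1 ≤ C) (κ s : ℕ) :
    ∃ S Q : ℕ, ∀ q : ℕ, Q ≤ q → K * (((q : ℝ) ^ S)⁻¹) ^ β < 1 / 2 ∧
      K * (((q : ℝ) ^ S)⁻¹) ^ β * ((q : ℝ) * (C * (q : ℝ) ^ κ)) ^ s ≤ 1 := by
  obtain ⟨M, hM⟩ : ∃ M : ℕ, M = (κ + 2) * s + 2 := ⟨_, rfl⟩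
  obtain ⟨S, hS⟩ : ∃ S : ℕ, (M : ℝ) / β ≤ S := exists_nat_ge _
  obtain ⟨Q, hQ⟩ : ∃ Q : ℕ, K + C + 4 ≤ (Q : ℝ) := exists_nat_ge _
  have hSβ : (M : ℝ) ≤ S * β := by
    rwa [div_le_iff₀ hβ] at hS
  refine ⟨S, Q, fun q hq => ?_⟩
  have hq' : K + C + 4 ≤ (q : ℝ) := hQ.trans (by exact_mod_cast hq)
  have hq4 : (4 : ℝ) ≤ q := by linarith
  have hq1 : (1 : ℝ) ≤ q := by linarith
  have hq0 : (0 : ℝ) < q := by linarith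
  have hKq : K ≤ q := by linarith
  have hCq : C ≤ q := by linarith
  have hX : (((q : ℝ) ^ S)⁻¹) ^ β ≤ ((q : ℝ) ^ M)⁻¹ := by
    rw [← Real.rpow_natCast, ← Real.rpow_neg hq0.le, ← Real.rpow_mul hq0.le, ← Real.rpow_natCast,
      ← Real.rpow_neg hq0.le]
    apply Real.rpow_le_rpow_of_exponent_le hq1
    linarith
  have hX0 : 0 ≤ (((q : ℝ) ^ S)⁻¹) ^ β := Real.rpow_nonneg (by positivity) _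
  have h1 : K * (((q : ℝ) ^ S)⁻¹) ^ β ≤ q * ((q : ℝ) ^ M)⁻¹ :=
    mul_le_mul hKq hX hX0 hq0.le
  have h2 : (q : ℝ) * ((q : ℝ) ^ M)⁻¹ ≤ (q : ℝ)⁻¹ := by
    have h3 : (q : ℝ) ^ 2 ≤ (q : ℝ) ^ M := pow_le_pow_right₀ hq1 (by omega)
    have h4 : ((q : ℝ) ^ M)⁻¹ ≤ ((q : ℝ) ^ 2)⁻¹ := inv_anti₀ (by positivity) h3
    calc (q : ℝ) * ((q : ℝ) ^ M)⁻¹ ≤ q * ((q : ℝ) ^ 2)⁻¹ := mul_le_mul_of_nonneg_left h4 hq0.le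
      _ = (q : ℝ)⁻¹ := by field_simp
  have h5 : (q : ℝ)⁻¹ ≤ 1 / 4 := by
    rw [one_div]
    exact inv_anti₀ (by norm_num) hq4
  refine ⟨by linarith, ?_⟩
  have h6 : ((q : ℝ) * (C * (q : ℝ) ^ κ)) ^ s ≤ ((q : ℝ) ^ (κ + 2)) ^ s := by
    apply pow_le_pow_left₀ (by positivity)
    calc (q : ℝ) * (C * (q : ℝ) ^ κ) ≤ q * (q * (q : ℝ) ^ κ) := by gcongr
      _ = (q : ℝ) ^ (κ + 2) := by ring
  have h7 : 0 ≤ ((q : ℝ) * (C * (q : ℝ) ^ κ)) ^ s := by positivity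
  calc K * (((q : ℝ) ^ S)⁻¹) ^ β * ((q : ℝ) * (C * (q : ℝ) ^ κ)) ^ s
      ≤ (q * ((q : ℝ) ^ M)⁻¹) * ((q : ℝ) ^ (κ + 2)) ^ s :=
        mul_le_mul h1 h6 h7 (by positivity)
    _ = (q : ℝ)⁻¹ := by
        rw [hM, ← pow_mul, pow_add]
        field_simp
    _ ≤ 1 := by linarith

end Pool.Agent.Lib.H14U
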