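import Pool.Agent.Lib.H14U.Defs

/-! Chunk U1c of H14U (MP_ef0847_an). -/

set_option autoImplicit false

open scoped ContDiff

namespace Pool.Agent.Lib.H14U

/-- (M) Arithmetic for case (b). For all `K ≥ 0`, `β > 0`, `C ≥ 1`, `s` there is `S` such that for
all `q ≥ 1`: `K exp(-S q)^β < 1/2` and `K exp(-S q)^β (q C^q)^s ≤ 1`.
Proof: `exp(-S q)^β = exp(-S β q)`, `q ≤ exp q`, `C^q = exp (q log C)`, `K ≤ exp (K)≤ exp (K q)`;
take `S β ≥ K + s + s log C + 1`. -/
theorem arith_b (K β C : ℝ) (hK : 0 ≤ K) (hβ : 0 < β) (hC : 1 ≤ C) (s : ℕ) :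
    ∃ S : ℕ, ∀ q : ℕ, 1 ≤ q → K * (Real.exp (-((S : ℝ) * q))) ^ β < 1 / 2 ∧
      K * (Real.exp (-((S : ℝ) * q))) ^ β * ((q : ℝ) * C ^ q) ^ s ≤ 1 := by
  obtain ⟨S, hS⟩ := exists_nat_ge ((K + s + s * Real.log C + 1) / β)
  rw [div_le_iff₀ hβ] at hS
  refine ⟨S, fun q hq => ?_⟩
  have hq1 : (1 : ℝ) ≤ q := by exact_mod_cast hq
  have hq0 : (0 : ℝ) < q := by linarith
  have hlog : 0 ≤ Real.log C := Real.log_nonneg hC
  have hC0 : 0 < C := by linarith
  have h1 : K * (Real.exp (-((S : ℝ) * q))) ^ β ≤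
      Real.exp (-((s + s * Real.log C + 1) * q)) := by
    rw [← Real.exp_mul]
    calc K * Real.exp (-((S : ℝ) * q) * β) ≤ Real.exp (K * q) * Real.exp (-((S : ℝ) * q) * β) := by
          apply mul_le_mul_of_nonneg_right _ (Real.exp_pos _).le
          calc K ≤ K * q := by nlinarith
            _ ≤ Real.exp (K * q) := by linarith [Real.add_one_le_exp (K * q)]
      _ = Real.exp (K * q + -((S : ℝ) * q) * β) := by rw [← Real.exp_add]
      _ ≤ Real.exp (-((s + s * Real.log C + 1) * q)) := by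
          apply Real.exp_le_exp.mpr
          nlinarith
  have h2 : ((q : ℝ) * C ^ q) ^ s ≤ Real.exp ((s + s * Real.log C) * q) := by
    have h3 : (q : ℝ) * C ^ q ≤ Real.exp ((1 + Real.log C) * q) := by
      have h4 : (C : ℝ) ^ q = Real.exp (Real.log C * q) := by
        rw [mul_comm, Real.exp_nat_mul, Real.exp_log hC0]
      have h5 : (q : ℝ) ≤ Real.exp q := by linarith [Real.add_one_le_exp (q : ℝ)]
      rw [h4, add_mul, Real.exp_add, one_mul]
      exact mul_le_mul_of_nonneg_right h5 (Real.exp_pos _).le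
    calc ((q : ℝ) * C ^ q) ^ s ≤ (Real.exp ((1 + Real.log C) * q)) ^ s :=
          pow_le_pow_left₀ (by positivity) h3 s
      _ = Real.exp ((s + s * Real.log C) * q) := by
          rw [← Real.exp_nat_mul]
          congr 1
          ring
  constructor
  · refine lt_of_le_of_lt h1 ?_
    have h6 : -((s + s * Real.log C + 1) * q) ≤ -1 := by
      have : 0 ≤ (s : ℝ) + s * Real.log C := by positivity
      nlinarith
    calc Real.exp (-((s + s * Real.log C + 1) * q)) ≤ Real.exp (-1) := Real.exp_le_exp.mpr h6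
      _ < 1 / 2 := by
          have := Real.exp_neg_one_lt_d9
          linarith
  · calc K * (Real.exp (-((S : ℝ) * q))) ^ β * ((q : ℝ) * C ^ q) ^ s
        ≤ Real.exp (-((s + s * Real.log C + 1) * q)) * Real.exp ((s + s * Real.log C) * q) :=
          mul_le_mul h1 h2 (by positivity) (Real.exp_pos _).le
      _ = Real.exp (-q) := by
          rw [← Real.exp_add]
          congr 1
          ring
      _ ≤ 1 := by
          apply Real.exp_le_one_iff.mpr
          linarith

end Pool.Agent.Lib.H14U
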