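import Pool.Agent.Lib.H14U.T2c
import Pool.Agent.Lib.H14U.U1a
import Pool.Agent.Lib.H14U.U1b
import Pool.Agent.Lib.H14U.U1c

/-! Chunk U1d of H14U (MP_ef0847_an). -/

set_option autoImplicit false

open scoped ContDiff

namespace Pool.Agent.Lib.H14U

/-- (S/M) Case (a): `α` simultaneously Liouville and polynomial growth of the derivatives.
Proof. Given `s`. `arith_a` gives `S, Q`. `large_q` with `max Q s` gives `ρ₀`. Choose `S' ≥ S` with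
`(1/2)^S' ≤ ρ₀`, and `q ≥ 2`, `p` with `|q α i - p i| ≤ (q^S')⁻¹ ≤ (1/2)^S' ≤ ρ₀`; so
`q > max Q s`. Also `(q^S')⁻¹ ≤ (q^S)⁻¹ =: ρ`. `displacement` for `ρ` gives `p'`. -/
theorem crit_a {d : ℕ} (hd : 1 ≤ d) (α : Fin d → ℝ)
    (hα : ∀ k : Fin d → ℤ, k ≠ 0 → ∀ m : ℤ, ∑ i, (k i : ℝ) * α i ≠ (m : ℝ))
    (hL : ∀ S : ℕ, ∃ q : ℕ, 2 ≤ q ∧ ∃ p : Fin d → ℤ, ∀ i, |(q : ℝ) * α i - p i| ≤ ((q : ℝ) ^ S)⁻¹)
    (F : (Fin d → ℝ) → (Fin d → ℝ)) (hFc : Continuous F)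
    (h : (Fin d → AddCircle (1 : ℝ)) ≃ₜ (Fin d → AddCircle (1 : ℝ)))
    (hconj : ∀ x : Fin d → ℝ, h (pr (F x)) = h (pr x) + pr α) (K β : ℝ) (hK : 0 ≤ K) (hβ : 0 < β)
    (hs : ∀ a b, dist (h.symm a) (h.symm b) ≤ K * dist a b ^ β)
    (C : ℝ) (hC : 1 ≤ C) (κ : ℕ) (hG : ∀ q : ℕ, 1 ≤ q → DerBound F q (C * (q : ℝ) ^ κ)) :
    Crit F := by
  intro s
  obtain ⟨S, Q, hSQ⟩ := arith_a K β C hK hβ hC κ s
  obtain ⟨ρ₀, hρ₀, hlarge⟩ := large_q hd α hα (max Q s)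
  obtain ⟨n, hn⟩ := exists_pow_lt_of_lt_one hρ₀ (show (1 / 2 : ℝ) < 1 by norm_num)
  obtain ⟨q, hq2, p, hp⟩ := hL (max S n)
  have hqR : (2 : ℝ) ≤ q := by exact_mod_cast hq2
  have hq0 : (0 : ℝ) < q := by linarith
  have h1 : ((q : ℝ) ^ (max S n))⁻¹ ≤ ρ₀ := by
    have h2 : (2 : ℝ) ^ n ≤ (q : ℝ) ^ (max S n) :=
      (pow_le_pow_left₀ (by norm_num) hqR n).trans
        (pow_le_pow_right₀ (by linarith) (le_max_right S n))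
    have h3 : ((q : ℝ) ^ (max S n))⁻¹ ≤ ((2 : ℝ) ^ n)⁻¹ := inv_anti₀ (by positivity) h2
    have h4 : ((2 : ℝ) ^ n)⁻¹ = (1 / 2) ^ n := by rw [one_div, inv_pow]
    rw [h4] at h3
    exact h3.trans hn.le
  have h5 : max Q s < q := hlarge q (by omega) p (fun i => (hp i).trans h1)
  have h6 : ((q : ℝ) ^ (max S n))⁻¹ ≤ ((q : ℝ) ^ S)⁻¹ :=
    inv_anti₀ (by positivity) (pow_le_pow_right₀ (by linarith) (le_max_left S n))
  obtain ⟨h7, h8⟩ := hSQ q ((le_max_left _ _).trans h5.le)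
  obtain ⟨p', hp'⟩ := displacement α F hFc h hconj K β hK hβ hs q p (((q : ℝ) ^ S)⁻¹)
    (by positivity) (fun i => (hp i).trans h6) h7
  refine ⟨q, (le_max_right _ _).trans h5.le, by omega, C * (q : ℝ) ^ κ, hG q (by omega), p', ?_⟩
  intro x
  refine le_trans (mul_le_mul_of_nonneg_right (hp' x) ?_) h8
  positivity

/-- (S/M) Case (b): exponentially Liouville vectors. As `crit_a`, with `arith_b`,
`S' ≥ S` with `exp (-S') ≤ ρ₀` (`q ≥ 1`). -/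
theorem crit_b {d : ℕ} (hd : 1 ≤ d) (α : Fin d → ℝ)
    (hα : ∀ k : Fin d → ℤ, k ≠ 0 → ∀ m : ℤ, ∑ i, (k i : ℝ) * α i ≠ (m : ℝ))
    (hL : ∀ S : ℕ, ∃ q : ℕ, 1 ≤ q ∧ ∃ p : Fin d → ℤ, ∀ i,
      |(q : ℝ) * α i - p i| ≤ Real.exp (-((S : ℝ) * q)))
    (F : (Fin d → ℝ) → (Fin d → ℝ)) (hFc : Continuous F)
    (h : (Fin d → AddCircle (1 : ℝ)) ≃ₜ (Fin d → AddCircle (1 : ℝ)))
    (hconj : ∀ x : Fin d → ℝ, h (pr (F x)) = h (pr x) + pr α) (K β : ℝ) (hK : 0 ≤ K) (hβ : 0 < β)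
    (hs : ∀ a b, dist (h.symm a) (h.symm b) ≤ K * dist a b ^ β)
    (C : ℝ) (hC : 1 ≤ C) (hG : ∀ q : ℕ, DerBound F q (C ^ q)) :
    Crit F := by
  intro s
  obtain ⟨S, hSQ⟩ := arith_b K β C hK hβ hC s
  obtain ⟨ρ₀, hρ₀, hlarge⟩ := large_q hd α hα s
  obtain ⟨n, hn⟩ := exists_nat_gt (-Real.log ρ₀)
  obtain ⟨q, hq1, p, hp⟩ := hL (max S n)
  have hqR : (1 : ℝ) ≤ q := by exact_mod_cast hq1
  have h1 : Real.exp (-(((max S n : ℕ) : ℝ) * q)) ≤ ρ₀ := by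
    rw [← Real.exp_log hρ₀]
    apply Real.exp_le_exp.2
    have h2 : (n : ℝ) ≤ ((max S n : ℕ) : ℝ) := by exact_mod_cast le_max_right S n
    have h3 : (0 : ℝ) ≤ ((max S n : ℕ) : ℝ) := Nat.cast_nonneg _
    have h4 : ((max S n : ℕ) : ℝ) ≤ ((max S n : ℕ) : ℝ) * q := le_mul_of_one_le_right h3 hqR
    linarith
  have h5 : s < q := hlarge q hq1 p (fun i => (hp i).trans h1)
  have h6 : Real.exp (-(((max S n : ℕ) : ℝ) * q)) ≤ Real.exp (-((S : ℝ) * q)) := by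
    apply Real.exp_le_exp.2
    have h2 : (S : ℝ) ≤ ((max S n : ℕ) : ℝ) := by exact_mod_cast le_max_left S n
    have h3 := mul_le_mul_of_nonneg_right h2 (show (0 : ℝ) ≤ q by linarith)
    linarith
  obtain ⟨h7, h8⟩ := hSQ q hq1
  obtain ⟨p', hp'⟩ := displacement α F hFc h hconj K β hK hβ hs q p (Real.exp (-((S : ℝ) * q)))
    (Real.exp_pos _).le (fun i => (hp i).trans h6) h7
  refine ⟨q, h5.le, hq1, C ^ q, hG q, p', ?_⟩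
  intro x
  refine le_trans (mul_le_mul_of_nonneg_right (hp' x) ?_) h8
  positivity

end Pool.Agent.Lib.H14U
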