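import Pool.Agent.Lib.H14U.S1e
import Pool.Agent.Lib.H14U.C1c
import Pool.Agent.Lib.H14U.U1d
import Pool.Agent.Lib.H14U.T1c
import Pool.Agent.Lib.H14U.T2d
import Pool.Agent.Lib.H14U.T4c

/-! Assembly (helper14). -/

set_option autoImplicit false

open scoped ContDiff

namespace Pool.Agent.Lib.H14U

/-- The criterion. -/
theorem criterion {d : ℕ} (hd : 1 ≤ d) {F G : (Fin d → ℝ) → (Fin d → ℝ)} (hS : Sys F G)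
    (hR : Rigid F) (h : Crit F) : ¬ ClosedCob F := by
  obtain ⟨ψ, h1, h2, h3, h4⟩ := bad_sequence hd hS h
  exact not_closed hS hR ψ h1 h2 h3 h4

/-- The main theorem. -/
theorem main {d : ℕ} (hd : 1 ≤ d) (α : Fin d → ℝ)
    (hα : ∀ k : Fin d → ℤ, k ≠ 0 → ∀ m : ℤ, ∑ i, (k i : ℝ) * α i ≠ (m : ℝ))
    (F G : (Fin d → ℝ) → (Fin d → ℝ)) (hS : Sys F G)
    (h : (Fin d → AddCircle (1 : ℝ)) ≃ₜ (Fin d → AddCircle (1 : ℝ)))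
    (hconj : ∀ x : Fin d → ℝ, h (pr (F x)) = h (pr x) + pr α)
    (K β₁ β₂ : ℝ) (hK : 0 ≤ K) (hβ₁ : 0 < β₁) (hβ₂ : 0 < β₂) (hβ₁' : β₁ ≤ 1) (hβ₂' : β₂ ≤ 1)
    (hs : ∀ a b, dist (h.symm a) (h.symm b) ≤ K * dist a b ^ β₁)
    (hh : ∀ a b, dist (h a) (h b) ≤ K * dist a b ^ β₂)
    (hL : (1 / 2 < β₁ * β₂ ∧ ∀ S : ℕ, ∃ q : ℕ, 2 ≤ q ∧ ∃ p : Fin d → ℤ, ∀ i,
            |(q : ℝ) * α i - p i| ≤ ((q : ℝ) ^ S)⁻¹) ∨
          (∀ S : ℕ, ∃ q : ℕ, 1 ≤ q ∧ ∃ p : Fin d → ℤ, ∀ i,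
            |(q : ℝ) * α i - p i| ≤ Real.exp (-((S : ℝ) * q)))) :
    ¬ ClosedCob F := by
  have hFc : Continuous F := hS.smoothF.continuous
  have hR : Rigid F := rigid_of_conj α hα F h hconj
  refine criterion hd hS hR ?_
  rcases hL with ⟨hb, hL⟩ | hL
  · obtain ⟨K', hK', δ, hδ, hH⟩ := holder_lift α F hFc h hconj K β₁ β₂ hK hβ₁ hβ₂ hs hh
    have hβ1 : β₁ * β₂ ≤ 1 := by nlinarith
    obtain ⟨C, hC, κ, hG⟩ := gamma_poly hd hS.smoothF hS.comm K' (β₁ * β₂) δ hK' hb hβ1 hδ hH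
    exact crit_a hd α hα hL F hFc h hconj K β₁ hK hβ₁ hs C hC κ hG
  · obtain ⟨C, hC, hG⟩ := gamma_exp hS.smoothF hS.comm
    exact crit_b hd α hα hL F hFc h hconj K β₁ hK hβ₁ hs C hC hG

end Pool.Agent.Lib.H14U
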