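import Pool.Agent.Lib.H14U.G3b
import Pool.Agent.Lib.H14U.L1b
import Pool.Agent.Lib.H14U.B3c

/-! Chunk S1a of H14U (MP_ef0847_an). -/

set_option autoImplicit false

open scoped ContDiff

namespace Pool.Agent.Lib.H14U

/-- The data extracted from `Crit F`: for every `s` a time `q s ≥ s`, a bound `Γ s`, a translation
`p s` and a test function `η s`. -/
structure Fam {d : ℕ} (F : (Fin d → ℝ) → (Fin d → ℝ)) where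
  q : ℕ → ℕ
  Γ : ℕ → ℝ
  p : ℕ → Fin d → ℤ
  η : ℕ → (Fin d → ℝ) → ℝ
  hq : ∀ s, s ≤ q s
  hq1 : ∀ s, 1 ≤ q s
  hΓ : ∀ s, DerBound F (q s) (Γ s)
  hp : ∀ s x, ‖F^[q s] x - x - zv (p s)‖ * ((q s : ℝ) * Γ s) ^ s ≤ 1
  hη : ∀ s, Bern (8 * Real.pi * ((q s : ℝ) + 1) ^ 3) (η s)
  hper : ∀ s, Per (η s)
  h01 : ∀ s x, 0 ≤ η s x ∧ η s x ≤ 1
  hlow : ∀ s, (∑ j ∈ Finset.range (q s), η s (F^[j] 0)) ≤ 1 / 2
  hone : ∀ s, ∃ w, η s w = 1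

/-- `N s = q s * Γ s`. -/
noncomputable def Fam.N {d : ℕ} {F : (Fin d → ℝ) → (Fin d → ℝ)} (A : Fam F) (s : ℕ) : ℝ :=
  (A.q s : ℝ) * A.Γ s

/-- `g s = η s ∘ F^{q s} - η s`. -/
def Fam.g {d : ℕ} {F : (Fin d → ℝ) → (Fin d → ℝ)} (A : Fam F) (s : ℕ) : (Fin d → ℝ) → ℝ :=
  fun x => A.η s (F^[A.q s] x) - A.η s x

/-- (S) `q s ≤ N s`, `s ≤ N s`, `1 ≤ N s`. -/
theorem Fam.N_ge {d : ℕ} {F : (Fin d → ℝ) → (Fin d → ℝ)} (A : Fam F) (s : ℕ) :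
    (A.q s : ℝ) ≤ A.N s ∧ (s : ℝ) ≤ A.N s ∧ 1 ≤ A.N s := by
  have h1 : (1 : ℝ) ≤ A.Γ s := (A.hΓ s).1
  have h2 : (1 : ℝ) ≤ (A.q s : ℝ) := by exact_mod_cast A.hq1 s
  have h3 : (s : ℝ) ≤ (A.q s : ℝ) := by exact_mod_cast A.hq s
  have h4 : (A.q s : ℝ) ≤ A.N s := by
    unfold Fam.N
    nlinarith
  exact ⟨h4, h3.trans h4, h2.trans h4⟩

/-- (S) Choice; the test functions come from `testfun` with `z j = F^[j] 0`. -/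
theorem exists_fam {d : ℕ} (hd : 1 ≤ d) {F : (Fin d → ℝ) → (Fin d → ℝ)} (h : Crit F) :
    Nonempty (Fam F) := by
  choose q hq hq1 Γ hΓ p hp using h
  choose η hη hper h01 hlow hone using fun s => testfun hd (q s) (fun j => F^[j] 0)
  exact ⟨⟨q, Γ, p, η, hq, hq1, hΓ, hp, hη, hper, h01, hlow, hone⟩⟩

end Pool.Agent.Lib.H14U
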