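import Pool.Agent.Lib.H14U.S1a

/-! Chunk S1b of H14U (MP_ef0847_an). -/

set_option autoImplicit false

open scoped ContDiff

namespace Pool.Agent.Lib.H14U

theorem s1b_iter {d : ℕ} {F : (Fin d → ℝ) → (Fin d → ℝ)} (hF : ContDiff ℝ ∞ F) (q : ℕ) :
    ContDiff ℝ ∞ (F^[q]) := by
  induction q with
  | zero => exact contDiff_id
  | succ q ih =>
    rw [Function.iterate_succ']
    exact hF.comp ih

/-- (M) Polynomial bounds for the derivatives of `g s`.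
Proof. Let `A₀ = 8 π (q+1)^3 ≥ 1`; `A₀ ≤ 64 π q^3 ≤ 64 π N^3` (`q + 1 ≤ 2 q`).
`iteratedFDeriv i (η ∘ F^[q]) x` has norm `≤ i! * A₀^i * D^i` by `norm_iteratedFDeriv_comp_le`
with `‖D^j η‖ ≤ A₀^j ≤ A₀^i` (`A₀ ≥ 1`), `D = C N^K ≥ 1` from `growth` (order `n = i`):
`‖D^j F^q‖ ≤ D ≤ D^j` for `1 ≤ j ≤ i`. And `‖D^i η‖ ≤ A₀^i`. So
`‖D^i g‖ ≤ i! (64 π)^i N^(3i) C^i N^(K i) + (64 π)^i N^(3i) ≤ C' N^(3i + K i)`. -/
theorem Fam.poly {d : ℕ} {F G : (Fin d → ℝ) → (Fin d → ℝ)} (hS : Sys F G) (A : Fam F) (i : ℕ) :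
    ∃ C : ℝ, 0 ≤ C ∧ ∃ K : ℕ, ∀ s x, ‖iteratedFDeriv ℝ i (A.g s) x‖ ≤ C * A.N s ^ K := by
  obtain ⟨C, hC, K, hg⟩ := growth hS.smoothF hS.comm i
  have hpi : (1 : ℝ) ≤ Real.pi := by linarith [Real.pi_gt_three]
  have hC0 : (0 : ℝ) ≤ C := zero_le_one.trans hC
  have hP0 : (0 : ℝ) ≤ 64 * Real.pi := by positivity
  refine ⟨(i.factorial : ℝ) * (64 * Real.pi) ^ i * C ^ i + (64 * Real.pi) ^ i, by positivity,
    3 * i + K * i, fun s x => ?_⟩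
  obtain ⟨hN1, -, hN3⟩ := A.N_ge s
  have hN0 : (0 : ℝ) ≤ A.N s := zero_le_one.trans hN3
  have hq1 : (1 : ℝ) ≤ (A.q s : ℝ) := by exact_mod_cast A.hq1 s
  set A₀ : ℝ := 8 * Real.pi * ((A.q s : ℝ) + 1) ^ 3 with hA₀
  have hA1 : 1 ≤ A₀ := by
    have h1 : (1 : ℝ) ≤ ((A.q s : ℝ) + 1) ^ 3 := one_le_pow₀ (by linarith)
    nlinarith
  have hA0 : 0 ≤ A₀ := zero_le_one.trans hA1
  have hA2 : A₀ ≤ 64 * Real.pi * A.N s ^ 3 := by
    have h1 : ((A.q s : ℝ) + 1) ^ 3 ≤ (2 * A.N s) ^ 3 := by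
      apply pow_le_pow_left₀ (by linarith)
      linarith
    have h2 : 8 * Real.pi * ((A.q s : ℝ) + 1) ^ 3 ≤ 8 * Real.pi * (2 * A.N s) ^ 3 :=
      mul_le_mul_of_nonneg_left h1 (by positivity)
    rw [hA₀]
    refine h2.trans (le_of_eq ?_)
    ring
  obtain ⟨hη, hηb⟩ := A.hη s
  set D : ℝ := C * A.N s ^ K with hD
  have hND : (1 : ℝ) ≤ A.N s ^ K := one_le_pow₀ hN3
  have hD1 : 1 ≤ D := by
    rw [hD]
    nlinarith
  have hFq := s1b_iter hS.smoothF (A.q s)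
  have h1 : ‖iteratedFDeriv ℝ i (A.η s ∘ F^[A.q s]) x‖ ≤ i.factorial * A₀ ^ i * D ^ i := by
    apply norm_iteratedFDeriv_comp_le (N := ∞) hη hFq (by exact_mod_cast le_top) x
    · intro j hj
      exact (hηb j _).trans (pow_le_pow_right₀ hA1 hj)
    · intro j hj1 hj2
      have h2 := hg (A.q s) (A.hq1 s) (A.Γ s) (A.hΓ s) (A.q s) le_rfl j hj1 hj2 x
      refine (h2.trans (le_of_eq hD.symm)).trans ?_
      calc D = D ^ 1 := (pow_one D).symm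
        _ ≤ D ^ j := pow_le_pow_right₀ hD1 hj1
  have h2 : ‖iteratedFDeriv ℝ i (A.η s) x‖ ≤ A₀ ^ i := hηb i x
  have e1 : A.g s = (A.η s ∘ F^[A.q s]) - A.η s := rfl
  have h3 : iteratedFDeriv ℝ i (A.g s) x =
      iteratedFDeriv ℝ i (A.η s ∘ F^[A.q s]) x - iteratedFDeriv ℝ i (A.η s) x := by
    rw [e1]
    exact iteratedFDeriv_sub_apply ((hη.comp hFq).of_le (by exact_mod_cast le_top)).contDiffAt
      (hη.of_le (by exact_mod_cast le_top)).contDiffAt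
  have hApow : A₀ ^ i ≤ (64 * Real.pi) ^ i * A.N s ^ (3 * i) := by
    calc A₀ ^ i ≤ (64 * Real.pi * A.N s ^ 3) ^ i := pow_le_pow_left₀ hA0 hA2 i
      _ = (64 * Real.pi) ^ i * A.N s ^ (3 * i) := by rw [mul_pow, ← pow_mul]
  have hDpow : D ^ i = C ^ i * A.N s ^ (K * i) := by rw [hD, mul_pow, ← pow_mul]
  have hNK : (1 : ℝ) ≤ A.N s ^ (K * i) := one_le_pow₀ hN3
  have hN3i : (0 : ℝ) ≤ A.N s ^ (3 * i) := by positivity
  calc ‖iteratedFDeriv ℝ i (A.g s) x‖ ≤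
      ‖iteratedFDeriv ℝ i (A.η s ∘ F^[A.q s]) x‖ + ‖iteratedFDeriv ℝ i (A.η s) x‖ := by
        rw [h3]
        exact norm_sub_le _ _
    _ ≤ i.factorial * A₀ ^ i * D ^ i + A₀ ^ i := add_le_add h1 h2
    _ ≤ i.factorial * ((64 * Real.pi) ^ i * A.N s ^ (3 * i)) * (C ^ i * A.N s ^ (K * i)) +
        (64 * Real.pi) ^ i * A.N s ^ (3 * i) * A.N s ^ (K * i) := by
        refine add_le_add ?_ ?_
        · rw [hDpow]
          gcongr
        · refine hApow.trans ?_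
          have h5 : 0 ≤ (64 * Real.pi) ^ i * A.N s ^ (3 * i) := by positivity
          nlinarith
    _ = _ := by
        rw [pow_add]
        ring

end Pool.Agent.Lib.H14U
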