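import Pool.Agent.Lib.H14U.S1a

/-! Chunk S1c of H14U (MP_ef0847_an). -/

set_option autoImplicit false

open scoped ContDiff

namespace Pool.Agent.Lib.H14U

/-- (M) `g s` itself is super-polynomially small.
Proof. `η (F^q x) = η (F^q x - zv p)` by periodicity, so
`|g s x| ≤ ‖Dη‖ ‖F^q x - x - zv p‖ ≤ 8 π (q+1)^3 N^(-s) ≤ 64 π N^3 / N^s`
(mean value inequality, `‖Dη‖ ≤ 8 π (q+1)^3` is `Bern` with `k = 1`). For `s ≥ t + 4` and
`s ≥ 202` (so that `N ≥ 202 ≥ 64 π`): `|g| N^t ≤ 64 π N^(3 + t - s) ≤ 1`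
(write `s = t + 4 + m`, `N^s = N^t N^3 N N^m`). -/
theorem Fam.small0 {d : ℕ} {F G : (Fin d → ℝ) → (Fin d → ℝ)} (hS : Sys F G) (A : Fam F) (t : ℕ) :
    ∃ s₀ : ℕ, ∀ s, s₀ ≤ s → ∀ x, ‖iteratedFDeriv ℝ 0 (A.g s) x‖ * A.N s ^ t ≤ 1 := by
  refine ⟨t + 202, fun s hs x => ?_⟩
  rw [norm_iteratedFDeriv_zero]
  obtain ⟨hN1, hN2, hN3⟩ := A.N_ge s
  have hq1 : (1 : ℝ) ≤ (A.q s : ℝ) := by exact_mod_cast A.hq1 s
  have hpi0 : (0 : ℝ) < Real.pi := Real.pi_pos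
  have hpi : Real.pi < 3.15 := Real.pi_lt_d2
  set N : ℝ := A.N s with hN
  set q : ℝ := (A.q s : ℝ) with hq
  -- the mean value inequality
  have hη := A.hη s
  have hdiff : Differentiable ℝ (A.η s) := hη.1.differentiable (by simp)
  have hbd : ∀ y, ‖fderiv ℝ (A.η s) y‖ ≤ 8 * Real.pi * (q + 1) ^ 3 := by
    intro y
    have h1 := hη.2 1 y
    rw [pow_one, norm_iteratedFDeriv_one] at h1
    exact h1
  have hmv : ∀ y z, ‖A.η s y - A.η s z‖ ≤ 8 * Real.pi * (q + 1) ^ 3 * ‖y - z‖ := by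
    intro y z
    exact Convex.norm_image_sub_le_of_norm_fderiv_le (𝕜 := ℝ) (s := Set.univ)
      (fun w _ => hdiff w) (fun w _ => hbd w) convex_univ (Set.mem_univ z) (Set.mem_univ y)
  set y : Fin d → ℝ := F^[A.q s] x - zv (A.p s) with hy
  have hper : A.η s (F^[A.q s] x) = A.η s y := by
    have h1 := A.hper s y (A.p s)
    have h2 : y + zv (A.p s) = F^[A.q s] x := by rw [hy]; abel
    rw [h2] at h1
    exact h1
  set δ : ℝ := ‖F^[A.q s] x - x - zv (A.p s)‖ with hδ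
  have hδ0 : 0 ≤ δ := norm_nonneg _
  have hg : ‖A.g s x‖ ≤ 8 * Real.pi * (q + 1) ^ 3 * δ := by
    have h1 := hmv y x
    have h2 : y - x = F^[A.q s] x - x - zv (A.p s) := by rw [hy]; abel
    rw [h2] at h1
    have h3 : A.g s x = A.η s y - A.η s x := by
      change A.η s (F^[A.q s] x) - A.η s x = _
      rw [hper]
    rw [h3]
    exact h1
  have hsm : δ * N ^ s ≤ 1 := A.hp s x
  have hN0 : 0 < N := by linarith
  have hNs : (202 : ℝ) ≤ N := by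
    have h1 : (202 : ℝ) ≤ (s : ℝ) := by
      have : 202 ≤ s := by omega
      exact_mod_cast this
    linarith
  have hq3 : (q + 1) ^ 3 ≤ 8 * N ^ 3 := by
    have h1 : q + 1 ≤ 2 * N := by linarith
    have h2 : (q + 1) ^ 3 ≤ (2 * N) ^ 3 := pow_le_pow_left₀ (by linarith) h1 3
    have h3 : (2 * N) ^ 3 = 8 * N ^ 3 := by ring
    rw [h3] at h2
    exact h2
  obtain ⟨m, hm⟩ : ∃ m, s = t + 4 + m := ⟨s - (t + 4), by omega⟩
  have hNm : (1 : ℝ) ≤ N ^ m := one_le_pow₀ hN3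
  have hNt : (0 : ℝ) ≤ N ^ t := by positivity
  calc ‖A.g s x‖ * N ^ t ≤ (8 * Real.pi * (q + 1) ^ 3 * δ) * N ^ t :=
        mul_le_mul_of_nonneg_right hg hNt
    _ ≤ (8 * Real.pi * (8 * N ^ 3) * δ) * N ^ t := by
        gcongr
    _ = (64 * Real.pi) * (N ^ 3 * δ * N ^ t) := by ring
    _ ≤ (N * N ^ m) * (N ^ 3 * δ * N ^ t) := by
        have h1 : 64 * Real.pi ≤ N * N ^ m := by
          have h2 : 64 * Real.pi ≤ N := by linarith
          have h3 : N * 1 ≤ N * N ^ m := mul_le_mul_of_nonneg_left hNm hN0.le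
          linarith
        exact mul_le_mul_of_nonneg_right h1 (by positivity)
    _ = δ * N ^ s := by rw [hm]; ring
    _ ≤ 1 := hsm

end Pool.Agent.Lib.H14U
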