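import Pool.Agent.Lib.H14U.S1b
import Pool.Agent.Lib.H14U.S1c

/-! Chunk S1d of H14U (MP_ef0847_an). -/

set_option autoImplicit false

open scoped ContDiff

namespace Pool.Agent.Lib.H14U

/-- (M) All derivatives are super-polynomially small. Induction on `i` with `landau_iter`.
Step. Given `t`. Let `C, K` be from `Fam.poly` for `i + 2`. Use `landau_iter` with
`a = (N^T)⁻¹`, `T = K + 2 t + 2`, `b = C N^K`, and the parameter `τ = (N^(K+t+1))⁻¹`:
`‖D^(i+1) g‖ ≤ 2 N^(K+t+1) / N^T + C N^K / N^(K+t+1) = 2 / N^(t+1) + C / N^(t+1)`, so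
`‖D^(i+1) g‖ N^t ≤ (2 + C) / N ≤ 1` for `s ≥ 2 + C` (`N s ≥ s`). `A.g s` is smooth
(`iter_smooth`). -/
theorem Fam.small {d : ℕ} {F G : (Fin d → ℝ) → (Fin d → ℝ)} (hS : Sys F G) (A : Fam F) (i : ℕ) :
    ∀ t : ℕ, ∃ s₀ : ℕ, ∀ s, s₀ ≤ s → ∀ x, ‖iteratedFDeriv ℝ i (A.g s) x‖ * A.N s ^ t ≤ 1 := by
  induction i with
  | zero => exact fun t => A.small0 hS t
  | succ i ih =>
    intro t
    obtain ⟨C, hC0, K, hCK⟩ := A.poly hS (i + 2)
    obtain ⟨s₁, h₁⟩ := ih (K + 2 * t + 2)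
    obtain ⟨s₂, h₂⟩ := exists_nat_ge (2 + C)
    refine ⟨max s₁ s₂, fun s hs x => ?_⟩
    have hs1 : s₁ ≤ s := le_trans (le_max_left _ _) hs
    have hs2 : s₂ ≤ s := le_trans (le_max_right _ _) hs
    obtain ⟨-, hN2, hN1⟩ := A.N_ge s
    have hN0 : 0 < A.N s := by linarith
    have hNC : 2 + C ≤ A.N s := by
      have : (s₂ : ℝ) ≤ s := by exact_mod_cast hs2
      linarith
    have hsm : ContDiff ℝ ∞ (A.g s) :=
      ((A.hη s).1.comp (iter_smooth hS.smoothF _)).sub (A.hη s).1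
    have key := landau_iter hsm i (1 / A.N s ^ (K + 2 * t + 2)) (C * A.N s ^ K)
      (fun y => by
        rw [le_div_iff₀ (by positivity)]
        exact h₁ s hs1 y)
      (fun y => hCK s y) (1 / A.N s ^ (K + t + 1)) (by positivity) x
    calc ‖iteratedFDeriv ℝ (i + 1) (A.g s) x‖ * A.N s ^ t
        ≤ (2 * (1 / A.N s ^ (K + 2 * t + 2)) / (1 / A.N s ^ (K + t + 1)) +
            C * A.N s ^ K * (1 / A.N s ^ (K + t + 1))) * A.N s ^ t :=
          mul_le_mul_of_nonneg_right key (by positivity)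
      _ = (2 + C) / A.N s := by
          have e1 : A.N s ^ (K + 2 * t + 2) = A.N s ^ K * A.N s ^ t * A.N s ^ t * A.N s * A.N s := by
            ring
          have e2 : A.N s ^ (K + t + 1) = A.N s ^ K * A.N s ^ t * A.N s := by ring
          rw [e1, e2]
          field_simp
      _ ≤ 1 := by
          rw [div_le_one hN0]
          exact hNC

end Pool.Agent.Lib.H14U
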