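import Pool.Agent.Lib.H14U.S1d

/-! Chunk S1e of H14U (MP_ef0847_an). -/

set_option autoImplicit false

open scoped ContDiff

namespace Pool.Agent.Lib.H14U

/-- The iterates commute with integer translations. -/
theorem s1e_iter_comm {d : ℕ} {F : (Fin d → ℝ) → (Fin d → ℝ)}
    (hc : ∀ (x : Fin d → ℝ) (k : Fin d → ℤ), F (x + zv k) = F x + zv k) (m : ℕ) :
    ∀ (x : Fin d → ℝ) (k : Fin d → ℤ), F^[m] (x + zv k) = F^[m] x + zv k := by
  induction m with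
  | zero => intro x k; rfl
  | succ m ih =>
    intro x k
    rw [Function.iterate_succ_apply', ih, hc, ← Function.iterate_succ_apply' F m x]

theorem s1e_tele {X : Type*} (F : X → X) (f : X → ℝ) (q : ℕ) (x : X) :
    ∑ m ∈ Finset.range q, f (F^[m] (F x)) - ∑ m ∈ Finset.range q, f (F^[m] x) =
      f (F^[q] x) - f x := by
  induction q with
  | zero => simp
  | succ q ih =>
    rw [Finset.sum_range_succ, Finset.sum_range_succ, ← Function.iterate_succ_apply F q x]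
    linarith

/-- One term of the bad sequence. -/
theorem s1e_one {d : ℕ} {F G : (Fin d → ℝ) → (Fin d → ℝ)} (hS : Sys F G) (A : Fam F) (j : ℕ) :
    ∃ ψ : (Fin d → ℝ) → ℝ, ContDiff ℝ ∞ ψ ∧ Per ψ ∧ (∃ x y, (j : ℝ) ≤ |ψ x - ψ y|) ∧
      (∀ i : ℕ, i ≤ j → ∀ x, ‖iteratedFDeriv ℝ i (fun y => ψ (F y) - ψ y) x‖
        ≤ (1 / 2 : ℝ) ^ j) := by
  -- the threshold for the orders up to j
  obtain ⟨s₀, hs₀⟩ : ∃ s₀ : ℕ, ∀ i, i ≤ j → ∀ s, s₀ ≤ s → ∀ x,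
      ‖iteratedFDeriv ℝ i (A.g s) x‖ * A.N s ^ 1 ≤ 1 := by
    choose b hb using fun i => Fam.small hS A i 1
    refine ⟨∑ i ∈ Finset.range (j + 1), b i, fun i hi s hs x => ?_⟩
    have h1 : b i ≤ ∑ i ∈ Finset.range (j + 1), b i :=
      Finset.single_le_sum (f := b) (fun _ _ => Nat.zero_le _) (Finset.mem_range.2 (by omega))
    exact hb i s (h1.trans hs) x
  set s : ℕ := max s₀ (2 * (j + 1) * 2 ^ j) with hsdef
  have hs1 : 2 * (j + 1) * 2 ^ j ≤ s := le_max_right _ _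
  have hspos : 0 < s := lt_of_lt_of_le (by positivity) hs1
  have hcoef : (0 : ℝ) ≤ 2 * ((j : ℝ) + 1) := by positivity
  have hterm : ∀ m, ContDiff ℝ ∞ (fun x => A.η s (F^[m] x)) := fun m =>
    (A.hη s).1.comp (iter_smooth hS.smoothF m)
  have hgs : ContDiff ℝ ∞ (A.g s) := (hterm (A.q s)).sub (A.hη s).1
  refine ⟨fun x => 2 * ((j : ℝ) + 1) * ∑ m ∈ Finset.range (A.q s), A.η s (F^[m] x), ?_, ?_, ?_, ?_⟩
  · exact contDiff_const.mul (ContDiff.sum fun m _ => hterm m)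
  · intro x k
    have h1 : ∀ m ∈ Finset.range (A.q s), A.η s (F^[m] (x + zv k)) = A.η s (F^[m] x) := by
      intro m _
      rw [s1e_iter_comm hS.comm, A.hper s]
    simp only [Finset.sum_congr rfl h1]
  · obtain ⟨w, hw⟩ := A.hone s
    refine ⟨w, 0, ?_⟩
    have h1 : (1 : ℝ) ≤ ∑ m ∈ Finset.range (A.q s), A.η s (F^[m] w) := by
      have h2 := Finset.single_le_sum (f := fun m => A.η s (F^[m] w))
        (fun m _ => (A.h01 s _).1) (Finset.mem_range.2 (A.hq1 s))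
      simp only [Function.iterate_zero, id_eq, hw] at h2
      exact h2
    have h2 := A.hlow s
    have h3 : 2 * ((j : ℝ) + 1) * (1 / 2) ≤ 2 * ((j : ℝ) + 1) * (∑ m ∈ Finset.range (A.q s), A.η s (F^[m] w)) -
        2 * ((j : ℝ) + 1) * ∑ m ∈ Finset.range (A.q s), A.η s (F^[m] 0) := by
      rw [← mul_sub]
      exact mul_le_mul_of_nonneg_left (by linarith) hcoef
    refine le_trans ?_ (le_abs_self _)
    refine le_trans ?_ h3
    linarith
  · intro i hi x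
    have hfun : (fun y => 2 * ((j : ℝ) + 1) * ∑ m ∈ Finset.range (A.q s), A.η s (F^[m] (F y)) -
        2 * ((j : ℝ) + 1) * ∑ m ∈ Finset.range (A.q s), A.η s (F^[m] y)) =
        (fun y => (2 * ((j : ℝ) + 1)) • A.g s y) := by
      funext y
      rw [← mul_sub, s1e_tele F (A.η s) (A.q s) y, smul_eq_mul]
      rfl
    simp only [hfun]
    have h1 : iteratedFDeriv ℝ i (fun y => (2 * ((j : ℝ) + 1)) • A.g s y) x =
        (2 * ((j : ℝ) + 1)) • iteratedFDeriv ℝ i (A.g s) x := by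
      have h0 : ContDiffAt ℝ (i : ℕ∞) (A.g s) x := (hgs.of_le (by exact_mod_cast le_top)).contDiffAt
      exact iteratedFDeriv_const_smul_apply (a := 2 * ((j : ℝ) + 1)) h0
    rw [h1, norm_smul, Real.norm_eq_abs, abs_of_nonneg hcoef]
    have h2 := hs₀ i hi s (le_max_left _ _) x
    rw [pow_one] at h2
    have h3 := (A.N_ge s).2.1
    have h4 : (2 * ((j : ℝ) + 1)) * 2 ^ j ≤ (s : ℝ) := by exact_mod_cast hs1
    have h5 : ‖iteratedFDeriv ℝ i (A.g s) x‖ * ((2 * ((j : ℝ) + 1)) * 2 ^ j) ≤ 1 :=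
      le_trans (mul_le_mul_of_nonneg_left (h4.trans h3) (norm_nonneg _)) h2
    have h6 : (0 : ℝ) < 2 ^ j := by positivity
    rw [one_div, inv_pow, ← one_div, le_div_iff₀ h6]
    calc 2 * ((j : ℝ) + 1) * ‖iteratedFDeriv ℝ i (A.g s) x‖ * 2 ^ j
        = ‖iteratedFDeriv ℝ i (A.g s) x‖ * ((2 * ((j : ℝ) + 1)) * 2 ^ j) := by ring
      _ ≤ 1 := h5

/-- (M) The bad sequence: smooth periodic `ψ j` with oscillation `≥ j` and `‖D^i(ψ∘F - ψ)‖ ≤ 2^{-j}`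
for `i ≤ j`.
Proof. `exists_fam`. For given `j` choose `s` with `s ≥ 2 (j+1) 2^j`, `s ≥ 1` and
`‖D^i (g s)‖ N s ≤ 1` for all `i ≤ j` (`Fam.small` with `t = 1`, finitely many `i`: take the
maximum of the `s₀`). `ψ j x = 2 (j+1) ∑_{m < q s} η s (F^[m] x)`. Then
`ψ (F x) - ψ x = 2 (j+1) (η s (F^[q s] x) - η s x)` (telescoping, `Finset.sum_range_succ`,
`Finset.sum_range_succ'`), so `‖D^i(..)‖ = 2 (j+1) ‖D^i (g s)‖ ≤ 2 (j+1) / s ≤ (1/2)^j`.
`ψ j w ≥ 2 (j+1)` at the point `w` with `η s w = 1` (all terms are `≥ 0`, `m = 0` gives `1`,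
`q s ≥ 1`), `ψ j 0 ≤ 2 (j+1) / 2`. -/
theorem bad_sequence {d : ℕ} (hd : 1 ≤ d) {F G : (Fin d → ℝ) → (Fin d → ℝ)} (hS : Sys F G)
    (h : Crit F) : ∃ ψ : ℕ → (Fin d → ℝ) → ℝ, (∀ j, ContDiff ℝ ∞ (ψ j)) ∧ (∀ j, Per (ψ j)) ∧
      (∀ j : ℕ, ∃ x y, (j : ℝ) ≤ |ψ j x - ψ j y|) ∧
      (∀ j i : ℕ, i ≤ j → ∀ x, ‖iteratedFDeriv ℝ i (fun y => ψ j (F y) - ψ j y) x‖
        ≤ (1 / 2 : ℝ) ^ j) := by
  obtain ⟨A⟩ := exists_fam hd h
  choose ψ h1 h2 h3 h4 using fun j => s1e_one hS A j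
  exact ⟨ψ, h1, h2, h3, h4⟩

end Pool.Agent.Lib.H14U
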