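import Pool.Agent.Lib.H14U.Defs

/-! Chunk T1a of H14U (MP_ef0847_an). -/

set_option autoImplicit false

open scoped ContDiff

namespace Pool.Agent.Lib.H14U

/-- The projection `ℝ^d → 𝕋^d`. -/
def pr {d : ℕ} (x : Fin d → ℝ) : Fin d → AddCircle (1 : ℝ) := fun i => ((x i : ℝ) : AddCircle (1 : ℝ))

theorem t1a_eq_iff {a b : ℝ} (h : ((a : ℝ) : AddCircle (1 : ℝ)) = ((b : ℝ) : AddCircle (1 : ℝ))) :
    ∃ n : ℤ, a = b + n := by
  rw [eq_comm, ← sub_eq_zero] at h
  have h2 : (((b - a : ℝ)) : AddCircle (1 : ℝ)) = 0 := by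
    rw [AddCircle.coe_sub]; exact h
  rw [AddCircle.coe_eq_zero_iff] at h2
  obtain ⟨n, hn⟩ := h2
  refine ⟨-n, ?_⟩
  have : (n : ℝ) = b - a := by simpa using hn
  push_cast
  linarith

/-- (S) The projection is additive, continuous, surjective and `pr (x + zv k) = pr x`. -/
theorem pr_basic {d : ℕ} : Continuous (pr (d := d)) ∧ Function.Surjective (pr (d := d)) ∧
    (∀ x y : Fin d → ℝ, pr (x + y) = pr x + pr y) ∧
    (∀ (x : Fin d → ℝ) (k : Fin d → ℤ), pr (x + zv k) = pr x) := by
  refine ⟨?_, ?_, ?_, ?_⟩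
  · refine continuous_pi fun i => ?_
    exact (AddCircle.continuous_mk' (1 : ℝ)).comp (continuous_apply i)
  · intro y
    choose f hf using fun i => QuotientAddGroup.mk_surjective (y i)
    exact ⟨f, funext hf⟩
  · intro x y
    funext i
    simp [pr]
  · intro x k
    funext i
    simp only [pr, zv, Pi.add_apply]
    rw [AddCircle.coe_add]
    have : (((k i : ℤ) : ℝ) : AddCircle (1 : ℝ)) = 0 := by
      rw [AddCircle.coe_eq_zero_iff]
      exact ⟨k i, by simp⟩
    rw [this, add_zero]

/-- (S) Points with the same projection differ by an integer vector. -/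
theorem pr_eq {d : ℕ} {x y : Fin d → ℝ} (h : pr x = pr y) : ∃ k : Fin d → ℤ, x = y + zv k := by
  choose k hk using fun i => t1a_eq_iff (congrFun h i)
  exact ⟨k, funext fun i => by simpa [zv] using hk i⟩

/-- (M) A continuous periodic function descends to a continuous function on the torus.
Proof: `pr` is a quotient map: it is the product of the open quotient maps `ℝ → AddCircle 1`
(`IsOpenQuotientMap`: `IsOpenQuotientMap.piMap` or similar; `QuotientAddGroup.isOpenQuotientMap_mk`).
Define the function by a section of `pr` (`Function.surjInv`), continuity by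
`IsQuotientMap.continuous_iff`. -/
theorem descend {d : ℕ} {ψ : (Fin d → ℝ) → ℝ} (hc : Continuous ψ) (hp : Per ψ) :
    ∃ g : (Fin d → AddCircle (1 : ℝ)) → ℝ, Continuous g ∧ ∀ x, ψ x = g (pr x) := by
  have hq : IsOpenQuotientMap (pr (d := d)) := by
    have := IsOpenQuotientMap.piMap (fun _ : Fin d =>
      (QuotientAddGroup.isOpenQuotientMap_mk :
        IsOpenQuotientMap (QuotientAddGroup.mk : ℝ → ℝ ⧸ AddSubgroup.zmultiples (1 : ℝ))))
    exact this
  have key : ∀ x, ψ x = ψ (Function.surjInv hq.surjective (pr x)) := by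
    intro x
    obtain ⟨k, hk⟩ := pr_eq (Function.surjInv_eq hq.surjective (pr x))
    rw [hk, hp]
  refine ⟨fun t => ψ (Function.surjInv hq.surjective t), ?_, key⟩
  rw [hq.isQuotientMap.continuous_iff]
  have : (fun t => ψ (Function.surjInv hq.surjective t)) ∘ pr = ψ := by
    funext x; exact (key x).symm
  rw [this]
  exact hc

end Pool.Agent.Lib.H14U
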