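import Pool.Agent.Lib.H14U.T1a

/-! Chunk T1b of H14U (MP_ef0847_an). -/

set_option autoImplicit false

open scoped ContDiff

namespace Pool.Agent.Lib.H14U

theorem t1b_add {d : ℕ} (n : Fin d → ℤ) (y z : UnitAddTorus (Fin d)) :
    UnitAddTorus.mFourier n (y + z) = UnitAddTorus.mFourier n y * UnitAddTorus.mFourier n z := by
  simp only [UnitAddTorus.mFourier, ContinuousMap.coe_mk, ← Finset.prod_mul_distrib]
  refine Finset.prod_congr rfl fun i _ => ?_
  rw [Pi.add_apply, fourier_apply, fourier_apply, fourier_apply, smul_add, AddCircle.toCircle_add,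
    Circle.coe_mul]

theorem t1b_zero {d : ℕ} (n : Fin d → ℤ) :
    UnitAddTorus.mFourier n (0 : UnitAddTorus (Fin d)) = 1 := by
  simp [UnitAddTorus.mFourier]

theorem t1b_pow {d : ℕ} (n : Fin d → ℤ) (y a : UnitAddTorus (Fin d)) (m : ℕ) :
    UnitAddTorus.mFourier n (y + m • a) =
      UnitAddTorus.mFourier n y * UnitAddTorus.mFourier n a ^ m := by
  induction m with
  | zero => rw [zero_smul, add_zero, pow_zero, mul_one]
  | succ m ih => rw [succ_nsmul, ← add_assoc, t1b_add, ih, pow_succ, mul_assoc]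

theorem t1b_norm {d : ℕ} (n : Fin d → ℤ) (y : UnitAddTorus (Fin d)) :
    ‖UnitAddTorus.mFourier n y‖ = 1 := by
  simp only [UnitAddTorus.mFourier, ContinuousMap.coe_mk, norm_prod, fourier_apply,
    Circle.norm_coe, Finset.prod_const_one]

theorem t1b_ne {d : ℕ} (α : Fin d → ℝ)
    (hα : ∀ k : Fin d → ℤ, k ≠ 0 → ∀ m : ℤ, ∑ i, (k i : ℝ) * α i ≠ (m : ℝ))
    {n : Fin d → ℤ} (hn : n ≠ 0) :
    UnitAddTorus.mFourier n (pr α : UnitAddTorus (Fin d)) ≠ 1 := by
  intro h
  have h1 : UnitAddTorus.mFourier n (pr α : UnitAddTorus (Fin d)) =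
      Complex.exp (∑ i, 2 * Real.pi * Complex.I * ((n i : ℂ) * (α i : ℂ))) := by
    rw [Complex.exp_sum]
    simp only [UnitAddTorus.mFourier, ContinuousMap.coe_mk]
    refine Finset.prod_congr rfl fun i _ => ?_
    unfold pr
    rw [fourier_coe_apply]
    congr 1
    push_cast
    ring
  rw [h1, Complex.exp_eq_one_iff] at h
  obtain ⟨m, hm⟩ := h
  rw [← Finset.mul_sum] at hm
  have h2 : (2 * Real.pi * Complex.I : ℂ) ≠ 0 := Complex.two_pi_I_ne_zero
  have h3 : (∑ i, (n i : ℂ) * (α i : ℂ)) = (m : ℂ) := by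
    apply mul_left_cancel₀ h2
    rw [hm]
    ring
  apply hα n hn m
  have h4 : ((∑ i, (n i : ℝ) * α i : ℝ) : ℂ) = ((m : ℝ) : ℂ) := by
    push_cast
    exact h3
  exact_mod_cast h4

/-- averages along the orbit -/
noncomputable def t1b_avg {d : ℕ} (a : UnitAddTorus (Fin d)) (f : C(UnitAddTorus (Fin d), ℂ))
    (N : ℕ) (y : UnitAddTorus (Fin d)) : ℂ :=
  (N : ℂ)⁻¹ * ∑ m ∈ Finset.range N, f (y + m • a)

theorem t1b_avg_le {d : ℕ} (a : UnitAddTorus (Fin d)) (f : C(UnitAddTorus (Fin d), ℂ))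
    (N : ℕ) (y : UnitAddTorus (Fin d)) : ‖t1b_avg a f N y‖ ≤ ‖f‖ := by
  unfold t1b_avg
  rw [norm_mul, norm_inv, Complex.norm_natCast]
  have h1 : ‖∑ m ∈ Finset.range N, f (y + m • a)‖ ≤ N * ‖f‖ := by
    refine (norm_sum_le _ _).trans ?_
    refine (Finset.sum_le_sum fun m _ => f.norm_coe_le_norm (y + m • a)).trans ?_
    rw [Finset.sum_const, Finset.card_range, nsmul_eq_mul]
  rcases Nat.eq_zero_or_pos N with hN | hN
  · subst hN
    simp
  · have h2 : (0 : ℝ) < N := by exact_mod_cast hN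
    rw [inv_mul_le_iff₀ h2]
    exact h1

theorem t1b_avg_sub {d : ℕ} (a : UnitAddTorus (Fin d)) (f g : C(UnitAddTorus (Fin d), ℂ))
    (N : ℕ) (y : UnitAddTorus (Fin d)) :
    t1b_avg a (f - g) N y = t1b_avg a f N y - t1b_avg a g N y := by
  unfold t1b_avg
  rw [← mul_sub, ← Finset.sum_sub_distrib]
  rfl

open Filter Topology in
theorem t1b_span {d : ℕ} (α : Fin d → ℝ)
    (hα : ∀ k : Fin d → ℤ, k ≠ 0 → ∀ m : ℤ, ∑ i, (k i : ℝ) * α i ≠ (m : ℝ))
    {P : C(UnitAddTorus (Fin d), ℂ)}
    (hP : P ∈ Submodule.span ℂ (Set.range (UnitAddTorus.mFourier (d := Fin d))))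
    (y z : UnitAddTorus (Fin d)) :
    Tendsto (fun N => t1b_avg (pr α) P N y - t1b_avg (pr α) P N z) atTop (𝓝 0) := by
  induction hP using Submodule.span_induction with
  | mem x hx =>
    obtain ⟨n, rfl⟩ := hx
    by_cases hn : n = 0
    · subst hn
      have h1 : ∀ N : ℕ, t1b_avg (pr α) (UnitAddTorus.mFourier (0 : Fin d → ℤ)) N y -
          t1b_avg (pr α) (UnitAddTorus.mFourier (0 : Fin d → ℤ)) N z = 0 := by
        intro N
        unfold t1b_avg
        simp only [UnitAddTorus.mFourier_zero, ContinuousMap.one_apply, sub_self]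
      simp only [h1]
      exact tendsto_const_nhds
    · have hw := t1b_ne α hα hn
      have h1 : ∀ y : UnitAddTorus (Fin d),
          Tendsto (fun N => t1b_avg (pr α) (UnitAddTorus.mFourier n) N y) atTop (𝓝 0) := by
        intro y
        have hw0 : 0 < ‖UnitAddTorus.mFourier n (pr α : UnitAddTorus (Fin d)) - 1‖ :=
          norm_pos_iff.2 (sub_ne_zero.2 hw)
        have h2 : ∀ N : ℕ, ‖t1b_avg (pr α) (UnitAddTorus.mFourier n) N y‖ ≤
            (N : ℝ)⁻¹ * (2 / ‖UnitAddTorus.mFourier n (pr α : UnitAddTorus (Fin d)) - 1‖) := by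
          intro N
          unfold t1b_avg
          rw [norm_mul, norm_inv, Complex.norm_natCast]
          refine mul_le_mul_of_nonneg_left ?_ (by positivity)
          simp only [t1b_pow]
          rw [← Finset.mul_sum, norm_mul, t1b_norm, one_mul, geom_sum_eq hw, norm_div]
          refine div_le_div_of_nonneg_right ?_ hw0.le
          refine (norm_sub_le _ _).trans ?_
          rw [norm_pow, t1b_norm, one_pow, norm_one]
          norm_num
        refine squeeze_zero_norm h2 ?_
        have h3 := (tendsto_inv_atTop_nhds_zero_nat (𝕜 := ℝ)).mul_const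
          (2 / ‖UnitAddTorus.mFourier n (pr α : UnitAddTorus (Fin d)) - 1‖)
        rwa [zero_mul] at h3
      have h4 := (h1 y).sub (h1 z)
      rwa [sub_zero] at h4
  | zero =>
    have h1 : ∀ N : ℕ, t1b_avg (pr α) (0 : C(UnitAddTorus (Fin d), ℂ)) N y -
        t1b_avg (pr α) (0 : C(UnitAddTorus (Fin d), ℂ)) N z = 0 := by
      intro N
      unfold t1b_avg
      simp only [ContinuousMap.zero_apply, sub_self]
    simp only [h1]
    exact tendsto_const_nhds
  | add f g _ _ hf hg =>
    have h1 : ∀ N : ℕ, t1b_avg (pr α) (f + g) N y - t1b_avg (pr α) (f + g) N z =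
        (t1b_avg (pr α) f N y - t1b_avg (pr α) f N z) +
          (t1b_avg (pr α) g N y - t1b_avg (pr α) g N z) := by
      intro N
      unfold t1b_avg
      simp only [ContinuousMap.add_apply, Finset.sum_add_distrib]
      ring
    simp only [h1]
    have h2 := hf.add hg
    rwa [add_zero] at h2
  | smul c f _ hf =>
    have h1 : ∀ N : ℕ, t1b_avg (pr α) (c • f) N y - t1b_avg (pr α) (c • f) N z =
        c * (t1b_avg (pr α) f N y - t1b_avg (pr α) f N z) := by
      intro N
      unfold t1b_avg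
      simp only [ContinuousMap.smul_apply, smul_eq_mul, ← Finset.mul_sum]
      ring
    simp only [h1]
    have h2 := hf.const_mul c
    rwa [mul_zero] at h2

/-- (M) Continuous functions on the torus invariant under an irrational translation are constant.
Proof. `UnitAddTorus (Fin d)` is `Fin d → UnitAddCircle`, `UnitAddCircle = AddCircle (1 : ℝ)`.
View `g` as a complex valued continuous function. For `n ≠ 0`:
`mFourierCoeff g n = ∫ mFourier (-n) t * g t = ∫ mFourier (-n) (t + a) * g (t + a)`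
(translation invariance of the Haar measure, `MeasureTheory.integral_add_right_eq_self`)
`= exp (-2 π i n·α) * mFourierCoeff g n`, and `exp (-2 π i n·α) ≠ 1` by irrationality, so the
coefficient is `0`. Hence `g - c` (`c` = coefficient `0`) has all coefficients `0`, so `g = c`
almost everywhere (`mFourierBasis`, injectivity of `repr`; `mFourierBasis_repr`), and everywhere by
continuity (`Continuous.ae_eq_iff_eq`, the measure is positive on open sets).
Alternative without `L²`: by `UnitAddTorus.span_mFourier_closure_eq_top` approximate `g` uniformly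
by a trigonometric polynomial `P`; the averages `(1/N) ∑_{m<N} P (y + m α)` converge to the constant
coefficient of `P` for every `y` (geometric sums), while the averages of `g` are `g y`; so
`|g y - g z| ≤ 2 ε`. -/
theorem invariant_const {d : ℕ} (α : Fin d → ℝ)
    (hα : ∀ k : Fin d → ℤ, k ≠ 0 → ∀ m : ℤ, ∑ i, (k i : ℝ) * α i ≠ (m : ℝ))
    (g : (Fin d → AddCircle (1 : ℝ)) → ℝ) (hg : Continuous g)
    (hinv : ∀ y, g (y + pr α) = g y) : ∀ y z, g y = g z := by
  intro y z
  obtain ⟨f, hf⟩ : ∃ f : C(UnitAddTorus (Fin d), ℂ), ∀ y, f y = (g y : ℂ) :=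
    ⟨⟨fun y => (g y : ℂ), Complex.continuous_ofReal.comp hg⟩, fun y => rfl⟩
  have hinv' : ∀ (m : ℕ) (y : UnitAddTorus (Fin d)), f (y + m • (pr α)) = f y := by
    intro m y
    induction m with
    | zero => rw [zero_smul, add_zero]
    | succ m ih => rw [succ_nsmul, ← add_assoc, hf, hinv, ← hf, ih]
  have havg : ∀ N : ℕ, 0 < N → ∀ y, t1b_avg (pr α) f N y = f y := by
    intro N hN y
    unfold t1b_avg
    simp only [hinv', Finset.sum_const, Finset.card_range, nsmul_eq_mul]
    have h1 : (N : ℂ) ≠ 0 := by exact_mod_cast hN.ne'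
    rw [← mul_assoc, inv_mul_cancel₀ h1, one_mul]
  have hkey : ∀ ε : ℝ, 0 < ε → ‖f y - f z‖ ≤ 3 * ε := by
    intro ε hε
    have h1 : f ∈ closure ((Submodule.span ℂ (Set.range (UnitAddTorus.mFourier (d := Fin d))) :
        Submodule ℂ C(UnitAddTorus (Fin d), ℂ)) : Set C(UnitAddTorus (Fin d), ℂ)) := by
      rw [← Submodule.topologicalClosure_coe, UnitAddTorus.span_mFourier_closure_eq_top]
      trivial
    obtain ⟨P, hP, hPf⟩ := Metric.mem_closure_iff.1 h1 ε hε
    rw [dist_eq_norm] at hPf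
    have h2 := t1b_span α hα hP y z
    have h3 := Metric.tendsto_atTop.1 h2 ε hε
    obtain ⟨N, hN⟩ := h3
    have h4 := hN (N + 1) (by omega)
    rw [dist_zero_right] at h4
    have h5 : f y - f z = t1b_avg (pr α) (f - P) (N + 1) y - t1b_avg (pr α) (f - P) (N + 1) z +
        (t1b_avg (pr α) P (N + 1) y - t1b_avg (pr α) P (N + 1) z) := by
      rw [t1b_avg_sub, t1b_avg_sub, havg _ (by omega), havg _ (by omega)]
      ring
    rw [h5]
    have h6 := t1b_avg_le (pr α) (f - P) (N + 1) y
    have h7 := t1b_avg_le (pr α) (f - P) (N + 1) z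
    refine (norm_add_le _ _).trans ?_
    have h8 := norm_sub_le (t1b_avg (pr α) (f - P) (N + 1) y) (t1b_avg (pr α) (f - P) (N + 1) z)
    linarith
  have h0 : ‖f y - f z‖ = 0 := by
    by_contra hne
    have hpos : 0 < ‖f y - f z‖ := lt_of_le_of_ne (norm_nonneg _) (Ne.symm hne)
    have := hkey (‖f y - f z‖ / 6) (by linarith)
    linarith
  have h1 := sub_eq_zero.1 (norm_eq_zero.1 h0)
  rw [hf, hf] at h1
  exact_mod_cast h1

end Pool.Agent.Lib.H14U
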