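import Pool.Agent.Lib.H14U.T1a

/-! Chunk T2a of H14U (MP_ef0847_an). -/

set_option autoImplicit false

open scoped ContDiff

namespace Pool.Agent.Lib.H14U

/-- (S) `dist (pr x) (pr y) ≤ ‖x - y‖`, more precisely if `|x i - y i - k i| ≤ ρ` for all `i` then
`dist (pr x) (pr y) ≤ ρ` (`ρ ≥ 0`). From the description of the norm of `AddCircle`:
`AddCircle.norm_eq` (`‖(x : AddCircle 1)‖ = |x - round x|`, `round_le`), `dist_pi_le_iff`. -/
theorem dist_pr_le {d : ℕ} {x y : Fin d → ℝ} {ρ : ℝ} (hρ : 0 ≤ ρ) (k : Fin d → ℤ)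
    (h : ∀ i, |x i - y i - k i| ≤ ρ) : dist (pr x) (pr y) ≤ ρ := by
  rw [dist_pi_le_iff hρ]
  intro i
  rw [dist_eq_norm]
  have h1 : pr x i - pr y i = ((x i - y i : ℝ) : AddCircle (1 : ℝ)) := by
    simp only [pr]; rw [AddCircle.coe_sub]
  rw [h1, AddCircle.norm_eq]
  simp only [inv_one, one_mul, mul_one]
  exact (round_le (x i - y i) (k i)).trans (h i)

/-- (S) Conversely, `dist (pr x) (pr y) ≤ ρ` gives an integer vector (rounding) with
`‖x - y - zv k‖ ≤ ρ`. -/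
theorem exists_of_dist_pr {d : ℕ} {x y : Fin d → ℝ} {ρ : ℝ} (h : dist (pr x) (pr y) ≤ ρ) :
    ∃ k : Fin d → ℤ, ‖x - y - zv k‖ ≤ ρ := by
  have hρ : 0 ≤ ρ := dist_nonneg.trans h
  refine ⟨fun i => round (x i - y i), ?_⟩
  rw [pi_norm_le_iff_of_nonneg hρ]
  intro i
  rw [dist_pi_le_iff hρ] at h
  have h0 := h i
  rw [dist_eq_norm] at h0
  have h1 : pr x i - pr y i = ((x i - y i : ℝ) : AddCircle (1 : ℝ)) := by
    simp only [pr]; rw [AddCircle.coe_sub]
  rw [h1, AddCircle.norm_eq] at h0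
  simp only [inv_one, one_mul, mul_one] at h0
  simpa [zv, Real.norm_eq_abs] using h0

end Pool.Agent.Lib.H14U
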