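import Pool.Agent.Lib.H14U.T2a
import Pool.Agent.Lib.H14U.T2b

/-! Chunk T2c of H14U (MP_ef0847_an). -/

set_option autoImplicit false

open scoped ContDiff

namespace Pool.Agent.Lib.H14U

/-- The conjugated iterate, through a lift of `h (pr x)`. -/
theorem conj_iterate {d : ℕ} (α : Fin d → ℝ) (F : (Fin d → ℝ) → (Fin d → ℝ))
    (h : (Fin d → AddCircle (1 : ℝ)) ≃ₜ (Fin d → AddCircle (1 : ℝ)))
    (hconj : ∀ x : Fin d → ℝ, h (pr (F x)) = h (pr x) + pr α) (x y : Fin d → ℝ)
    (hy : pr y = h (pr x)) (q : ℕ) : h (pr (F^[q] x)) = pr (y + (q : ℝ) • α) := by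
  induction q with
  | zero => simp [hy]
  | succ n ih =>
    rw [Function.iterate_succ', Function.comp_apply, hconj, ih, ← pr_basic.2.2.1]
    congr 1
    push_cast
    module

/-- (S/M) The displacement of the iterate `F^q` in the lift.
Proof. `dist (pr (F^[q] x)) (pr x) = dist (h.symm (h (pr x) + q • pr α)) (h.symm (h (pr x)))`
(iterate `hconj`) `≤ K * dist (y + q • pr α) y ^ β ≤ K * ρ ^ β` (`dist_pr_le` with the lift
`q α` and the integers `p`; translation invariance of the distance), so by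
`exists_of_dist_pr` every `F^[q] x - x` is within `K ρ^β < 1/2` of an integer vector, the same for
all `x` by `const_integer` (`s = Set.univ`). -/
theorem displacement {d : ℕ} (α : Fin d → ℝ) (F : (Fin d → ℝ) → (Fin d → ℝ)) (hFc : Continuous F)
    (h : (Fin d → AddCircle (1 : ℝ)) ≃ₜ (Fin d → AddCircle (1 : ℝ)))
    (hconj : ∀ x : Fin d → ℝ, h (pr (F x)) = h (pr x) + pr α) (K β : ℝ) (hK : 0 ≤ K) (hβ : 0 < β)
    (hs : ∀ a b, dist (h.symm a) (h.symm b) ≤ K * dist a b ^ β)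
    (q : ℕ) (p : Fin d → ℤ) (ρ : ℝ) (hρ : 0 ≤ ρ) (hp : ∀ i, |(q : ℝ) * α i - p i| ≤ ρ)
    (hsmall : K * ρ ^ β < 1 / 2) :
    ∃ p' : Fin d → ℤ, ∀ x, ‖F^[q] x - x - zv p'‖ ≤ K * ρ ^ β := by
  have hall : ∀ x, ∃ k : Fin d → ℤ, ‖(F^[q] x - x) - zv k‖ ≤ K * ρ ^ β := by
    intro x
    obtain ⟨y, hy⟩ := pr_basic.2.1 (h (pr x))
    have h1 := conj_iterate α F h hconj x y hy q
    have h2 : pr (F^[q] x) = h.symm (pr (y + (q : ℝ) • α)) := by
      rw [← h1, Homeomorph.symm_apply_apply]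
    have h3 : pr x = h.symm (pr y) := by
      rw [hy, Homeomorph.symm_apply_apply]
    have h4 : dist (pr (y + (q : ℝ) • α)) (pr y) ≤ ρ := by
      apply dist_pr_le hρ p
      intro i
      have := hp i
      simpa using this
    have h5 : dist (pr (F^[q] x)) (pr x) ≤ K * ρ ^ β := by
      rw [h2, h3]
      refine (hs _ _).trans ?_
      apply mul_le_mul_of_nonneg_left _ hK
      exact Real.rpow_le_rpow dist_nonneg h4 hβ.le
    exact exists_of_dist_pr h5
  obtain ⟨k₀, hk₀⟩ := hall 0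
  refine ⟨k₀, fun x => ?_⟩
  have hcont : ContinuousOn (fun x : Fin d → ℝ => F^[q] x - x) Set.univ :=
    ((hFc.iterate q).sub continuous_id).continuousOn
  exact const_integer isPreconnected_univ hcont hsmall (fun y _ => hall y) 0 (Set.mem_univ _) k₀ hk₀
    x (Set.mem_univ _)

end Pool.Agent.Lib.H14U
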