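import Pool.Agent.Lib.H14U.G3b

/-! Chunk T4a of H14U (MP_ef0847_an). -/

set_option autoImplicit false

open scoped ContDiff

namespace Pool.Agent.Lib.H14U

/-- The chain rule for iterates. -/
theorem norm_fderiv_iter_le {d : ℕ} {F : (Fin d → ℝ) → (Fin d → ℝ)} (hF : ContDiff ℝ ∞ F)
    {C : ℝ} (hC : 1 ≤ C) (hb : ∀ x, ‖fderiv ℝ F x‖ ≤ C) (j : ℕ) (x : Fin d → ℝ) :
    ‖fderiv ℝ (F^[j]) x‖ ≤ C ^ j := by
  induction j with
  | zero =>
    have h0 : (F^[0]) = (fun y => y) := by funext y; rfl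
    rw [h0, pow_zero]
    have : fderiv ℝ (fun y : Fin d → ℝ => y) x = ContinuousLinearMap.id ℝ (Fin d → ℝ) := fderiv_id'
    rw [this]
    exact ContinuousLinearMap.norm_id_le
  | succ j ih =>
    have hd1 : DifferentiableAt ℝ F (F^[j] x) := (hF.differentiable (by simp)) _
    have hd2 : DifferentiableAt ℝ (F^[j]) x := ((iter_smooth hF j).differentiable (by simp)) _
    rw [Function.iterate_succ', fderiv_comp x hd1 hd2]
    refine (ContinuousLinearMap.opNorm_comp_le _ _).trans ?_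
    rw [pow_succ']
    exact mul_le_mul (hb _) ih (norm_nonneg _) (by linarith)

/-- (S/M) Exponential bound. Proof: `‖fderiv F‖ ≤ C` with `C ≥ 1` (`deriv_bounded`,
`norm_iteratedFDeriv_one`), chain rule and induction: `‖fderiv (F^[j]) x‖ ≤ C^j ≤ C^q`. -/
theorem gamma_exp {d : ℕ} {F : (Fin d → ℝ) → (Fin d → ℝ)} (hF : ContDiff ℝ ∞ F)
    (hc : ∀ (x : Fin d → ℝ) (k : Fin d → ℤ), F (x + zv k) = F x + zv k) :
    ∃ C : ℝ, 1 ≤ C ∧ ∀ q : ℕ, DerBound F q (C ^ q) := by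
  obtain ⟨C, -, hC⟩ := deriv_bounded hF hc 1 le_rfl
  have hb : ∀ x, ‖fderiv ℝ F x‖ ≤ max C 1 := by
    intro x
    rw [← norm_iteratedFDeriv_one]
    exact (hC x).trans (le_max_left _ _)
  refine ⟨max C 1, le_max_right _ _, fun q => ⟨one_le_pow₀ (le_max_right _ _), ?_⟩⟩
  intro j hj x
  exact (norm_fderiv_iter_le hF (le_max_right _ _) hb j x).trans
    (pow_le_pow_right₀ (le_max_right _ _) hj)

/-- (S/M) For every `q` the best bound exists: `Γ ≥ 1` with `DerBound F q Γ` and `j ≤ q`, `x`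
such that `Γ / 2 ≤ ‖fderiv (F^[j]) x‖`. Proof: let `S` be the supremum of
`‖fderiv (F^[j]) x‖`, `j ≤ q`, all `x` (bounded by `gamma_exp`); for `d ≥ 1`, `j = 0` gives
`S ≥ ‖id‖ = 1 > 0`, and `S / 2 < S` is exceeded somewhere. -/
theorem best_gamma {d : ℕ} (hd : 1 ≤ d) {F : (Fin d → ℝ) → (Fin d → ℝ)} (hF : ContDiff ℝ ∞ F)
    (hc : ∀ (x : Fin d → ℝ) (k : Fin d → ℤ), F (x + zv k) = F x + zv k) (q : ℕ) :
    ∃ Γ : ℝ, DerBound F q Γ ∧ ∃ j, j ≤ q ∧ ∃ x, Γ / 2 ≤ ‖fderiv ℝ (F^[j]) x‖ := by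
  obtain ⟨C, -, hC⟩ := gamma_exp hF hc
  obtain ⟨-, hb⟩ := hC q
  haveI : NeZero d := ⟨by omega⟩
  set S : Set ℝ := {r | ∃ j, j ≤ q ∧ ∃ x, ‖fderiv ℝ (F^[j]) x‖ = r} with hS
  have hbdd : BddAbove S := by
    refine ⟨C ^ q, ?_⟩
    rintro r ⟨j, hj, x, rfl⟩
    exact hb j hj x
  have h1 : (1 : ℝ) ∈ S := by
    refine ⟨0, Nat.zero_le _, 0, ?_⟩
    have h0 : (F^[0]) = (fun y => y) := by funext y; rfl
    rw [h0]
    have : fderiv ℝ (fun y : Fin d → ℝ => y) 0 = ContinuousLinearMap.id ℝ (Fin d → ℝ) := fderiv_id'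
    rw [this]
    exact ContinuousLinearMap.norm_id
  have h1S : 1 ≤ sSup S := le_csSup hbdd h1
  refine ⟨sSup S, ⟨h1S, fun j hj x => le_csSup hbdd ⟨j, hj, x, rfl⟩⟩, ?_⟩
  obtain ⟨r, ⟨j, hj, x, rfl⟩, hr⟩ := exists_lt_of_lt_csSup ⟨1, h1⟩ (show sSup S / 2 < sSup S by linarith)
  exact ⟨j, hj, x, hr.le⟩

end Pool.Agent.Lib.H14U
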